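import Pool.Agent.Q67.TP.Defs

/-!
# Systems of classes and de Rham-Betti classes: definitions
-/

open CategoryTheory AlgebraicGeometry

universe u

namespace Pool.Agent.Q67.TP.S

open Pool.Agent.H914 Pool.Agent.H914.VarClass Pool.Agent.H914.VarClass.Obj
  Pool.Agent.H914.WeilCohomology
open Pool.Agent.Y133.Half (pw)
open Pool.Agent.Y121.AHS hiding Maps

/-- For every `ε > 0` we have `a n ≤ (1/2 + ε) t n` for all sufficiently large `n`. -/
def AtMostHalf (a t : ℕ → ℕ) : Prop :=
  ∀ ε : ℝ, 0 < ε → ∃ n₀ : ℕ, ∀ n ≥ n₀, (a n : ℝ) ≤ (1 / 2 + ε) * t n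

/-- The elements of `R'` are linear combinations of elements of `R`. -/
def SpannedBy {H : Type} (L : Type) [Field L] [AddCommGroup H] [Module L H] (R' R : Set H) : Prop :=
  ∀ c ∈ R', c ∈ Submodule.span L R

/-- The operator `φ` is the projector onto the elements of odd degree. -/
def IsOdd {L H : Type} [Field L] [AddCommGroup H] [Module L H] (deg : ℕ → H → Prop)
    (φ : Op L H) : Prop :=
  ∀ i x, deg i x → φ x = if i % 2 = 1 then x else 0

variable {k : Type u} [Field k] {𝒱 : VarClass k} {ops : CycleOps 𝒱}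

/-- `C` is a system of classes: all classes of algebraic cycles belong to `C`, all elements of `C`
are Hodge classes and de Rham-Betti classes, and `C` is stable under products, pull-backs and
push-forwards. -/
def IsSystem (S : Theory ops) (C : Classes S.T) : Prop :=
  (∀ X, alg S.T X ⊆ C X ∧ C X ⊆ meet (hodge S.T) (drb S) X ∧ Stable mu (C X)) ∧
    ∀ (X Y : 𝒱.Obj) (f : X ⟶ Y), Maps (pull f) (C Y) (C X) ∧ Maps (push f) (C X) (C Y)

variable {T : HodgeTheory ops}

/-- The projector of the cohomology of `X` onto the cohomology of odd degree is given by elements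
of `C`. -/
def OddIn (C : Classes T) (X : 𝒱.Obj) : Prop := ∃ φ, IsOp C X φ ∧ IsOdd RDeg φ

/-- All classes in `R` on `X` are linear combinations of classes in `C`. -/
def In (R C : Classes T) (X : 𝒱.Obj) : Prop := SpannedBy (Co T) (R X) (C X)

/-- The elements of `C` on `X` and the images of the classes `c i` under correspondences in `C`. -/
def gens (C : Classes T) {r : ℕ} {Y : Fin r → 𝒱.Obj} (c : ∀ i, RH T (Y i)) : Classes T :=
  fun X => C X ∪ ⋃ i, (fun z => image z (c i)) '' C ((Y i).prod X)

/-- There are `r` classes in `R` on powers of `X`, where `r + 1 ≤ N`, such that all classes in `R`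
on all powers of `X` are linear combinations of elements of `C` and of images of these `r` classes
under correspondences in `C`. -/
def Generated (R C : Classes T) (X : 𝒱.Obj) (N : ℕ∞) : Prop :=
  ∃ (r : ℕ) (m : Fin r → ℕ) (c : ∀ i, RH T (pw X (m i))), (r : ℕ∞) + 1 ≤ N ∧
    (∀ i, c i ∈ R (pw X (m i))) ∧ ∀ n, In R (gens C c) (pw X n)

/-- The law for the index `N` of the classes in `R` over the classes in `C` on the powers
of `X`. -/
structure Law (R C : Classes T) (X : 𝒱.Obj) (N : ℕ∞) : Prop where
  pos : 1 ≤ N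
  index : IndexIs R C X N
  one : N = 1 ↔ ∀ n, In R C (pw X n)
  half : N ≠ 1 → AtMostHalf (dimOn C X) (dimOn R X)
  generated : N ≠ ⊤ → Generated R C X N
  infinitesimal : N ≠ ⊤ ↔ lie C X ⊆ lie R X

/-- The fourth power of `X` decides whether the index `N` is finite. -/
structure FourFor (R C : Classes T) (X : 𝒱.Obj) (N : ℕ∞) : Prop where
  four : N ≠ ⊤ ↔ (∀ A ∈ lie C X, Kills R X A 3) ∧ ∀ A ∈ lie C X, Central R X A → A ∈ lie R X
  finite : In R C (pw X 3) → NoCentralSkew C X → N ≠ ⊤

end Pool.Agent.Q67.TP.S
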