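import Pool.Agent.Q67.TP.Rat
import Pool.Agent.Q67.TK.LarsenG

/-!
# The criterion on the fourth power for closed systems of classes
-/

set_option autoImplicit false
set_option linter.unusedSectionVars false

open CategoryTheory AlgebraicGeometry TensorProduct Filter Topology

open scoped ENNReal

universe u v w

namespace Pool.Agent.Q67.TG

open Pool.Agent.H914 Pool.Agent.H914.VarClass Pool.Agent.H914.VarClass.Obj
  Pool.Agent.H914.WeilCohomology
open Pool.Agent.Y133.Half hiding prj extOp_xp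
open Pool.Agent.Q67.Det Pool.Agent.Q67.TK
open Pool.Agent.Y121.AH
open scoped Matrix

variable {k : Type u} [Field k] {𝒱 : VarClass k} {ops : CycleOps 𝒱}
variable {T : HodgeTheory ops} {X Y Z : 𝒱.Obj} {Q R : ClassPred T.W}

/-- The system contains the classes on the powers of `X` which are killed by all the operators
which kill the system. -/
def Closed (R : ClassPred T.W) (X : 𝒱.Obj) : Prop :=
  ∀ (n : ℕ) (v : Module.Basis (Fin n) T.W.K (T.W.H X)) (l : ℕ) (F : (Fin l → Fin n) → T.W.K),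
    (∀ A ∈ Ann (Cs R.sys v), (dM l A) *ᵥ F = 0) → F ∈ Cs R.sys v l

lemma closed_hodge (X : 𝒱.Obj) : Closed (hodgePred T) X := by
  intro n v l F h
  change F ∈ Cs (hodgeSys T) v l
  rw [hodge_Cs]
  refine mem_Ker_of fun A hA => h A ?_
  intro m G hG
  refine hA m G ?_
  rw [← hodge_Cs]
  exact hG

lemma closed_both {L : Type} [Field L] [Algebra T.W.K L] (𝔞 : LieAct.{u, 0, w} (baseW T.W L))
    (X : 𝒱.Obj) : Closed (bothP 𝔞) X := by
  intro n v l F h
  cases l with
  | zero => exact mem_Cs_zero _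
  | succ m =>
    have h1 : F ∈ Cs (hodgeSys T) v (m + 1) := by
      refine closed_hodge (T := T) X n v (m + 1) F fun A hA => h A ?_
      intro m G hG
      exact hA m G fun Z f => ClassPred.sys_le (fun h => both_hodge h) _ (hG Z f)
    refine mem_Cs_succ.2 (both_iff.2 ⟨mem_Cs_succ.1 h1, fun a => ?_⟩)
    have hM := mat_mem_Ann (v := v) (𝔞 := 𝔞) (Q := bothP 𝔞) (fun h a => both_kill h a) a
    have h7 := kill_of_ann_map hM (F := F) h
    rw [𝔞.op_eq, em_PPL]
    refine (derOp_PP (W := baseW T.W L) (vL L v) (𝔞.op a X) (mpL L _)).trans ?_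
    refine (congrArg (PP (vL L v) (Det.prj X m)) h7).trans (PP_zero _)

open scoped ComplexOrder in
/-- **The criterion on the fourth power.** -/
theorem kill_of_four_R (P : PolData T Q.sys X)
    (hQR : ∀ {Z : 𝒱.Obj} {j : ℕ} {c : T.W.H Z}, Q.P Z j c → R.P Z j c)
    (hRH : ∀ {Z : 𝒱.Obj} {j : ℕ} {c : T.W.H Z}, R.P Z j c → (hodgePred T).P Z j c)
    (hcl : Closed R X)
    (h4 : ∀ A : Module.End T.W.K (T.W.H X), KillsAll Q.sys X A →
      ∀ c ∈ R.sys.C (pw X 3), derOp A 3 c = 0)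
    (hZ : ∀ A : Module.End T.W.K (T.W.H X), KillsAll Q.sys X A →
      A ∈ R.sys.Op X X → (∀ φ ∈ R.sys.Op X X, A * φ = φ * A) → KillsAll R.sys X A)
    {A : Module.End T.W.K (T.W.H X)} (hA : KillsAll Q.sys X A) : KillsAll R.sys X A := by
  obtain ⟨n, v, d, hd⟩ := exists_homog_basis T.W X
  have hpos := posDef_of_pol (v := v) P.pol
  have hMu : IsUnit ((cM v)ᵀ * upM (qM v P.uu)).det :=
    (Matrix.isUnit_iff_isUnit_det _).1 hpos.isUnit
  have hCu : IsUnit (cM v).det := by
    rw [Matrix.det_mul, Matrix.det_transpose] at hMu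
    exact isUnit_of_mul_isUnit_left hMu
  have htoLin : ∀ M : Matrix (Fin n) (Fin n) T.W.K, mt v (Matrix.toLin v v M) = M := fun M =>
    LinearMap.toMatrix_toLin v v M
  have hAnn : ∀ (S : Sys T.W) (M : Matrix (Fin n) (Fin n) T.W.K), M ∈ Ann (Cs S v) ↔
      KillsAll S X (Matrix.toLin v v M) := by
    intro S M
    rw [killsAll_iff (v := v), htoLin]
  have hleQR : ∀ Z, Q.sys.C Z ≤ R.sys.C Z := fun Z => ClassPred.sys_le hQR Z
  have h := larsenG (𝓡 := Cs R.sys v) (C := cM v) (C' := (cM v)⁻¹) (q := qM v P.uu)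
    (κ := (qM v P.uu)⁻¹) (real_K T) (Matrix.nonsing_inv_mul _ hCu)
    (fun l F hF => cM_fix v (fun Z f => ClassPred.sys_le hRH _ (hF Z f))) P.q_kap hpos
    (fun l {F} h => hcl n v l F h) (𝒜 := Cs Q.sys v)
    (fun l F hF Z f => hleQR Z (hF Z f)) (kap_mem hd P.mem P.q_kap)
    (by
      intro M hM F hF
      have h1 := (mem_four (v := v) (S := R.sys) (m := 3)
        (A := Matrix.toLin v v M)).2 (h4 _ ((hAnn Q.sys M).1 hM))
      rw [htoLin] at h1
      exact h1 F hF)
    (by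
      intro Y hY hYz hYc
      rw [hAnn]
      refine hZ _ ((hAnn Q.sys Y).1 hY) ?_ ?_
      · rw [← P.op_iff hleQR hd, htoLin]; exact hYz
      · intro φ hφ
        rw [← P.op_iff hleQR hd] at hφ
        apply mt_inj (v := v)
        rw [mt_mul, mt_mul, htoLin]
        exact hYc _ hφ)
  exact (killsAll_iff (v := v)).2 (h ((killsAll_iff (v := v)).1 hA))

/-- The fourth power suffices. -/
theorem four_enough (P : PolData T Q.sys X)
    (hQR : ∀ {Z : 𝒱.Obj} {j : ℕ} {c : T.W.H Z}, Q.P Z j c → R.P Z j c)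
    (hRH : ∀ {Z : 𝒱.Obj} {j : ℕ} {c : T.W.H Z}, R.P Z j c → (hodgePred T).P Z j c)
    (hcl : Closed R X) (h3 : ∀ j c, R.P (pw X 3) j c → Q.P (pw X 3) j c)
    (hsk : ∀ A ∈ Q.sys.Op X X, (∀ φ ∈ Q.sys.Op X X, A * φ = φ * A) →
      (∀ x y, T.W.tr X (A x * y) = -T.W.tr X (x * A y)) → A = 0)
    {A : Module.End T.W.K (T.W.H X)} (hA : KillsAll Q.sys X A) : KillsAll R.sys X A := by
  have := charZero_K T
  have hdown : ∀ {j : ℕ} {c : T.W.H (X.prod X)}, R.P (X.prod X) j c → Q.P (X.prod X) j c := by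
    intro j c hc
    have h1 := Q.map (seFour X) (h3 j _ (R.map (prFour X) hc))
    rwa [← T.W.map_comp, se_pr, T.W.map_id] at h1
  refine kill_of_four_R P hQR hRH hcl (fun A hA c hc => ?_) (fun A hA h1 h2 m c hc => ?_) hA
  · refine hA 3 c ?_
    refine ClassPred.sp_ind (Q := R) (q := fun c => c ∈ Q.sys.C (pw X 3)) ?_ ?_ ?_ hc
    · intro j x hx; exact ClassPred.sp_of (Q := Q) (h3 j x hx)
    · exact Submodule.zero_mem _
    · intro a b ha hb; exact Submodule.add_mem _ ha hb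
  · have e1 : A ∈ Q.sys.Op X X := by
      obtain ⟨z, hz, rfl⟩ := Sys.mem_Op.1 h1
      refine Sys.mem_Op.2 ⟨z, ?_, rfl⟩
      refine ClassPred.sp_ind (Q := R) (q := fun c => c ∈ Q.sys.C (X.prod X))
        ?_ ?_ ?_ hz
      · intro j x hx; exact ClassPred.sp_of (Q := Q) (hdown hx)
      · exact Submodule.zero_mem _
      · intro a b ha hb; exact Submodule.add_mem _ ha hb
    have e2 : ∀ φ ∈ Q.sys.Op X X, A * φ = φ * A := by
      intro φ hφ
      obtain ⟨z, hz, rfl⟩ := Sys.mem_Op.1 hφ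
      exact h2 _ (Sys.mem_Op.2 ⟨z, ClassPred.sys_le hQR _ hz, rfl⟩)
    have e3 : A = 0 := hsk A e1 e2 fun x y => PolData.tr_skew P hA x y
    have h10 : (0 : Module.End T.W.K (T.W.H (pw X m))) =
        derOp (0 : Module.End T.W.K (T.W.H X)) m := by
      refine IsDer.eq ?_
      intro x
      rw [LinearMap.zero_apply]
      refine (Finset.sum_eq_zero fun i _ => ?_).symm
      exact ten_zero_of (i := i) (Function.update_self i _ x)
    rw [e3, ← h10, LinearMap.zero_apply]

end Pool.Agent.Q67.TG
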