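import Pool.Agent.Q67.TP.FConv

/-!
# Hodge classes, de Rham-Betti classes and periods: final forms
-/

set_option autoImplicit false
set_option linter.unusedSectionVars false

open CategoryTheory AlgebraicGeometry TensorProduct Filter Topology

universe u v w

namespace Pool.Agent.Q67.TP.S

open Pool.Agent.H914 Pool.Agent.H914.VarClass Pool.Agent.H914.VarClass.Obj
  Pool.Agent.H914.WeilCohomology
open Pool.Agent.Y133.Half hiding prj extOp_xp tateDim
open Pool.Agent.Y133.Per
open Pool.Agent.Q67.Det Pool.Agent.Q67.TK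
open Pool.Agent.Q67.TG
open Pool.Agent.W458.MF Pool.Agent.W536.RR Pool.Agent.H281R3.HT
open Pool.Agent.Y121 Pool.Agent.Y121.AHS
open Pool.Agent.Q67.TP

variable {k : Type u} [Field k] {𝒱 : VarClass k} {ops : CycleOps 𝒱} {S : Theory ops}
  {X Y Z : 𝒱.Obj}

lemma both_drb {j : ℕ} {c : (toH S.T).W.H Z} (h : (Bp S).P Z j c) : (drbPred (DD S)).P Z j c :=
  (Bp_iff.1 h).2

/-- If the operators which kill the classes in `C` kill the de Rham-Betti classes, these are Hodge
classes. -/
lemma drb_sub_hodge {C : Classes S.T} {Q : ClassPred (toH S.T).W} (hC : Rp C Q)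
    (hQ : ∀ {Z : 𝒱.Obj} {j : ℕ} {c : (toH S.T).W.H Z}, Q.P Z j c →
      (AH.hodgePred (toH S.T)).P Z j c)
    (h : lie C X ⊆ lie (drb S) X) : Sub (drb S) (hodge S.T) X := by
  intro n c hc
  obtain ⟨j, hj⟩ := (ex_drb (S := S) _ _).1 hc
  exact ⟨j, hodge_of_kill (T := toH S.T) (Q := Q) (R := drbPred (DD S)) hQ
    ((lie_sub_iff (ex_drb (S := S)).rp hC).1 h) hj⟩

/-- **The zero-one laws for Hodge classes and de Rham-Betti classes.** -/
theorem zero_one_law (S : Theory ops) (X : 𝒱.Obj) [Nontrivial (RH S.T X)] (u : ROp S.T X)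
    (hu : PolarisedBy (meet (hodge S.T) (drb S)) X u) :
    ∃ NH NR : ℕ∞, ZeroOne (hodge S.T) (drb S) X NH ∧ ZeroOne (drb S) (hodge S.T) X NR ∧
      (trdegOf (periods S X) = (lieDim (meet (hodge S.T) (drb S)) X + 1 : ℕ) → NR = 1) := by
  have hnt : Nontrivial ((toH S.T).W.H X) := ‹Nontrivial (RH S.T X)›
  obtain ⟨NH, h1⟩ := zeroOne_of (X := X) ex_hodge ex_both (fun h => both_hodge h) (polB hu)
  obtain ⟨NR, h2⟩ := zeroOne_of (X := X) ex_drb ex_both' (fun h => both_drb h) (polB hu)
  refine ⟨NH, NR, h1, h2, fun h => h2.one.2 ?_⟩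
  exact drb_sub_hodge ex_both.rp (fun h => both_hodge h)
    (lie_of_trdeg ex_both.rp (fun h => both_drb h) h)

/-- **The transcendence degree of the periods and the fourth power.** -/
theorem fourth_periods (S : Theory ops) (X : 𝒱.Obj) [Nontrivial (RH S.T X)] (u : ROp S.T X)
    (hu : PolarisedBy (meet (hodge S.T) (drb S)) X u) :
    Fourth (hodge S.T) (drb S) X ∧
      trdegOf (periods S X) ≤ (lieDim (meet (hodge S.T) (drb S)) X + 1 : ℕ) ∧
      (trdegOf (periods S X) = (lieDim (meet (hodge S.T) (drb S)) X + 1 : ℕ) →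
        Sub (drb S) (hodge S.T) X) ∧
      (hodge S.T (pw X 3) ⊆ drb S (pw X 3) → NoCentralSkew (meet (hodge S.T) (drb S)) X →
        Sub (hodge S.T) (drb S) X ∧ trdegOf (periods S X) ≤ (lieDim (hodge S.T) X + 1 : ℕ) ∧
        (trdegOf (periods S X) = (lieDim (hodge S.T) X + 1 : ℕ) → Sub (drb S) (hodge S.T) X)) := by
  have hnt : Nontrivial ((toH S.T).W.H X) := ‹Nontrivial (RH S.T X)›
  have hF := fourth_hodge (X := X) (polB hu)
  have hle := trdeg_le (X := X) (ex_both (S := S)).rp (fun h => both_drb h)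
  have heq := fun h => drb_sub_hodge (X := X) (ex_both (S := S)).rp (fun h => both_hodge h)
    (lie_of_trdeg ex_both.rp (fun h => both_drb h) h)
  refine ⟨hF, hle, heq, fun h3 hs => ?_⟩
  have h4 := hF.enough h3 hs
  have h5 : lieDim (meet (hodge S.T) (drb S)) X = lieDim (hodge S.T) X := by
    have h6 : lie (meet (hodge S.T) (drb S)) X = lie (hodge S.T) X := by
      refine Set.Subset.antisymm ?_ ?_
      · intro A hA m D hD c hc
        exact hA m D hD c ⟨hc, h4 m hc⟩
      · intro A hA m D hD c hc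
        exact hA m D hD c hc.1
    rw [lieDim, h6]
    rfl
  rw [h5] at hle heq
  exact ⟨h4, hle, heq⟩

end Pool.Agent.Q67.TP.S
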