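import Pool.Agent.Q67.TP.LDefs

/-!
# De Rham-Betti classes with algebraic coefficients: definitions
-/

open CategoryTheory AlgebraicGeometry

universe u

namespace Pool.Agent.Q67.TP.S

open Pool.Agent.H914 Pool.Agent.H914.VarClass Pool.Agent.H914.VarClass.Obj
  Pool.Agent.H914.WeilCohomology
open Pool.Agent.Y133.Half (pw)
open Pool.Agent.Y121.AHS hiding Maps

/-- The vector `x` is a combination `∑ c i e(a i)` with coefficients in `F` of elements `a i` with
the property `P`. -/
def CombIn {G H : Type} [AddCommGroup G] [Module ℂ G] (F : Subfield ℂ) (e : H → G) (P : H → Prop)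
    (x : G) : Prop :=
  ∃ (r : ℕ) (c : Fin r → ℂ) (a : Fin r → H), (∀ i, c i ∈ F ∧ P (a i)) ∧ x = comb e c a

/-- The elements of `R` are complex linear combinations of elements `e a` with `a` in `C`. -/
def SpannedByIm {G H : Type} [AddCommGroup G] [Module ℂ G] (e : H → G) (R : Set G) (C : Set H) :
    Prop :=
  ∀ x ∈ R, x ∈ Submodule.span ℂ (e '' C)

/-- The dimension of the complex span. -/
noncomputable def dimC {G : Type} [AddCommGroup G] [Module ℂ G] (R : Set G) : ℕ := Set.finrank ℂ R

/-- The element `r x`. -/
def scale {G : Type} [AddCommGroup G] [Module ℂ G] (r : ℂ) (x : G) : G := r • x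

variable {k : Type u} [Field k] {𝒱 : VarClass k} {ops : CycleOps 𝒱}

/-- A rational class as a class with complex coefficients. -/
noncomputable def cx {T : HodgeTheory ops} {X : 𝒱.Obj} (c : RH T X) : CH T X := emL T.W ℂ c

variable (S : Theory ops)

/-- The de Rham-Betti classes with algebraic coefficients on `X`: the classes `x` with complex
coefficients which are combinations with algebraic coefficients of rational classes of degree `2 j`
such that `(2 π i) ^ j x` lies in the algebraic de Rham cohomology. -/
def drbA (X : 𝒱.Obj) : Set (CH S.T X) :=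
  {x | ∃ j, CombIn S.F cx (RDeg (T := S.T) (2 * j)) x ∧ scale (twoPiI ^ j) x ∈ S.D X}

/-- The dimension of the space spanned by the de Rham-Betti classes with algebraic coefficients on
the product of `n + 1` copies of `X`. -/
noncomputable def dimA (X : 𝒱.Obj) (n : ℕ) : ℕ := dimC (drbA S (pw X n))

/-- All de Rham-Betti classes with algebraic coefficients on `X` are linear combinations of classes
in `C`. -/
def InA (C : Classes S.T) (X : 𝒱.Obj) : Prop := SpannedByIm cx (drbA S X) (C X)

/-- The law for the index `N` of the de Rham-Betti classes with algebraic coefficients over the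
classes in `C` on the powers of `X`. -/
structure LawA (C : Classes S.T) (X : 𝒱.Obj) (N : ℕ∞) : Prop where
  pos : 1 ≤ N
  index : HasIndex (dimA S X) (dimOn C X) N
  one : N = 1 ↔ ∀ n, InA S C (pw X n)
  half : N ≠ 1 → AtMostHalf (dimOn C X) (dimA S X)

end Pool.Agent.Q67.TP.S
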