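import Pool.Agent.Q67.TP.LConv

/-!
# Systems of classes and de Rham-Betti classes: final forms
-/

set_option autoImplicit false
set_option linter.unusedSectionVars false

open CategoryTheory AlgebraicGeometry TensorProduct Filter Topology

universe u v w

namespace Pool.Agent.Q67.TP.S

open Pool.Agent.H914 Pool.Agent.H914.VarClass Pool.Agent.H914.VarClass.Obj
  Pool.Agent.H914.WeilCohomology
open Pool.Agent.Y133.Half hiding prj extOp_xp tateDim
open Pool.Agent.Y133.Per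
open Pool.Agent.Q67.Det Pool.Agent.Q67.TK
open Pool.Agent.Q67.TG
open Pool.Agent.W458.MF Pool.Agent.W536.RR Pool.Agent.H281R3.HT
open Pool.Agent.Y121 Pool.Agent.Y121.AHS
open Pool.Agent.Q67.TP

variable {k : Type u} [Field k] {𝒱 : VarClass k} {ops : CycleOps 𝒱} {S : Theory ops}
  {X Y Z : 𝒱.Obj}

lemma sys_drb {C : Classes S.T} (hC : IsSystem S C) {Z : 𝒱.Obj} {j : ℕ} {c : (VV S.T).H Z}
    (hc : (sysOf hC).P Z j c) : (drbPred (DD S)).P Z j c := both_drb (sys_both hC hc)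

lemma sys_hodge {C : Classes S.T} (hC : IsSystem S C) {Z : 𝒱.Obj} {j : ℕ} {c : (VV S.T).H Z}
    (hc : (sysOf hC).P Z j c) : (AH.hodgePred (toH S.T)).P Z j c :=
  both_hodge (sys_both hC hc)

/-- **The law for the de Rham-Betti classes.** -/
theorem law_drb (S : Theory ops) (X : 𝒱.Obj) [Nontrivial (RH S.T X)] (C : Classes S.T)
    (hC : IsSystem S C) (u : ROp S.T X) (hu : PolarisedBy C X u) (ho : OddIn C X) :
    ∃ N : ℕ∞, Law (drb S) C X N ∧ trdegOf (periods S X) ≤ (lieDim C X + 1 : ℕ) ∧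
      (trdegOf (periods S X) = (lieDim C X + 1 : ℕ) → N ≠ ⊤) ∧
      (N ≠ ⊤ ↔ Sub (drb S) (hodge S.T) X ∧
        lie C X ⊆ lie (meet (hodge S.T) (drb S)) X) := by
  have hnt : Nontrivial ((VV S.T).H X) := ‹Nontrivial (RH S.T X)›
  obtain ⟨N, hN⟩ := law_of (X := X) (ex_drb (S := S)) (rp_sys hC) (fun h => sys_drb hC h)
    (polC hC hu ho)
  refine ⟨N, hN, trdeg_le (rp_sys hC) (fun h => sys_drb hC h),
    fun h => hN.infinitesimal.2 (lie_of_trdeg (rp_sys hC) (fun h => sys_drb hC h) h), ?_⟩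
  constructor
  · intro h
    have h1 := hN.infinitesimal.1 h
    refine ⟨drb_sub_hodge (rp_sys hC) (fun h => sys_hodge hC h) h1, fun A hA m E hE c hc => ?_⟩
    exact h1 hA m E hE c hc.2
  · rintro ⟨h1, h2⟩
    refine hN.infinitesimal.2 fun A hA m E hE c hc => ?_
    exact h2 hA m E hE c ⟨h1 m hc, hc⟩

/-- **The law for the classes which are Hodge classes and de Rham-Betti classes.** -/
theorem law_both (S : Theory ops) (X : 𝒱.Obj) [Nontrivial (RH S.T X)] (C : Classes S.T)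
    (hC : IsSystem S C) (u : ROp S.T X) (hu : PolarisedBy C X u) (ho : OddIn C X) :
    ∃ N : ℕ∞, Law (meet (hodge S.T) (drb S)) C X N ∧ FourFor (meet (hodge S.T) (drb S)) C X N ∧
      trdegOf (periods S X) ≤ (lieDim C X + 1 : ℕ) ∧
      (trdegOf (periods S X) = (lieDim C X + 1 : ℕ) →
        N ≠ ⊤ ∧ Sub (drb S) (hodge S.T) X) := by
  have hnt : Nontrivial ((VV S.T).H X) := ‹Nontrivial (RH S.T X)›
  obtain ⟨N, hN⟩ := law_of (X := X) (ex_both (S := S)) (rp_sys hC) (fun h => sys_both hC h)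
    (polC hC hu ho)
  have h4 := four_of (X := X) (ex_both (S := S)) (rp_sys hC) (fun h => sys_both hC h)
    (fun h => both_hodge h) (closed_both (aa S) X) (polC hC hu ho) hN
  refine ⟨N, hN, h4, trdeg_le (rp_sys hC) (fun h => sys_drb hC h), fun h => ?_⟩
  have h1 := lie_of_trdeg (rp_sys hC) (fun h => sys_drb hC h) h
  refine ⟨hN.infinitesimal.2 fun A hA m E hE c hc => h1 hA m E hE c hc.2,
    drb_sub_hodge (rp_sys hC) (fun h => sys_hodge hC h) h1⟩

lemma isCyc_zero (X : 𝒱.Obj) : X.IsCyc 0 0 := by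
  intro x hx
  exact absurd rfl hx

/-- The classes of algebraic cycles. -/
lemma alg_system (S : Theory ops) : IsSystem S (alg S.T) := by
  refine ⟨fun X => ⟨subset_rfl, ?_, ?_⟩, fun X Y f => ⟨?_, ?_⟩⟩
  · rintro _ ⟨j, z, hz, rfl⟩
    exact ⟨⟨j, S.T.cyc X j z hz⟩, ⟨j, (S.T.cyc X j z hz).1, S.deRham.cyc X j z hz⟩⟩
  · rintro _ ⟨i, z, hz, rfl⟩ _ ⟨j, w, hw, rfl⟩
    exact ⟨i + j, ops.mul z w, ops.mul_mem hz hw, S.T.W.cl_mul z w⟩
  · rintro _ ⟨j, z, hz, rfl⟩
    exact ⟨j, ops.pull f z, ops.pull_mem f hz, S.T.W.cl_pull f z⟩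
  · rintro _ ⟨j, z, hz, rfl⟩
    by_cases h : X.dim ≤ j + Y.dim
    · exact ⟨j + Y.dim - X.dim, ops.push f z, ops.push_mem f hz (by omega), S.T.W.cl_push f z⟩
    · refine ⟨0, 0, isCyc_zero Y, ?_⟩
      rw [map_zero]
      exact (AH.push_neg f (by omega) (S.T.W.cl_mem hz)).symm

end Pool.Agent.Q67.TP.S
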