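import Pool.Agent.Q67.TP.Alg
import Pool.Agent.Q67.TP.LFinal
import Pool.Agent.Q67.TP.ADefs

/-!
# De Rham-Betti classes with algebraic coefficients: comparison of the definitions
-/

set_option autoImplicit false
set_option linter.unusedSectionVars false
set_option maxHeartbeats 400000

open CategoryTheory AlgebraicGeometry TensorProduct Filter Topology

universe u v w

namespace Pool.Agent.Q67.TP

open Pool.Agent.Y133.Per
open Pool.Agent.H914 Pool.Agent.H914.VarClass Pool.Agent.H914.VarClass.Obj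
  Pool.Agent.H914.WeilCohomology
open Pool.Agent.Y133.Half hiding prj extOp_xp tateDim
open Pool.Agent.Q67.Det Pool.Agent.Q67.TK
open Pool.Agent.Q67.TG Pool.Agent.Y121.AH
open scoped Matrix

variable {k : Type u} [Field k] {𝒱 : VarClass k} {ops : CycleOps 𝒱}

section flat

variable {W : WeilCohomology.{u, 0} ops} [Algebra W.K ℂ] {F : Subfield ℂ} {X Y Z : 𝒱.Obj}
  {D : DeRham W F} (hF : ∀ z : ℂ, z ∈ F ↔ IsAlgebraic ℚ z)
  (hK : ∀ δ : Derivation ℚ ℂ ℂ, KillsK W.K δ)

/-- The classes with algebraic coefficients which are killed. -/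
lemma flat_iff {j : ℕ} {y : Base W.K (W.H X)} (hy : y ∈ grB W X (2 * j))
    (hn : ∀ δ : Derivation ℚ ℂ ℂ, nab δ (hK δ) (W.H X) y = 0) :
    (∀ δ, opD D hF hK δ X y = 0) ↔ twoPiI ^ j • y ∈ D.dR X := by
  have h1 : ∀ δ : Derivation ℚ ℂ ℂ, nab δ (hK δ) (W.H X) (twoPiI ^ j • y) =
      ((j : ℂ) * lam δ * twoPiI ^ j) • y := by
    intro δ
    rw [nab_smul, hn, smul_zero, add_zero, der_pow]
  have hg : twoPiI ^ j • y ∈ grB W X (2 * j) := Submodule.smul_mem _ _ hy
  have hc : ∀ δ, lam δ * (((2 * j : ℕ) : ℂ) / 2) * twoPiI ^ j = (j : ℂ) * lam δ * twoPiI ^ j := by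
    intro δ
    push_cast
    ring
  constructor
  · intro h
    refine mem_dR_of_conn hF hK fun δ => ?_
    have h5 : opD D hF hK δ X (twoPiI ^ j • y) = 0 := by rw [map_smul, h δ, smul_zero]
    rw [opD, LinearMap.add_apply, LinearMap.smul_apply, halfDeg_apply hg, smul_smul, smul_smul,
      hc] at h5
    rw [eq_neg_of_add_eq_zero_left h5, h1]
  · intro h δ
    have h5 : opD D hF hK δ X (twoPiI ^ j • y) = 0 := by
      rw [opD_dR hF hK h hg, h1, smul_smul, hc, neg_add_cancel]
    rw [map_smul] at h5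
    exact (smul_eq_zero.1 h5).resolve_left (pow_ne_zero _ twoPiI_ne)

end flat

section dims

variable {T : HodgeTheory ops} {L : Type} [Field L] [Algebra T.W.K L] [Algebra L ℂ]
  [IsScalarTower T.W.K L ℂ] {X Y Z : 𝒱.Obj} {Q : ClassPred T.W} {R : ClassPred (baseW T.W L)}

/-- a space of tensors with complex coefficients -/
noncomputable def upB (T : HodgeTheory ops) {S : Type} (V : Submodule L (S → L)) :
    Submodule (baseW T.W ℂ).K (S → (baseW T.W ℂ).K) :=
  Submodule.span (baseW T.W ℂ).K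
    ((fun G : S → L => (fun I => algebraMap L ℂ (G I) : S → (baseW T.W ℂ).K)) '' (V : Set (S → L)))

lemma finrank_upB {S : Type} [Fintype S] (V : Submodule L (S → L)) :
    Module.finrank (baseW T.W ℂ).K (upB T V) = Module.finrank L V :=
  finrank_upS V

/-- the complex span of the classes -/
lemma span_iot {n : ℕ} (v : Module.Basis (Fin n) T.W.K (T.W.H X)) (R : ClassPred (baseW T.W L))
    (m : ℕ) :
    Submodule.span (baseW T.W ℂ).K (iot '' {c : (baseW T.W L).H (pw X m) | ∃ j, R.P (pw X m) j c}) =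
      (upB T (CsG R v (m + 1))).map (PPe (W := baseW T.W ℂ) (vL ℂ v) m).toLinearMap := by
  apply le_antisymm
  · refine Submodule.span_le.2 ?_
    rintro _ ⟨c, hc, rfl⟩
    obtain ⟨j, hj⟩ := hc
    obtain ⟨G, rfl⟩ := PP_surj (W := baseW T.W L) (vL L v) c
    refine ⟨mp ℂ (show (Fin (m + 1) → Fin n) → L from G), ?_, ?_⟩
    · exact Submodule.subset_span ⟨_, mem_Cs_succ.2 (ClassPred.sp_of (Q := R) hj), rfl⟩
    · exact (iot_PP v (show (Fin (m + 1) → Fin n) → L from G)).symm
  · rw [Submodule.map_le_iff_le_comap]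
    refine Submodule.span_le.2 ?_
    rintro _ ⟨G, hG, rfl⟩
    have h1 : PP (W := baseW T.W L) (vL L v) (Det.prj X m) G ∈ R.sys.C (pw X m) :=
      mem_Cs_succ.1 hG
    have key : ∀ x ∈ R.sys.C (pw X m), iot x ∈ Submodule.span (baseW T.W ℂ).K
        (iot '' {c : (baseW T.W L).H (pw X m) | ∃ j, R.P (pw X m) j c}) := by
      intro x hx
      refine ClassPred.sp_ind (Q := R) (q := fun x => iot x ∈ Submodule.span (baseW T.W ℂ).K
        (iot '' {c : (baseW T.W L).H (pw X m) | ∃ j, R.P (pw X m) j c})) ?_ ?_ ?_ hx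
      · intro j x hx; exact Submodule.subset_span ⟨x, ⟨j, hx⟩, rfl⟩
      · rw [iot_zero]; exact Submodule.zero_mem _
      · intro a b ha hb; rw [iot_add]; exact Submodule.add_mem _ ha hb
    have h2 := key _ h1
    have h3 := iot_PP v G
    rw [h3] at h2
    exact h2

lemma finrank_iot {n : ℕ} (v : Module.Basis (Fin n) T.W.K (T.W.H X))
    (R : ClassPred (baseW T.W L)) (m : ℕ) :
    Set.finrank (baseW T.W ℂ).K
      (iot '' {c : (baseW T.W L).H (pw X m) | ∃ j, R.P (pw X m) j c}) =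
      dimBy (baseW T.W L) R.P (pw X m) := by
  rw [Set.finrank, span_iot v R m, LinearEquiv.finrank_map_eq, finrank_upB]
  exact finrank_Cs (v := vL L v) (S := R.sys) (m := m)

/-- The components of the coordinates. -/
lemma comp_of_span {n : ℕ} {v : Module.Basis (Fin n) T.W.K (T.W.H X)} {m : ℕ}
    {G : (Fin (m + 1) → Fin n) → L}
    (h : PP (W := baseW T.W L) (vL L v) (Det.prj X m) G ∈
      Submodule.span (baseW T.W L).K (em T.W L '' (Q.sys.C (pw X m) : Set (T.W.H (pw X m)))))
    (l : L →ₗ[T.W.K] T.W.K) : (fun I => l (G I)) ∈ Cs Q.sys v (m + 1) := by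
  have h1 : G ∈ CsL L Q.sys v (m + 1) := by
    rw [mem_CsL, mem_Cs_succ, TG.mem_base]
    exact h
  rw [Cs_base] at h1
  exact comp_mpS h1 l

/-- Combinations of classes in `Q`. -/
lemma iot_of_bc {m j : ℕ} {c : (baseW T.W L).H (pw X m)} (h : (bcPred L Q).P (pw X m) j c) :
    iot c ∈ Submodule.span (baseW T.W ℂ).K
      (em T.W ℂ '' (Q.sys.C (pw X m) : Set (T.W.H (pw X m)))) := by
  have h1 := h.1
  rw [TG.mem_base] at h1
  have key : ∀ x ∈ Submodule.span (baseW T.W L).K
        (em T.W L '' (Q.sys.C (pw X m) : Set (T.W.H (pw X m)))),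
      iot x ∈ Submodule.span (baseW T.W ℂ).K
        (em T.W ℂ '' (Q.sys.C (pw X m) : Set (T.W.H (pw X m)))) := by
    intro x hx
    induction hx using Submodule.span_induction with
    | mem x hx =>
      obtain ⟨a, ha, rfl⟩ := hx
      rw [iot_em]
      exact Submodule.subset_span ⟨a, ha, rfl⟩
    | zero => rw [iot_zero]; exact Submodule.zero_mem _
    | add x y _ _ hx hy => rw [iot_add]; exact Submodule.add_mem _ hx hy
    | smul r x _ hx =>
      have h2 := iot_smul (W := T.W) (L := L) r x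
      have h4 := Submodule.smul_mem (Submodule.span (baseW T.W ℂ).K
            (em T.W ℂ '' (Q.sys.C (pw X m) : Set (T.W.H (pw X m)))))
            (show (baseW T.W ℂ).K from algebraMap L ℂ r) hx
      rw [← h2] at h4
      exact h4
  exact key _ h1

lemma bc_of_iot {m j : ℕ} {c : (baseW T.W L).H (pw X m)}
    (hg : c ∈ (baseW T.W L).gr (pw X m) (2 * j))
    (h : iot c ∈ Submodule.span (baseW T.W ℂ).K
      (em T.W ℂ '' (Q.sys.C (pw X m) : Set (T.W.H (pw X m))))) :
    (bcPred L Q).P (pw X m) j c := by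
  obtain ⟨n, v, d, hd⟩ := exists_homog_basis T.W X
  refine bc_of_comp (v := v) hg fun F hF l => ?_
  have h3 := iot_PP v F
  rw [hF] at h3
  rw [h3] at h
  obtain ⟨r, hr⟩ := LinearMap.exists_leftInverse_of_injective
    (IsScalarTower.toAlgHom T.W.K L ℂ).toLinearMap
    (LinearMap.ker_eq_bot.2 (algebraMap L ℂ).injective)
  have h6 := comp_of_span (L := ℂ) h (l ∘ₗ r)
  have h7 : (fun I => (l ∘ₗ r) (mp ℂ F I)) = fun I => l (F I) := by
    funext I
    have h8 := congrArg (fun f : L →ₗ[T.W.K] L => f (F I)) hr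
    exact congrArg l h8
  rw [h7] at h6
  exact h6

end dims

end Pool.Agent.Q67.TP
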