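import Pool.Agent.Q67.TP.AConv

/-!
# De Rham-Betti classes with algebraic coefficients: final forms
-/

set_option autoImplicit false
set_option linter.unusedSectionVars false
set_option maxHeartbeats 400000

open CategoryTheory AlgebraicGeometry TensorProduct Filter Topology

universe u v w

namespace Pool.Agent.Q67.TP

open Pool.Agent.Y133.Per
open Pool.Agent.H914 Pool.Agent.H914.VarClass Pool.Agent.H914.VarClass.Obj
  Pool.Agent.H914.WeilCohomology
open Pool.Agent.Y133.Half hiding prj extOp_xp tateDim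
open Pool.Agent.Q67.Det Pool.Agent.Q67.TK
open Pool.Agent.Q67.TG Pool.Agent.Y121.AH
open scoped Matrix

variable {k : Type u} [Field k] {𝒱 : VarClass k} {ops : CycleOps 𝒱}

section kill

variable {T : HodgeTheory ops} {F : Subfield ℂ} {X Y Z : 𝒱.Obj} {D : DeRham T.W F}
  (hF : ∀ z : ℂ, z ∈ F ↔ IsAlgebraic ℚ z) (hG : Graded D)
  {n : ℕ} (v : Module.Basis (Fin n) T.W.K (T.W.H X)) {Q : ClassPred T.W}
  (hQ : ∀ {Z : 𝒱.Obj} {j : ℕ} {c : T.W.H Z}, Q.P Z j c → IsDRB D Z j c)
  {L : Type} [Field L] [Algebra T.W.K L] [Algebra L ℂ] [IsScalarTower T.W.K L ℂ]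

include hQ in
/-- **If the transcendence degree is maximal, the operators which kill `Q` kill the classes with
coefficients in `L` which are killed by the derivations.** -/
theorem kill_of_trdegG {r : ℕ} {x : Fin r → ℂ} (hx : ∀ i, x i ∈ periods D X)
    (hind : AlgebraicIndependent ℚ x)
    (hr : Module.finrank T.W.K (Ann (Cs Q.sys v)) + 1 ≤ r)
    {A : Module.End (baseW T.W L).K ((baseW T.W L).H X)} (hA : KillsW (bcPred L Q).sys X A) :
    KillsW (downP L (𝔡 hF hG)).sys X A := by
  have h1 := le_opSpan hF (killsK T) hx hind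
  have h2 : (opSpan D hF (killsK T) X).map (Phi v) = upS (annV v Q) := by
    refine Submodule.eq_of_le_of_finrank_le (opSpan_le hF hG v hQ) ?_
    rw [finrank_upS, finrank_annV, finrank_mapI (Phi_inj v)]
    omega
  refine kill_coordG' (Q := Q) v (fun M hM l G hG' => ?_) hA
  -- the matrix with complex coefficients
  have h3 : mp ℂ (unc L n M) ∈ (opSpan D hF (killsK T) X).map (Phi v) := by
    rw [h2]
    have h4 : unc L n M ∈ mpS L (annV v Q) := by
      refine mem_mpS_of fun l' => ?_
      exact ⟨M.map l', ann_map hM l', rfl⟩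
    have h5 : ∀ f ∈ mpS L (annV v Q), mp ℂ f ∈ upS (annV v Q) := by
      intro f hf
      unfold mpS at hf
      induction hf using Submodule.span_induction with
      | mem f hf =>
        obtain ⟨g, hg, rfl⟩ := hf
        have h6 : mp ℂ (mp L g) = up g := funext fun I =>
          (IsScalarTower.algebraMap_apply T.W.K L ℂ (g I)).symm
        rw [h6]
        exact up_mem hg
      | zero =>
        have h6 : mp ℂ (0 : Fin n × Fin n → L) = 0 := funext fun I => map_zero _
        rw [h6]
        exact Submodule.zero_mem _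
      | add a b _ _ ha hb =>
        have h6 : mp ℂ (a + b) = mp ℂ a + mp ℂ b := funext fun I => map_add _ _ _
        rw [h6]
        exact Submodule.add_mem _ ha hb
      | smul c a _ ha =>
        have h6 : mp ℂ (c • a) = algebraMap L ℂ c • mp ℂ a := funext fun I => map_mul _ _ _
        rw [h6]
        exact Submodule.smul_mem _ _ ha
    exact h5 _ h4
  obtain ⟨A', hA', h4⟩ := h3
  have h5 : ∀ B ∈ opSpan D hF (killsK T) X, (dM l (mB v B)) *ᵥ mp ℂ G = 0 := by
    intro B hB
    unfold opSpan at hB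
    induction hB using Submodule.span_induction with
    | mem B hB =>
      obtain ⟨δ, rfl⟩ := hB
      exact mem_Cs_down v (𝔞 := 𝔡 hF hG) hG' δ
    | zero => rw [mB_zero, dM_zero, Matrix.zero_mulVec]
    | add x y _ _ hx hy => rw [mB_add, dM_add, Matrix.add_mulVec, hx, hy, add_zero]
    | smul c x _ hx => rw [mB_smul, dM_smul, Matrix.smul_mulVec, hx, smul_zero]
  have h6 := h5 A' hA'
  have h7 : mB v A' = M.map (algebraMap L ℂ) := Matrix.ext fun i j => congrFun h4 (i, j)
  rw [h7, ← mp_dM] at h6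
  funext I
  have h9 := congrFun h6 I
  exact (map_eq_zero (algebraMap L ℂ)).1 h9

/-- a complex class of the extended theory as an element of the extended algebra -/
def toBs {W : WeilCohomology.{u, 0} ops} [Algebra W.K ℂ] (x : (baseW W ℂ).H Z) :
    Base W.K (W.H Z) := x

lemma toBs_zero {W : WeilCohomology.{u, 0} ops} [Algebra W.K ℂ] :
    toBs (0 : (baseW W ℂ).H Z) = 0 := rfl

lemma toBs_add {W : WeilCohomology.{u, 0} ops} [Algebra W.K ℂ] (x y : (baseW W ℂ).H Z) :
    toBs (x + y) = toBs x + toBs y := rfl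

omit [IsScalarTower T.W.K L ℂ] in
lemma toBs_tm {W : WeilCohomology.{u, 0} ops} [Algebra W.K ℂ] (r : ℂ) (a : W.H Z) :
    toBs (toHL (W := W) (r ⊗ₜ[W.K] a)) = tm r a := rfl

/-- The derivations of the coefficients kill the classes with algebraic coefficients. -/
lemma nab_iot (hL : ∀ l : L, IsAlgebraic ℚ (algebraMap L ℂ l)) (δ : Derivation ℚ ℂ ℂ)
    (c : (baseW T.W L).H Z) :
    nab δ (killsK T δ) (T.W.H Z) (toBs (iot c)) = 0 := by
  refine tmul_induction (P := fun c : L ⊗[T.W.K] T.W.H Z =>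
      nab δ (killsK T δ) (T.W.H Z) (toBs (iot (toHL (W := T.W) c))) = 0) ?_ ?_ ?_ c
  · have h1 : iot (toHL (W := T.W) (L := L) (X := Z) 0) = 0 := iot_zero
    rw [h1, toBs_zero, map_zero]
  · intro x y hx hy
    have h1 : iot (toHL (W := T.W) (x + y)) =
        iot (toHL (W := T.W) x) + iot (toHL (W := T.W) y) := iot_add _ _
    rw [h1, toBs_add, map_add, hx, hy, add_zero]
  · intro l a
    rw [iot_tm, toBs_tm, nab_tm, der_algebraic δ (hL l)]
    exact TensorProduct.zero_tmul _ _

lemma iot_grB {i : ℕ} {c : (baseW T.W L).H Z} (hc : c ∈ (baseW T.W L).gr Z i) :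
    toBs (iot c) ∈ grB T.W Z i := by
  refine base_induction (p := T.W.gr Z i)
    (P := fun c : L ⊗[T.W.K] T.W.H Z =>
      toBs (iot (toHL (W := T.W) c)) ∈ grB T.W Z i) ?_ ?_ ?_ hc
  · have h1 : iot (toHL (W := T.W) (L := L) (X := Z) 0) = 0 := iot_zero
    rw [h1, toBs_zero]
    exact Submodule.zero_mem _
  · intro x y hx hy
    have h1 : iot (toHL (W := T.W) (x + y)) =
        iot (toHL (W := T.W) x) + iot (toHL (W := T.W) y) := iot_add _ _
    rw [h1, toBs_add]
    exact Submodule.add_mem _ hx hy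
  · intro l a ha
    rw [iot_tm, toBs_tm]
    exact tm_grB _ ha

/-- The classes with algebraic coefficients which are killed. -/
lemma down_iff (hL : ∀ l : L, IsAlgebraic ℚ (algebraMap L ℂ l)) {j : ℕ}
    {c : (baseW T.W L).H Z} : (downP L (𝔡 hF hG)).P Z j c ↔
      c ∈ (baseW T.W L).gr Z (2 * j) ∧ twoPiI ^ j • toBs (iot c) ∈ D.dR Z := by
  constructor
  · rintro ⟨h1, h2⟩
    exact ⟨h1, (flat_iff (D := D) hF (killsK T) (iot_grB h1) fun δ => nab_iot hL δ c).1
      fun δ => h2 δ⟩
  · rintro ⟨h1, h2⟩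
    exact ⟨h1, (flat_iff (D := D) hF (killsK T) (iot_grB h1) fun δ => nab_iot hL δ c).2 h2⟩

end kill

end Pool.Agent.Q67.TP
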