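import Pool.Agent.Q67.TP.AFinal

/-!
# De Rham-Betti classes with algebraic coefficients: the results
-/

set_option autoImplicit false
set_option linter.unusedSectionVars false
set_option maxHeartbeats 400000

open CategoryTheory AlgebraicGeometry TensorProduct Filter Topology

universe u v w

namespace Pool.Agent.Q67.TP.S

open Pool.Agent.H914 Pool.Agent.H914.VarClass Pool.Agent.H914.VarClass.Obj
  Pool.Agent.H914.WeilCohomology
open Pool.Agent.Y133.Half hiding prj extOp_xp tateDim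
open Pool.Agent.Y133.Per
open Pool.Agent.Q67.Det Pool.Agent.Q67.TK
open Pool.Agent.Q67.TG
open Pool.Agent.W458.MF Pool.Agent.W536.RR Pool.Agent.H281R3.HT
open Pool.Agent.Y121 Pool.Agent.Y121.AHS
open Pool.Agent.Q67.TP

variable {k : Type u} [Field k] {𝒱 : VarClass k} {ops : CycleOps 𝒱} {S : Theory ops}
  {X Y Z : 𝒱.Obj}

lemma scalF (S : Theory ops) (r : (toH S.T).W.K) : algebraMap (toH S.T).W.K ℂ r ∈ S.F := by
  obtain ⟨q, hq⟩ := S.T.rat r
  have h1 : algebraMap (toH S.T).W.K ℂ r = (q : ℂ) := by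
    have h2 : algebraMap S.T.W.K ℂ (q : S.T.W.K) = (q : ℂ) := map_ratCast _ _
    rw [hq] at h2
    exact h2
  rw [h1]
  exact SubfieldClass.ratCast_mem S.F q

noncomputable instance algF (S : Theory ops) : Algebra (toH S.T).W.K S.F :=
  RingHom.toAlgebra ((algebraMap (toH S.T).W.K ℂ).codRestrict S.F (scalF S))

instance towF (S : Theory ops) : IsScalarTower (toH S.T).W.K S.F ℂ :=
  IsScalarTower.of_algebraMap_eq fun _ => rfl

instance towF' (S : Theory ops) : @IsScalarTower (toH S.T).W.K S.F ℂ _ _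
    (@Algebra.toSMul _ _ _ _ (toH S.T).alg) := towF S

/-- the cohomology with algebraic coefficients -/
noncomputable abbrev VF (S : Theory ops) : WeilCohomology.{u, 0} ops := baseW (toH S.T).W S.F

/-- the de Rham-Betti classes with algebraic coefficients -/
noncomputable abbrev RA (S : Theory ops) : ClassPred (VF S) := downP S.F (aa S)

/-- classes with algebraic coefficients as complex classes -/
noncomputable def ib (c : (VF S).H Z) : CH S.T Z :=
  bt (X := Z) (T := S.T) (iot (W := (toH S.T).W) (L := S.F) c)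

lemma ib_zero : ib (0 : (VF S).H Z) = 0 := iot_zero

lemma ib_add (x y : (VF S).H Z) : ib (x + y) = ib x + ib y := iot_add x y

lemma ib_tm (l : S.F) (a : (toH S.T).W.H Z) :
    ib (toHL (W := (toH S.T).W) (l ⊗ₜ[(toH S.T).W.K] a)) =
      (l : ℂ) • cx (T := S.T) (show RH S.T Z from a) := by
  have h1 := iot_tm (W := (toH S.T).W) (L := S.F) l a
  have h2 := smul_toHL (W := (toH S.T).W) (L := ℂ) (l : ℂ) 1 a
  rw [mul_one] at h2
  exact h1.trans h2.symm

/-! ### The classes with algebraic coefficients -/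

lemma combIn_zero {i : ℕ} : CombIn S.F cx (RDeg (T := S.T) (X := Z) i) (0 : CH S.T Z) :=
  ⟨0, Fin.elim0, Fin.elim0, fun i => i.elim0, by rw [comb, Finset.univ_eq_empty,
    Finset.sum_empty]⟩

lemma combIn_add {i : ℕ} {x y : CH S.T Z} (hx : CombIn S.F cx (RDeg (T := S.T) i) x)
    (hy : CombIn S.F cx (RDeg (T := S.T) i) y) :
    CombIn S.F cx (RDeg (T := S.T) i) (x + y) := by
  obtain ⟨r, c, a, h, rfl⟩ := hx
  obtain ⟨r', c', a', h', rfl⟩ := hy
  refine ⟨r + r', Fin.append c c', Fin.append a a', fun k => ?_, ?_⟩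
  · refine Fin.addCases (fun k => ?_) (fun k => ?_) k
    · rw [Fin.append_left, Fin.append_left]; exact h k
    · rw [Fin.append_right, Fin.append_right]; exact h' k
  · rw [comb, comb, comb, Fin.sum_univ_add]
    simp only [Fin.append_left, Fin.append_right]

lemma combIn_one {i : ℕ} (l : S.F) {a : RH S.T Z} (ha : RDeg i a) :
    CombIn S.F cx (RDeg (T := S.T) i) ((l : ℂ) • cx a) :=
  ⟨1, fun _ => l, fun _ => a, fun _ => ⟨l.2, ha⟩, by
    rw [comb, Fin.sum_univ_one]⟩

lemma combIn_ib {i : ℕ} {c : (VF S).H Z} (hc : c ∈ (VF S).gr Z i) :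
    CombIn S.F cx (RDeg (T := S.T) i) (ib c) := by
  refine base_induction (p := (toH S.T).W.gr Z i)
    (P := fun c : S.F ⊗[(toH S.T).W.K] (toH S.T).W.H Z =>
      CombIn S.F cx (RDeg (T := S.T) i) (ib (toHL (W := (toH S.T).W) c))) ?_ ?_ ?_ hc
  · have h1 : ib (toHL (W := (toH S.T).W) (L := S.F) (X := Z) 0) = 0 := ib_zero
    rw [h1]
    exact combIn_zero
  · intro x y hx hy
    have h1 : ib (toHL (W := (toH S.T).W) (x + y)) = ib (toHL (W := (toH S.T).W) x) +
        ib (toHL (W := (toH S.T).W) y) := ib_add _ _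
    rw [h1]
    exact combIn_add hx hy
  · intro l a ha
    rw [ib_tm]
    exact combIn_one l (a := (show RH S.T Z from a)) ha

lemma ib_of_combIn {i : ℕ} {x : CH S.T Z} (hx : CombIn S.F cx (RDeg (T := S.T) i) x) :
    ∃ c ∈ (VF S).gr Z i, ib c = x := by
  obtain ⟨r, c, a, h, rfl⟩ := hx
  have key : ∀ s : Finset (Fin r), ∃ c' ∈ (VF S).gr Z i, ib c' = ∑ k ∈ s, c k • cx (a k) := by
    classical
    intro s
    induction s using Finset.induction_on with
    | empty => exact ⟨0, Submodule.zero_mem _, by rw [Finset.sum_empty]; exact ib_zero⟩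
    | insert k s hk ih =>
      obtain ⟨c', hc', h1⟩ := ih
      refine ⟨toHL (W := (toH S.T).W) ((⟨c k, (h k).1⟩ : S.F) ⊗ₜ[(toH S.T).W.K]
        (show (toH S.T).W.H Z from a k)) + c', Submodule.add_mem _ ?_ hc', ?_⟩
      · exact Submodule.tmul_mem_baseChange_of_mem _ (h k).2
      · rw [ib_add, ib_tm, h1, Finset.sum_insert hk]
  exact key Finset.univ

lemma RA_iff {j : ℕ} {c : (VF S).H Z} : (RA S).P Z j c ↔
    c ∈ (VF S).gr Z (2 * j) ∧ scale (twoPiI ^ j) (ib c) ∈ S.D Z :=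
  down_iff (T := toH S.T) (D := DD S) S.algebraic (graded_S S) (L := S.F)
    (fun l => (S.algebraic _).1 l.2)

lemma drbA_eq (Z : 𝒱.Obj) : drbA S Z = ib '' {c : (VF S).H Z | ∃ j, (RA S).P Z j c} := by
  ext x
  constructor
  · rintro ⟨j, h1, h2⟩
    obtain ⟨c, hc, rfl⟩ := ib_of_combIn h1
    exact ⟨c, ⟨j, RA_iff.2 ⟨hc, h2⟩⟩, rfl⟩
  · rintro ⟨c, ⟨j, hj⟩, rfl⟩
    have h1 := RA_iff.1 hj
    exact ⟨j, combIn_ib h1.1, h1.2⟩

lemma dimA_eq (X : 𝒱.Obj) (n : ℕ) : dimA S X n = dimBy (VF S) (RA S).P (pw X n) := by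
  obtain ⟨r, v, d, hd⟩ := exists_homog_basis (toH S.T).W X
  rw [dimA, drbA_eq]
  exact finrank_iot v (RA S) n

section law

variable {C : Classes S.T} {Q : ClassPred (toH S.T).W}

lemma em_span (hC : Rp C Q) {a : (toH S.T).W.H Z} (ha : a ∈ Q.sys.C Z) :
    cx (T := S.T) (show RH S.T Z from a) ∈ Submodule.span ℂ (cx (T := S.T) '' C Z) := by
  have h1 : (show RH S.T Z from a) ∈ Submodule.span (Co S.T) (C Z) := hC.span_iff.2 ha
  have key : ∀ x ∈ Submodule.span (Co S.T) (C Z), cx x ∈ Submodule.span ℂ (cx (T := S.T) '' C Z) := by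
    intro x hx
    induction hx using Submodule.span_induction with
    | mem x hx => exact Submodule.subset_span ⟨x, hx, rfl⟩
    | zero =>
      have h2 : cx (0 : RH S.T Z) = 0 := AH.em_zero (W := (toH S.T).W) (L := ℂ)
      rw [h2]; exact Submodule.zero_mem _
    | add x y _ _ hx hy =>
      have h2 : cx (x + y) = cx x + cx y := AH.em_add (W := (toH S.T).W) (L := ℂ) x y
      rw [h2]; exact Submodule.add_mem _ hx hy
    | smul r x _ hx =>
      have h2 : cx (r • x) = (algebraMap (toH S.T).W.K ℂ r) • cx x :=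
        AH.em_smul (W := (toH S.T).W) (L := ℂ) r x
      rw [h2]; exact Submodule.smul_mem _ _ hx
  exact key _ h1

lemma em_of_span (hC : Rp C Q) {x : CH S.T Z} (hx : x ∈ Submodule.span ℂ (cx (T := S.T) '' C Z)) :
    (show (baseW (toH S.T).W ℂ).H Z from x) ∈ Submodule.span (baseW (toH S.T).W ℂ).K
      (AH.em (toH S.T).W ℂ '' (Q.sys.C Z : Set ((toH S.T).W.H Z))) := by
  induction hx using Submodule.span_induction with
  | mem x hx =>
    obtain ⟨a, ha, rfl⟩ := hx
    refine Submodule.subset_span ⟨cc a, ?_, rfl⟩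
    exact hC.span_iff.1 (Submodule.subset_span ha)
  | zero => exact Submodule.zero_mem _
  | add x y _ _ hx hy => exact Submodule.add_mem _ hx hy
  | smul r x _ hx => exact Submodule.smul_mem _ (show (baseW (toH S.T).W ℂ).K from r) hx

lemma span_of_em (hC : Rp C Q) {x : (baseW (toH S.T).W ℂ).H Z}
    (hx : x ∈ Submodule.span (baseW (toH S.T).W ℂ).K
      (AH.em (toH S.T).W ℂ '' (Q.sys.C Z : Set ((toH S.T).W.H Z)))) :
    (show CH S.T Z from x) ∈ Submodule.span ℂ (cx (T := S.T) '' C Z) := by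
  induction hx using Submodule.span_induction with
  | mem x hx =>
    obtain ⟨a, ha, rfl⟩ := hx
    exact em_span hC ha
  | zero => exact Submodule.zero_mem _
  | add x y _ _ hx hy => exact Submodule.add_mem _ hx hy
  | smul r x _ hx => exact Submodule.smul_mem _ (show ℂ from r) hx

lemma inA_iff (hC : Rp C Q) {m : ℕ} : InA S C (pw X m) ↔
    ∀ j c, (RA S).P (pw X m) j c → (bcPred S.F Q).P (pw X m) j c := by
  constructor
  · intro h j c hc
    refine bc_of_iot (RA_iff.1 hc).1 ?_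
    have h1 : ib c ∈ drbA S (pw X m) := by
      rw [drbA_eq]
      exact ⟨c, ⟨j, hc⟩, rfl⟩
    exact em_of_span hC (h _ h1)
  · intro h x hx
    rw [drbA_eq] at hx
    obtain ⟨c, ⟨j, hc⟩, rfl⟩ := hx
    exact span_of_em hC (iot_of_bc (h j c hc))

lemma RA_of {j : ℕ} {c : (VV S.T).H Z} (h : (drbPred (DD S)).P Z j c) :
    (RA S).P Z j (AH.em (toH S.T).W S.F c) :=
  ⟨AH.em_gr h.1, fun a => by
    have h1 := iot_em (W := (toH S.T).W) (L := S.F) c
    refine (congrArg ((aa S).op a Z) h1).trans ?_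
    exact drb_killed S.algebraic (graded_S S) h a⟩

/-- **The law for the de Rham-Betti classes with algebraic coefficients.** -/
theorem lawA_of (hC : Rp C Q) (hQ : ∀ {Z : 𝒱.Obj} {j : ℕ} {c : (VV S.T).H Z}, Q.P Z j c →
      (drbPred (DD S)).P Z j c) (P : PolData (toH S.T) Q.sys X) [Nontrivial ((VV S.T).H X)] :
    ∃ N, LawA S C X N ∧ (N ≠ ⊤ ↔ ∀ A : Module.End (VF S).K ((VF S).H X),
        KillsW (bcPred S.F Q).sys X A → KillsW (RA S).sys X A) := by
  have hle : ∀ {Z : 𝒱.Obj} {j : ℕ} {c : (VF S).H Z}, (bcPred S.F Q).P Z j c → (RA S).P Z j c := by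
    intro Z j c hc
    exact bcPred_le (R := RA S) (fun h => RA_of (hQ h)) hc
  obtain ⟨N, h1, h2, h3, h4, -, h6⟩ := masterG (R := RA S) hle P
  have e1 : (fun n => dimBy (VF S) (RA S).P (pw X n)) = dimA S X :=
    funext fun n => (dimA_eq X n).symm
  have e2 : (fun n => dimBy (VV S.T) Q.P (pw X n)) = dimOn C X :=
    funext fun n => (hC.dim_eq X n).symm
  rw [e1, e2] at h2 h4
  exact ⟨N, ⟨h1, h2, h3.trans (forall_congr' fun n => (inA_iff hC).symm), h4⟩, h6⟩

/-- If the transcendence degree is maximal, the operators kill the de Rham-Betti classes with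
algebraic coefficients. -/
theorem killA_of_trdeg (hC : Rp C Q) (hQ : ∀ {Z : 𝒱.Obj} {j : ℕ} {c : (toH S.T).W.H Z},
      Q.P Z j c → IsDRB (DD S) Z j c) (h : trdegOf (periods S X) = (lieDim C X + 1 : ℕ))
    (A : Module.End (VF S).K ((VF S).H X)) (hA : KillsW (bcPred S.F Q).sys X A) :
    KillsW (RA S).sys X A := by
  obtain ⟨n, v, d, hd⟩ := exists_homog_basis (toH S.T).W X
  rw [hC.lieDim_eq v] at h
  obtain ⟨x, hx, hind⟩ := (trdeg_le_of fun r x hx hind =>
    trdeg_le_ann (D := DD S) S.algebraic (graded_S S) v hQ hx hind).2 h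
  exact kill_of_trdegG (D := DD S) S.algebraic (graded_S S) v hQ hx hind le_rfl hA

/-- **The de Rham-Betti classes with algebraic coefficients over a system.** -/
theorem algebraic_law (S : Theory ops) (X : 𝒱.Obj) [Nontrivial (RH S.T X)] (C : Classes S.T)
    (hC : IsSystem S C) (u : ROp S.T X) (hu : PolarisedBy C X u) (ho : OddIn C X) :
    ∃ N : ℕ∞, LawA S C X N ∧ (trdegOf (periods S X) = (lieDim C X + 1 : ℕ) → N ≠ ⊤) ∧
      (N ≠ ⊤ → ∀ n, InA S (hodge S.T) (pw X n)) := by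
  have hnt : Nontrivial ((VV S.T).H X) := ‹Nontrivial (RH S.T X)›
  obtain ⟨N, hN, hk⟩ := lawA_of (X := X) (rp_sys hC) (fun h => sys_drb hC h) (polC hC hu ho)
  refine ⟨N, hN, fun h => hk.2 (killA_of_trdeg (rp_sys hC) (fun h => sys_drb hC h) h),
    fun h n => (inA_iff (ex_hodge (S := S)).rp).2 fun j c hc => ?_⟩
  exact le_of_closedG (Q := sysOf hC) (closed_hodge X) (fun h => sys_hodge hC h) (hk.1 h) hc

/-- **The zero-one law for the de Rham-Betti classes with algebraic coefficients.** -/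
theorem algebraic_zero_one (S : Theory ops) (X : 𝒱.Obj) [Nontrivial (RH S.T X)] (u : ROp S.T X)
    (hu : PolarisedBy (meet (hodge S.T) (drb S)) X u) :
    ∃ N : ℕ∞, LawA S (meet (hodge S.T) (drb S)) X N ∧ (N = 1 ∨ N = ⊤) ∧
      (trdegOf (periods S X) = (lieDim (meet (hodge S.T) (drb S)) X + 1 : ℕ) → N = 1) := by
  have hnt : Nontrivial ((VV S.T).H X) := ‹Nontrivial (RH S.T X)›
  obtain ⟨N, hN, hk⟩ := lawA_of (X := X) (ex_both (S := S)).rp (fun h => both_drb h) (polB hu)
  have h1 : N ≠ ⊤ → N = 1 := fun h => hN.one.2 fun n =>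
    (inA_iff (ex_both (S := S)).rp).2 fun j c hc =>
      le_of_closedG (Q := Bp S) (closed_both (aa S) X) (fun h => h) (hk.1 h) hc
  refine ⟨N, hN, ?_, fun h => h1 (hk.2 (killA_of_trdeg (ex_both (S := S)).rp
    (fun h => both_drb h) h))⟩
  by_cases h5 : N = ⊤
  · exact Or.inr h5
  · exact Or.inl (h1 h5)

end law

end Pool.Agent.Q67.TP.S
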