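import Pool.Agent.Q67.TP.Conn
import Pool.Agent.Q67.TL.ZO2

/-!
# The action of the derivations of the complex numbers on the cohomology
-/

set_option autoImplicit false
set_option linter.unusedSectionVars false

open CategoryTheory AlgebraicGeometry

open scoped TensorProduct

universe u v

namespace Pool.Agent.Q67.TP

open Module Pool.Agent.Y133.Per
open Pool.Agent.H914 Pool.Agent.H914.VarClass Pool.Agent.H914.VarClass.Obj
  Pool.Agent.H914.WeilCohomology
open Pool.Agent.Q67.TG Pool.Agent.Y121.AH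

variable {k : Type u} [Field k] {𝒱 : VarClass k} {ops : CycleOps 𝒱}
  {W : WeilCohomology.{u, 0} ops} [Algebra W.K ℂ] {F : Subfield ℂ} {X Y Z : 𝒱.Obj}

/-- A basis of the de Rham cohomology. -/
lemma exists_dR_basis (D : DeRham W F) (X : 𝒱.Obj) :
    ∃ (s : Set (Base W.K (W.H X))) (_ : Fintype s) (e : Basis s ℂ (Base W.K (W.H X))),
      (∀ i, e i ∈ D.dR X) ∧ ∀ u ∈ D.dR X, ∀ i, e.repr u i ∈ F := by
  have h0 : twoPiI ^ X.dim ≠ 0 := pow_ne_zero _ twoPiI_ne
  let B : Base W.K (W.H X) →ₗ[ℂ] Base W.K (W.H X) →ₗ[ℂ] ℂ :=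
    (twoPiI ^ X.dim)⁻¹ • ((LinearMap.mul ℂ (Base W.K (W.H X))).compr₂ (baseTr (W.tr X)))
  have hBe : ∀ v w, B v w = (twoPiI ^ X.dim)⁻¹ * baseTr (W.tr X) (v * w) := fun v w => rfl
  have key : ∀ v w r, baseTr (W.tr X) (v * w) = twoPiI ^ X.dim * r → B v w = r := by
    intro v w r h
    rw [hBe, h, ← mul_assoc, inv_mul_cancel₀ h0, one_mul]
  refine exists_form_basis (dRSub D X) (D.form X).span B ?_ ?_
  · intro v hv
    apply baseTr_nondeg _ (Pool.Agent.Y133.Half.exists_dual_class W)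
    intro b
    have h1 := hv b
    rw [hBe] at h1
    exact (mul_eq_zero.1 h1).resolve_left (inv_ne_zero h0)
  · intro v hv w hw
    obtain ⟨r, hr, h⟩ := (D.form X).tr _ ((D.form X).mul v hv w hw)
    rw [key v w r h]
    exact hr

section conn

variable (D : DeRham W F) (hF : ∀ z : ℂ, z ∈ F ↔ IsAlgebraic ℚ z) {δ : Derivation ℚ ℂ ℂ}
  (h : KillsK W.K δ)

include hF in
lemma exists_conn (X : 𝒱.Obj) : ∃ A : Module.End ℂ (Base W.K (W.H X)),
    ∀ u ∈ D.dR X, A u = -nab δ h (W.H X) u := by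
  obtain ⟨s, _, e, he, heF⟩ := exists_dR_basis D X
  refine ⟨e.constr ℂ fun i => -nab δ h (W.H X) (e i), fun u hu => ?_⟩
  have h1 : u = ∑ i, e.repr u i • e i := (e.sum_repr u).symm
  conv_lhs => rw [h1]
  conv_rhs => rw [h1]
  rw [map_sum, map_sum, ← Finset.sum_neg_distrib]
  refine Finset.sum_congr rfl fun i _ => ?_
  rw [map_smul, Basis.constr_basis, nab_smul, der_algebraic δ ((hF _).1 (heF u hu i)), zero_smul,
    zero_add, smul_neg]

/-- The operator on the cohomology with complex coefficients given by a derivation. -/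
noncomputable def conn (X : 𝒱.Obj) : Module.End ℂ (Base W.K (W.H X)) :=
  Classical.choose (exists_conn D hF h X)

lemma conn_dR {u : Base W.K (W.H X)} (hu : u ∈ D.dR X) :
    conn D hF h X u = -nab δ h (W.H X) u :=
  Classical.choose_spec (exists_conn D hF h X) u hu

variable {D}

/-- Induction. -/
lemma dR_ind {p : Base W.K (W.H X) → Prop} (h0 : p 0)
    (h1 : ∀ (r : ℂ), ∀ u ∈ D.dR X, p (r • u)) (h2 : ∀ a b, p a → p b → p (a + b))
    (v : Base W.K (W.H X)) : p v := by
  have h3 : v ∈ Submodule.span ℂ (D.dR X) := by rw [(D.form X).span]; trivial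
  have h4 : ∀ v ∈ Submodule.span ℂ (D.dR X), p v := by
    intro v hv
    obtain ⟨c, hc⟩ := (Finsupp.mem_span_iff_linearCombination ℂ _ _).1 hv
    rw [← hc, Finsupp.linearCombination_apply, Finsupp.sum]
    exact Finset.sum_induction _ p h2 h0 fun i _ => h1 _ _ i.2
  exact h4 v h3

include hF in
/-- The elements on which the operator is minus the derivation of the coefficients. -/
lemma mem_dR_of_conn (hD : ∀ δ : Derivation ℚ ℂ ℂ, KillsK W.K δ) {w : Base W.K (W.H X)}
    (hw : ∀ δ, conn D hF (hD δ) X w = -nab δ (hD δ) (W.H X) w) : w ∈ D.dR X := by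
  obtain ⟨s, _, e, he, heF⟩ := exists_dR_basis D X
  have h1 : w = ∑ i, e.repr w i • e i := (e.sum_repr w).symm
  have h2 : ∀ i, e.repr w i ∈ F := by
    intro i
    rw [hF]
    refine algebraic_of_der fun δ => ?_
    have h3 := hw δ
    rw [h1, map_sum, map_sum, ← Finset.sum_neg_distrib] at h3
    have h4 : ∑ i, δ (e.repr w i) • e i = 0 := by
      have h5 : ∀ i, conn D hF (hD δ) X (e.repr w i • e i) =
          -(e.repr w i • nab δ (hD δ) (W.H X) (e i)) := by
        intro i
        rw [map_smul, conn_dR D hF (hD δ) (he i), smul_neg]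
      rw [Finset.sum_congr rfl fun i _ => h5 i] at h3
      have h6 : ∀ i, -nab δ (hD δ) (W.H X) (e.repr w i • e i) =
          -(δ (e.repr w i) • e i) + -(e.repr w i • nab δ (hD δ) (W.H X) (e i)) := by
        intro i
        rw [nab_smul, neg_add]
      rw [Finset.sum_congr rfl fun i _ => h6 i, Finset.sum_add_distrib] at h3
      have h7 := right_eq_add.1 h3
      rw [Finset.sum_neg_distrib, neg_eq_zero] at h7
      exact h7
    exact Fintype.linearIndependent_iff.1 e.linearIndependent _ h4 i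
  rw [h1]
  exact Submodule.sum_mem (dRSub D X) fun i _ => (dRSub D X).smul_mem ⟨_, h2 i⟩ (he i)

end conn

/-! ### The homogeneous elements -/

/-- the homogeneous component -/
noncomputable def cpt (W : WeilCohomology.{u, 0} ops) [Algebra W.K ℂ] (X : 𝒱.Obj) (i : ℕ) :
    Module.End ℂ (Base W.K (W.H X)) :=
  proj ((baseW W ℂ).isInternal X) i

/-- the homogeneous elements -/
noncomputable def grB (W : WeilCohomology.{u, 0} ops) [Algebra W.K ℂ] (X : 𝒱.Obj) (i : ℕ) :
    Submodule ℂ (Base W.K (W.H X)) := (baseW W ℂ).gr X i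

lemma grB_ind {i : ℕ} {p : Base W.K (W.H X) → Prop} (h0 : p 0)
    (h1 : ∀ (r : ℂ), ∀ c ∈ W.gr X i, p (tm r c)) (h2 : ∀ a b, p a → p b → p (a + b))
    {v : Base W.K (W.H X)} (hv : v ∈ grB W X i) : p v :=
  base_induction (p := W.gr X i) (P := p) h0 h2 h1 hv

lemma tm_grB {i : ℕ} (r : ℂ) {c : W.H X} (hc : c ∈ W.gr X i) :
    (tm r c : Base W.K (W.H X)) ∈ grB W X i := by
  have h1 : (tm r c : Base W.K (W.H X)) = r • tm (1 : ℂ) c := by rw [smul_tm, mul_one]
  rw [h1]
  exact Submodule.smul_mem _ _ (Submodule.tmul_mem_baseChange_of_mem (1 : ℂ) hc)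

lemma nab_grB {δ : Derivation ℚ ℂ ℂ} {h : KillsK W.K δ} {i : ℕ} {v : Base W.K (W.H X)}
    (hv : v ∈ grB W X i) : nab δ h (W.H X) v ∈ grB W X i := by
  refine grB_ind (p := fun v => nab δ h (W.H X) v ∈ grB W X i) ?_ ?_ ?_ hv
  · rw [map_zero]; exact Submodule.zero_mem _
  · intro r c hc
    rw [nab_tm]
    exact tm_grB _ hc
  · intro a b ha hb
    rw [map_add]
    exact Submodule.add_mem _ ha hb

lemma cpt_same {i : ℕ} {v : Base W.K (W.H X)} (hv : v ∈ grB W X i) : cpt W X i v = v :=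
  proj_same ((baseW W ℂ).isInternal X) hv

lemma cpt_ne {i j : ℕ} {v : Base W.K (W.H X)} (hv : v ∈ grB W X j) (hij : j ≠ i) :
    cpt W X i v = 0 := proj_ne ((baseW W ℂ).isInternal X) hv hij

lemma cpt_mem (i : ℕ) (v : Base W.K (W.H X)) : cpt W X i v ∈ grB W X i :=
  proj_mem ((baseW W ℂ).isInternal X) i v

/-- The de Rham cohomology is graded. -/
def Graded (D : DeRham W F) : Prop := ∀ (X : 𝒱.Obj) (i : ℕ), ∀ a ∈ D.dR X, cpt W X i a ∈ D.dR X

section deg

/-- half of the degree -/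
noncomputable def halfDeg (W : WeilCohomology.{u, 0} ops) [Algebra W.K ℂ] (X : 𝒱.Obj) :
    Module.End ℂ (Base W.K (W.H X)) :=
  ∑ i ∈ Finset.range (2 * X.dim + 1), ((i : ℂ) / 2) • cpt W X i

lemma halfDeg_apply {i : ℕ} {v : Base W.K (W.H X)} (hv : v ∈ grB W X i) :
    halfDeg W X v = ((i : ℂ) / 2) • v := by
  rw [halfDeg, LinearMap.sum_apply]
  by_cases hi : i ∈ Finset.range (2 * X.dim + 1)
  · rw [Finset.sum_eq_single_of_mem i hi]
    · rw [LinearMap.smul_apply, cpt_same hv]
    · intro j _ hj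
      rw [LinearMap.smul_apply, cpt_ne hv hj.symm, smul_zero]
  · have h1 : v = 0 := by
      have h2 : (baseW W ℂ).gr X i = ⊥ := (baseW W ℂ).gr_eq_bot X i (by
        rw [Finset.mem_range] at hi; omega)
      have h3 : v ∈ (baseW W ℂ).gr X i := hv
      rw [h2] at h3
      exact h3
    rw [h1, smul_zero]
    exact Finset.sum_eq_zero fun j _ => map_zero _

end deg

end Pool.Agent.Q67.TP
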