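import Pool.Agent.Q67.TP.RatL

/-!
# Classes with coefficients in an intermediate field which are killed by a Lie algebra
-/

set_option autoImplicit false
set_option linter.unusedSectionVars false

open CategoryTheory AlgebraicGeometry

open scoped TensorProduct

universe u v w

namespace Pool.Agent.Q67.TP

open Pool.Agent.Y133.Per
open Pool.Agent.H914 Pool.Agent.H914.VarClass Pool.Agent.H914.VarClass.Obj
  Pool.Agent.H914.WeilCohomology
open Pool.Agent.Y133.Half hiding prj extOp_xp tateDim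
open Pool.Agent.Q67.Det Pool.Agent.Q67.TK
open Pool.Agent.Q67.TG Pool.Agent.Y121.AH
open scoped Matrix

variable {k : Type u} [Field k] {𝒱 : VarClass k} {ops : CycleOps 𝒱}

section iota

variable {W : WeilCohomology.{u, 0} ops} {L : Type} [Field L] [Algebra W.K L] [Algebra W.K ℂ]
  [Algebra L ℂ] [IsScalarTower W.K L ℂ] {X Y Z : 𝒱.Obj}

/-- The extension of the coefficients. -/
noncomputable def iot0 (K L A : Type) [Field K] [Field L] [Algebra K L] [Algebra K ℂ]
    [Algebra L ℂ] [IsScalarTower K L ℂ] [Ring A] [Algebra K A] : L ⊗[K] A →ₐ[K] ℂ ⊗[K] A :=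
  Algebra.TensorProduct.map (IsScalarTower.toAlgHom K L ℂ) (AlgHom.id K A)

lemma iot0_tmul {K L A : Type} [Field K] [Field L] [Algebra K L] [Algebra K ℂ]
    [Algebra L ℂ] [IsScalarTower K L ℂ] [Ring A] [Algebra K A] (l : L) (a : A) :
    iot0 K L A (l ⊗ₜ a) = (algebraMap L ℂ l) ⊗ₜ a := by
  rw [iot0, Algebra.TensorProduct.map_tmul]
  rfl

/-- The extension of the coefficients from `L` to the complex numbers. -/
noncomputable def iot (x : (baseW W L).H X) : (baseW W ℂ).H X := iot0 W.K L (W.H X) x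

lemma iot_zero : iot (0 : (baseW W L).H X) = 0 := map_zero (iot0 W.K L (W.H X))

lemma iot_add (x y : (baseW W L).H X) : iot (x + y) = iot x + iot y :=
  map_add (iot0 W.K L (W.H X)) x y

lemma iot_mul (x y : (baseW W L).H X) : iot (x * y) = iot x * iot y :=
  map_mul (iot0 W.K L (W.H X)) x y

lemma iot_tm (l : L) (a : W.H X) :
    iot (toHL (l ⊗ₜ[W.K] a)) = toHL ((algebraMap L ℂ l) ⊗ₜ[W.K] a) := iot0_tmul l a

lemma iot_em (c : W.H X) : iot (em W L c) = em W ℂ c := by
  have h1 := iot_tm (W := W) (L := L) (1 : L) c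
  rw [map_one] at h1
  exact h1

lemma smul_toHL {L : Type} [Field L] [Algebra W.K L] (l r : L) (a : W.H X) :
    (show (baseW W L).K from l) • toHL (r ⊗ₜ[W.K] a) = toHL ((l * r) ⊗ₜ[W.K] a) :=
  TensorProduct.smul_tmul' l r a

lemma iot_smul (l : L) (x : (baseW W L).H X) :
    iot ((show (baseW W L).K from l) • x) =
      (show (baseW W ℂ).K from algebraMap L ℂ l) • iot x := by
  refine tmul_induction (P := fun x : L ⊗[W.K] W.H X => iot ((show (baseW W L).K from l) • toHL x) =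
      (show (baseW W ℂ).K from algebraMap L ℂ l) • iot (toHL x)) ?_ ?_ ?_ x
  · have h3 : toHL (0 : L ⊗[W.K] W.H X) = 0 := rfl
    rw [h3, smul_zero, iot_zero, smul_zero]
  · intro x y hx hy
    have h1 : toHL (x + y) = toHL x + toHL y := rfl
    rw [h1, smul_add, iot_add, iot_add, smul_add, hx, hy]
  · intro r a
    have h2 := smul_toHL (W := W) (L := ℂ) (algebraMap L ℂ l) (algebraMap L ℂ r) a
    rw [smul_toHL, iot_tm, iot_tm, h2, map_mul]

lemma iot_map (f : X ⟶ Y) (x : (baseW W L).H Y) :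
    iot ((baseW W L).map f x) = (baseW W ℂ).map f (iot x) := by
  refine tmul_induction (P := fun x : L ⊗[W.K] W.H Y => iot ((baseW W L).map f (toHL x)) =
      (baseW W ℂ).map f (iot (toHL x))) ?_ ?_ ?_ x
  · have h2 : iot (toHL (0 : L ⊗[W.K] W.H Y)) = 0 := iot_zero
    have h3 : toHL (0 : L ⊗[W.K] W.H Y) = 0 := rfl
    rw [h2, h3, map_zero, map_zero, iot_zero]
  · intro x y hx hy
    have h1 : toHL (x + y) = toHL x + toHL y := rfl
    rw [h1, map_add, iot_add, iot_add, map_add, hx, hy]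
  · intro r a
    have h1 : (baseW W L).map f (toHL (r ⊗ₜ[W.K] a)) = toHL (r ⊗ₜ[W.K] (W.map f a)) :=
      Algebra.TensorProduct.map_tmul _ _ _ _
    have h2 : (baseW W ℂ).map f (toHL ((algebraMap L ℂ r) ⊗ₜ[W.K] a)) =
        toHL ((algebraMap L ℂ r) ⊗ₜ[W.K] (W.map f a)) := Algebra.TensorProduct.map_tmul _ _ _ _
    rw [h1, iot_tm, iot_tm, h2]

lemma iot_push (f : X ⟶ Y) (x : (baseW W L).H X) :
    iot ((baseW W L).push f x) = (baseW W ℂ).push f (iot x) := by
  refine tmul_induction (P := fun x : L ⊗[W.K] W.H X => iot ((baseW W L).push f (toHL x)) =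
      (baseW W ℂ).push f (iot (toHL x))) ?_ ?_ ?_ x
  · have h2 : iot (toHL (0 : L ⊗[W.K] W.H X)) = 0 := iot_zero
    have h3 : toHL (0 : L ⊗[W.K] W.H X) = 0 := rfl
    rw [h2, h3, map_zero, map_zero, iot_zero]
  · intro x y hx hy
    have h1 : toHL (x + y) = toHL x + toHL y := rfl
    rw [h1, map_add, iot_add, iot_add, map_add, hx, hy]
  · intro r a
    have h1 : (baseW W L).push f (toHL (r ⊗ₜ[W.K] a)) = toHL (r ⊗ₜ[W.K] (W.push f a)) :=
      LinearMap.baseChange_tmul _ _ _
    have h2 : (baseW W ℂ).push f (toHL ((algebraMap L ℂ r) ⊗ₜ[W.K] a)) =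
        toHL ((algebraMap L ℂ r) ⊗ₜ[W.K] (W.push f a)) := LinearMap.baseChange_tmul _ _ _
    rw [h1, iot_tm, iot_tm, h2]

/-- **The classes with coefficients in `L` which are killed by the operators.** -/
noncomputable def downP (L : Type) [Field L] [Algebra W.K L] [Algebra L ℂ]
    [IsScalarTower W.K L ℂ] (𝔞 : LieAct.{u, 0, w} (baseW W ℂ)) : ClassPred (baseW W L) where
  P X j c := c ∈ (baseW W L).gr X (2 * j) ∧ ∀ a, 𝔞.op a X (iot c) = 0
  gr h := h.1
  zero := ⟨Submodule.zero_mem _, fun a => by rw [iot_zero, map_zero]⟩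
  add ha hb := ⟨Submodule.add_mem _ ha.1 hb.1, fun a => by
    rw [iot_add, map_add, ha.2, hb.2, add_zero]⟩
  smul r _ h := ⟨Submodule.smul_mem _ _ h.1, fun a => by
    have h1 := iot_smul (W := W) (L := L) r ‹_›
    refine (congrArg (𝔞.op a _) h1).trans ?_
    rw [map_smul, h.2, smul_zero]⟩
  cl {X j z} hz := ⟨(baseW W L).cl_mem hz, fun a => by
    rw [em_cl, iot_em, ← em_cl]
    exact 𝔞.cl a hz⟩
  mul ha hb := ⟨by rw [mul_add]; exact (baseW W L).mul_mem ha.1 hb.1, fun a => by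
    rw [iot_mul, 𝔞.mul, ha.2, hb.2, zero_mul, mul_zero, add_zero]⟩
  map f _ _ h := ⟨(baseW W L).map_mem f h.1, fun a => by rw [iot_map, 𝔞.map, h.2, map_zero]⟩
  push {X Y} f {j l} hl {a} h := ⟨push_gr f hl h.1, fun a => by
    rw [iot_push, 𝔞.push, h.2, map_zero]⟩

section Coord

variable {n : ℕ} (v : Module.Basis (Fin n) W.K (W.H X))

lemma iot_sum {ι : Type*} (s : Finset ι) (f : ι → (baseW W L).H X) :
    iot (∑ i ∈ s, f i) = ∑ i ∈ s, iot (f i) := by
  classical
  induction s using Finset.induction_on with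
  | empty => simp [iot_zero]
  | insert a s ha ih => rw [Finset.sum_insert ha, Finset.sum_insert ha, iot_add, ih]

lemma iot_PP {m : ℕ} (F : (Fin (m + 1) → Fin n) → L) :
    iot (PP (W := baseW W L) (vL L v) (Det.prj X m) F) =
      PP (W := baseW W ℂ) (vL ℂ v) (Det.prj X m) (mp ℂ F) := by
  refine (congrArg iot (PP_prj (W := baseW W L) (v := vL L v) F)).trans ?_
  refine Eq.trans ?_ (PP_prj (W := baseW W ℂ) (v := vL ℂ v) (mp ℂ F)).symm
  refine (iot_sum _ _).trans ?_
  refine Finset.sum_congr rfl fun I _ => ?_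
  have h1 := iot_smul (W := W) (F I) (ten (baseW W L) X m fun k => vL L v (I k))
  refine h1.trans ?_
  have h2 : ten (baseW W L) X m (fun k => vL L v (I k)) =
      em W L (ten W X m fun k => v (I k)) := by
    rw [em_tenL]
    simp only [vL_apply]
  have h3 : ten (baseW W ℂ) X m (fun k => vL ℂ v (I k)) =
      em W ℂ (ten W X m fun k => v (I k)) := by
    rw [em_tenL]
    simp only [vL_apply]
  rw [h2, h3, iot_em]
  rfl

variable {𝔞 : LieAct.{u, 0, w} (baseW W ℂ)}

/-- The tensors of the classes with coefficients in `L`. -/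
lemma mem_Cs_down {l : ℕ} {G : (Fin l → Fin n) → L}
    (hG : (show (Fin l → Fin n) → (baseW W L).K from G) ∈ Cs (downP L 𝔞).sys (vL L v) l)
    (a : 𝔞.ι) : (dM l (show Matrix (Fin n) (Fin n) ℂ from mt (vL ℂ v) (𝔞.op a X))) *ᵥ mp ℂ G = 0 := by
  cases l with
  | zero =>
    funext I
    rw [dM_mulVec, Finset.univ_eq_empty, Finset.sum_empty]
    rfl
  | succ m =>
    have h1 := mem_Cs_succ.1 hG
    have h2 : 𝔞.op a (pw X m) (iot (PP (W := baseW W L) (vL L v) (Det.prj X m) G)) = 0 := by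
      refine ClassPred.sp_ind (Q := downP L 𝔞) (q := fun c => 𝔞.op a (pw X m) (iot c) = 0)
        ?_ ?_ ?_ h1
      · intro j x hx; exact hx.2 a
      · rw [iot_zero, map_zero]
      · intro x y hx hy; rw [iot_add, map_add, hx, hy, add_zero]
    rw [iot_PP, 𝔞.op_eq] at h2
    have h3 := (derOp_PP (W := baseW W ℂ) (vL ℂ v) (𝔞.op a X) (mp ℂ G)).symm.trans h2
    have h4 : PP (W := baseW W ℂ) (vL ℂ v) (Det.prj X m) 0 = 0 := PP_zero _
    exact PP_inj (W := baseW W ℂ) (vL ℂ v) (h3.trans h4.symm)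

end Coord

end iota

end Pool.Agent.Q67.TP
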