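import Pool.Agent.Y133.Half.Per
import Pool.Agent.H135R2.VS.Der

/-!
# Derivations of the complex numbers and the de Rham cohomology: linear algebra
-/

set_option autoImplicit false
set_option linter.unusedSectionVars false

open scoped TensorProduct

namespace Pool.Agent.Q67.TP

open Module Pool.Agent.Y133.Per

section Der

/-- An algebraic number is killed by the derivations. -/
lemma der_algebraic (δ : Derivation ℚ ℂ ℂ) {z : ℂ} (hz : IsAlgebraic ℚ z) : δ z = 0 := by
  have h2 := δ.map_aeval (minpoly ℚ z) z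
  rw [minpoly.aeval, map_zero] at h2
  have hsep : (minpoly ℚ z).Separable := (minpoly.irreducible hz.isIntegral).separable
  have h3 := hsep.aeval_derivative_ne_zero (minpoly.aeval ℚ z)
  rw [smul_eq_mul] at h2
  exact (mul_eq_zero.1 h2.symm).resolve_left h3

/-- A number which is killed by all derivations is algebraic. -/
lemma algebraic_of_der {z : ℂ} (h : ∀ δ : Derivation ℚ ℂ ℂ, δ z = 0) : IsAlgebraic ℚ z := by
  by_contra hcon
  have htr : Transcendental ℚ z := hcon
  have hind : AlgebraicIndependent ℚ (fun _ : Unit => z) :=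
    (algebraicIndependent_unique_type_iff).2 htr
  obtain ⟨D, hD⟩ := Pool.Agent.H135R2.VS.exists_der hind (fun _ => (1 : ℂ))
  have h1 := hD ()
  rw [h D] at h1
  exact zero_ne_one h1

end Der

section Nab

variable {K : Type*} [Field K] [Algebra K ℂ]

/-- The derivation kills the elements of `K`. -/
def KillsK (K : Type*) [Field K] [Algebra K ℂ] (δ : Derivation ℚ ℂ ℂ) : Prop :=
  ∀ r : K, δ (algebraMap K ℂ r) = 0

variable {δ : Derivation ℚ ℂ ℂ}

/-- the derivation as a linear map over `K` -/
noncomputable def derK (δ : Derivation ℚ ℂ ℂ) (h : KillsK K δ) : ℂ →ₗ[K] ℂ where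
  toFun := δ
  map_add' := map_add δ
  map_smul' r z := by
    rw [Algebra.smul_def r z, Derivation.leibniz, h r, smul_zero, add_zero]
    exact (Algebra.smul_def r (δ z)).symm

variable {A B : Type*} [Ring A] [Algebra K A] [Ring B] [Algebra K B]

/-- the derivation on the coefficients -/
noncomputable def nab (δ : Derivation ℚ ℂ ℂ) (h : KillsK K δ) (A : Type*) [Ring A] [Algebra K A] :
    Base K A →+ Base K A :=
  (show (ℂ ⊗[K] A) →ₗ[K] (ℂ ⊗[K] A) from LinearMap.rTensor A (derK δ h)).toAddMonoidHom

variable {h : KillsK K δ}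

lemma nab_tm (r : ℂ) (c : A) : nab δ h A (tm r c) = tm (δ r) c :=
  LinearMap.rTensor_tmul A (derK δ h) c r

lemma nab_smul (r : ℂ) (v : Base K A) : nab δ h A (r • v) = δ r • v + r • nab δ h A v := by
  refine base_ind (p := fun v => nab δ h A (r • v) = δ r • v + r • nab δ h A v) ?_ ?_ ?_ v
  · rw [smul_zero, map_zero, smul_zero, smul_zero, add_zero]
  · intro s c
    rw [smul_tm, nab_tm, nab_tm, smul_tm, smul_tm, Derivation.leibniz, smul_eq_mul, smul_eq_mul,
      add_comm, mul_comm s]
    exact TensorProduct.add_tmul _ _ _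
  · intro a b ha hb
    rw [smul_add, map_add, ha, hb, smul_add, map_add, smul_add]
    abel

lemma nab_mul (v w : Base K A) : nab δ h A (v * w) = nab δ h A v * w + v * nab δ h A w := by
  refine base_ind (p := fun v => nab δ h A (v * w) = nab δ h A v * w + v * nab δ h A w)
    ?_ ?_ ?_ v
  · rw [zero_mul, map_zero, zero_mul, zero_mul, add_zero]
  · intro r c
    refine base_ind (p := fun w => nab δ h A (tm r c * w) =
      nab δ h A (tm r c) * w + tm r c * nab δ h A w) ?_ ?_ ?_ w
    · rw [mul_zero, map_zero, mul_zero, mul_zero, add_zero]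
    · intro s d
      rw [tm_mul, nab_tm, nab_tm, nab_tm, tm_mul, tm_mul, Derivation.leibniz, smul_eq_mul,
        smul_eq_mul, add_comm, mul_comm s]
      exact TensorProduct.add_tmul _ _ _
    · intro a b ha hb
      rw [mul_add, map_add, ha, hb, mul_add, map_add, mul_add]
      abel
  · intro a b ha hb
    rw [add_mul, map_add, ha, hb, map_add, add_mul, add_mul]
    abel

lemma nab_map (f : A →ₐ[K] B) (v : Base K A) :
    nab δ h B (baseMap f v) = baseMap f (nab δ h A v) := by
  refine base_ind (p := fun v => nab δ h B (baseMap f v) = baseMap f (nab δ h A v)) ?_ ?_ ?_ v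
  · rw [map_zero, map_zero, map_zero, map_zero]
  · intro r c
    rw [baseMap_tm, nab_tm, nab_tm, baseMap_tm]
  · intro a b ha hb
    rw [map_add, map_add, ha, hb, map_add, map_add]

lemma nab_tr (t : A →ₗ[K] K) (v : Base K A) : baseTr t (nab δ h A v) = δ (baseTr t v) := by
  refine base_ind (p := fun v => baseTr t (nab δ h A v) = δ (baseTr t v)) ?_ ?_ ?_ v
  · rw [map_zero, map_zero, map_zero]
  · intro r c
    rw [nab_tm, baseTr_tm, baseTr_tm, Derivation.leibniz, h (t c), smul_zero, zero_add,
      smul_eq_mul, mul_comm]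
  · intro a b ha hb
    rw [map_add, map_add, ha, hb, map_add, map_add]

end Nab

section Form

variable {F : Subfield ℂ} {V : Type*} [AddCommGroup V] [Module ℂ V] [FiniteDimensional ℂ V]

/-- A basis of a subspace over `F` which is a basis over the complex numbers. -/
lemma exists_form_basis (U : Submodule F V) (hD : Submodule.span ℂ (U : Set V) = ⊤)
    (B : V →ₗ[ℂ] V →ₗ[ℂ] ℂ) (hB : ∀ v, (∀ w, B v w = 0) → v = 0)
    (hDB : ∀ v ∈ U, ∀ w ∈ U, B v w ∈ F) :
    ∃ (s : Set V) (_ : Fintype s) (e : Basis s ℂ V), (∀ i, e i ∈ U) ∧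
      ∀ u ∈ U, ∀ i, e.repr u i ∈ F := by
  classical
  obtain ⟨s, hs, hspan, hli⟩ := exists_linearIndependent ℂ (U : Set V)
  rw [hD] at hspan
  have hfin : Finite s := hli.finite
  have : Fintype s := Fintype.ofFinite s
  have hsD : ∀ i : s, (i : V) ∈ U := fun i => hs i.2
  let e : Basis s ℂ V := Basis.mk hli (by rw [Subtype.range_coe, hspan])
  have he : ∀ i, e i = (i : V) := fun i => by rw [Basis.mk_apply]
  refine ⟨s, this, e, fun i => by rw [he]; exact hsD i, fun v hv => ?_⟩
  let R : Matrix s s F := fun i j => ⟨B (i : V) (j : V), hDB _ (hsD i) _ (hsD j)⟩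
  have hdet : R.det ≠ 0 := by
    intro h0
    have h1 : (R.map (algebraMap F ℂ)).det = 0 := by
      rw [← RingHom.mapMatrix_apply, ← RingHom.map_det, h0, map_zero]
    obtain ⟨x, hx, hx0⟩ := Matrix.exists_vecMul_eq_zero_iff.2 h1
    apply hx
    have h2 : ∑ i, x i • e i = 0 := by
      apply hB
      intro w
      have h3 : ∀ j, B (∑ i, x i • e i) (e j) = 0 := by
        intro j
        have h4 := congrFun hx0 j
        rw [Matrix.vecMul, dotProduct] at h4
        rw [map_sum, LinearMap.sum_apply]
        rw [Pi.zero_apply] at h4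
        rw [← h4]
        apply Finset.sum_congr rfl
        intro i _
        rw [map_smul, LinearMap.smul_apply, smul_eq_mul, he, he]
        rfl
      have h5 : B (∑ i, x i • e i) = 0 := e.ext fun j => by rw [h3, LinearMap.zero_apply]
      rw [h5, LinearMap.zero_apply]
    have h6 := Fintype.linearIndependent_iff.1 e.linearIndependent x h2
    funext i
    exact h6 i
  let t : s → F := fun j => ⟨B v (j : V), hDB _ hv _ (hsD j)⟩
  let y : s → F := Matrix.vecMul t R⁻¹
  have hy : Matrix.vecMul y R = t := by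
    rw [Matrix.vecMul_vecMul, Matrix.nonsing_inv_mul _ (isUnit_iff_ne_zero.2 hdet),
      Matrix.vecMul_one]
  have hv' : v = ∑ i, ((y i : F) : ℂ) • e i := by
    rw [← sub_eq_zero]
    apply hB
    intro w
    have h3 : ∀ j, B (v - ∑ i, ((y i : F) : ℂ) • e i) (e j) = 0 := by
      intro j
      have h4 := congrArg (fun z : F => (z : ℂ)) (congrFun hy j)
      rw [Matrix.vecMul, dotProduct] at h4
      rw [map_sub, LinearMap.sub_apply, map_sum, LinearMap.sum_apply, he, sub_eq_zero]
      have h5 : ((t j : F) : ℂ) = B v (j : V) := rfl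
      rw [← h5, ← h4]
      push_cast
      apply Finset.sum_congr rfl
      intro i _
      rw [map_smul, LinearMap.smul_apply, smul_eq_mul, he]
    have h5 : B (v - ∑ i, ((y i : F) : ℂ) • e i) = 0 :=
      e.ext fun j => by rw [h3, LinearMap.zero_apply]
    rw [h5, LinearMap.zero_apply]
  intro i
  rw [hv', map_sum, Finsupp.finsetSum_apply, Finset.sum_eq_single i]
  · rw [map_smul, Basis.repr_self, Finsupp.smul_apply, Finsupp.single_eq_same, smul_eq_mul,
      mul_one]
    exact (y i).2
  · intro j _ hj
    rw [map_smul, Basis.repr_self, Finsupp.smul_apply, Finsupp.single_eq_of_ne hj.symm, smul_zero]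
  · intro h
    exact absurd (Finset.mem_univ i) h

end Form

end Pool.Agent.Q67.TP
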