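import Pool.Agent.Q67.TL.ZO2
import Pool.Agent.Q67.TG.Main5

/-!
# The index of a system of rational classes over another one
-/

set_option autoImplicit false
set_option linter.unusedSectionVars false

open CategoryTheory AlgebraicGeometry TensorProduct Filter Topology

open scoped ENNReal

universe u v w

namespace Pool.Agent.Q67.TG

open Pool.Agent.H914 Pool.Agent.H914.VarClass Pool.Agent.H914.VarClass.Obj
  Pool.Agent.H914.WeilCohomology
open Pool.Agent.Y133.Half hiding prj extOp_xp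
open Pool.Agent.Q67.Det Pool.Agent.Q67.TK
open Pool.Agent.Y121.AH
open scoped Matrix

variable {k : Type u} [Field k] {𝒱 : VarClass k} {ops : CycleOps 𝒱}
variable {T : HodgeTheory ops} {X Y Z : 𝒱.Obj} {Q R : ClassPred T.W}

lemma killsAll_iff {S : Sys T.W} {n : ℕ} {v : Module.Basis (Fin n) T.W.K (T.W.H X)}
    {A : Module.End T.W.K (T.W.H X)} : KillsAll S X A ↔ mt v A ∈ Ann (Cs S v) :=
  (mem_Ann_Cs (v := v)).symm

lemma killsAll_toLin {S : Sys T.W} {n : ℕ} {v : Module.Basis (Fin n) T.W.K (T.W.H X)}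
    {M : Matrix (Fin n) (Fin n) T.W.K} (hM : M ∈ Ann (Cs S v)) :
    KillsAll S X (Matrix.toLin v v M) := by
  rw [killsAll_iff (v := v), mt, LinearMap.toMatrix_toLin]
  exact hM

lemma ann_mono (h : ∀ A : Module.End T.W.K (T.W.H X), KillsAll Q.sys X A → KillsAll R.sys X A)
    {n : ℕ} {v : Module.Basis (Fin n) T.W.K (T.W.H X)}
    {M : Matrix (Fin n) (Fin n) T.W.K} (hM : M ∈ Ann (Cs Q.sys v)) : M ∈ Ann (Cs R.sys v) := by
  have h1 := (killsAll_iff (v := v)).1 (h _ (killsAll_toLin hM))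
  rw [mt, LinearMap.toMatrix_toLin] at h1
  exact h1

/-- **The bound.** -/
theorem bound_R (P : PolData T Q.sys X)
    (hinf : ∀ A : Module.End T.W.K (T.W.H X), KillsAll Q.sys X A → KillsAll R.sys X A) :
    ∃ c : ℝ, 0 < c ∧ ∀ m, c * dimBy T.W R.P (pw X (2 * m + 1)) ≤
      dimBy T.W Q.P (pw X (2 * m + 1)) := by
  have := charZero_K T
  obtain ⟨n, v, d, hd⟩ := exists_homog_basis T.W X
  obtain ⟨c, hc, h⟩ := (P.rsys hd).bound (C := cM v) (κ := (qM v P.uu)⁻¹) (real_K T) P.q_kap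
    (posDef_of_pol P.pol) (fun m F hF => cM_fix v (P.Cs_le m hF)) (kap_mem hd P.mem P.q_kap)
    (Cs R.sys v) (fun A hA => ann_mono hinf hA)
  refine ⟨c, hc, fun m => ?_⟩
  have h1 := h (m + 1)
  have e1 : Module.finrank T.W.K (Cs R.sys v (2 * (m + 1))) =
      dimBy T.W R.P (pw X (2 * m + 1)) :=
    finrank_Cs (v := v) (S := R.sys) (m := 2 * m + 1)
  have e2 : Module.finrank T.W.K ((P.rsys hd).C (2 * (m + 1))) =
      dimBy T.W Q.P (pw X (2 * m + 1)) :=
    finrank_Cs (v := v) (S := Q.sys) (m := 2 * m + 1)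
  rw [e1, e2] at h1
  exact h1

/-- **The law for the index of `R` over `Q`.** -/
theorem masterR (hQR : ∀ {Z : 𝒱.Obj} {j : ℕ} {c : T.W.H Z}, Q.P Z j c → R.P Z j c)
    (P : PolData T Q.sys X) [Nontrivial (T.W.H X)] :
    ∃ N : ℕ∞, 1 ≤ N ∧
      HasIndex (fun n => dimBy T.W R.P (pw X n)) (fun n => dimBy T.W Q.P (pw X n)) N ∧
      (N = 1 ↔ ∀ n j c, R.P (pw X n) j c → Q.P (pw X n) j c) ∧
      (N ≠ 1 → AtMostHalf (fun n => dimBy T.W Q.P (pw X n))
        (fun n => dimBy T.W R.P (pw X n))) ∧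
      (N ≠ ⊤ → GeneratedOver T.W Q.P R.P X N) ∧
      (N ≠ ⊤ ↔ ∀ A : Module.End T.W.K (T.W.H X), KillsAll Q.sys X A → KillsAll R.sys X A) := by
  have := charZero_K T
  obtain ⟨N, M, h1, -, hN, -, -, hN1, -, hhalf, -, hgen, -⟩ :=
    Q.tower R hQR X P.nondeg_pw
  refine ⟨N, h1, hN, hN1, hhalf, hgen, fun h A hA => kill_of_generated' P.ndat (hgen h) hA,
    fun h => ?_⟩
  obtain ⟨c, hc, hb⟩ := bound_R P h
  exact ne_top_of_bound hN (fun n => Q.sys.finrank_pos_pw n) hc hb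

/-- Classes killed by the operators which kill a system of Hodge classes are Hodge classes. -/
theorem hodge_of_kill (hQ : ∀ {Z : 𝒱.Obj} {j : ℕ} {c : T.W.H Z}, Q.P Z j c → (hodgePred T).P Z j c)
    (h : ∀ A : Module.End T.W.K (T.W.H X), KillsAll Q.sys X A → KillsAll R.sys X A)
    {m j : ℕ} {c : T.W.H (pw X m)} (hc : R.P (pw X m) j c) : (hodgePred T).P (pw X m) j c := by
  obtain ⟨n, v, d, hd⟩ := exists_homog_basis T.W X
  obtain ⟨F, rfl⟩ := PP_surj v c
  have h1 : F ∈ Cs R.sys v (m + 1) := mem_Cs_succ.2 (ClassPred.sp_of (Q := R) hc)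
  have h2 : F ∈ Cs (hodgeSys T) v (m + 1) := by
    rw [hodge_Cs]
    refine mem_Ker_of fun A hA => ?_
    refine ann_mono h (v := v) ?_ (m + 1) F h1
    intro l G hG
    refine hA l G ?_
    rw [← hodge_Cs]
    exact fun Z f => ClassPred.sys_le hQ _ (hG Z f)
  have h3 := ClassPred.sp_proj (Q := hodgePred T) (mem_Cs_succ.1 h2) j
  rwa [proj_same _ (R.gr hc)] at h3

/-- The matrices of a Lie algebra which kills the classes of a system. -/
lemma mat_mem_Ann {L : Type} [Field L] [Algebra T.W.K L] {𝔞 : LieAct.{u, 0, w} (baseW T.W L)}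
    (hQ : ∀ {Z : 𝒱.Obj} {j : ℕ} {c : T.W.H Z}, Q.P Z j c → ∀ a, 𝔞.op a Z (em T.W L c) = 0)
    {n : ℕ} {v : Module.Basis (Fin n) T.W.K (T.W.H X)} (a : 𝔞.ι) :
    (show Matrix (Fin n) (Fin n) L from mt (vL L v) (𝔞.op a X)) ∈
      Ann fun l => mpS L (Cs Q.sys v l) := by
  intro l G hG
  have h4 : mpS L (Cs Q.sys v l) ≤ LinearMap.ker
      (Matrix.mulVecLin (dM l (mt (vL L v) (𝔞.op a X)))) := by
    refine Submodule.span_le.2 ?_
    rintro _ ⟨G, hG, rfl⟩
    change (dM l (mt (vL L v) (𝔞.op a X))).mulVec (mp L G) = 0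
    cases l with
    | zero =>
      funext I
      refine (dM_mulVec (R := L) 0 (mt (vL L v) (𝔞.op a X)) (mp L G) I).trans ?_
      exact Finset.sum_eq_zero fun k _ => k.elim0
    | succ l =>
      have h5 : 𝔞.op a (pw X l) (em T.W L (PP v (Det.prj X l) G)) = 0 := by
        refine ClassPred.sp_ind (Q := Q) (q := fun c => 𝔞.op a (pw X l) (em T.W L c) = 0)
          ?_ ?_ ?_ (mem_Cs_succ.1 hG)
        · intro j x hx; exact hQ hx a
        · rw [em_zero, map_zero]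
        · intro x y hx hy; rw [em_add, map_add, hx, hy, add_zero]
      rw [𝔞.op_eq, em_PPL] at h5
      have h6 := derOp_PP (W := baseW T.W L) (vL L v) (𝔞.op a X) (mpL L G)
      exact PP_inj (vL L v) ((h6.symm.trans h5).trans (PP_zero _).symm)
  exact h4 hG

/-- Classes killed by the operators which kill a system of classes killed by a Lie algebra are
killed by the Lie algebra. -/
theorem killed_of_kill {L : Type} [Field L] [Algebra T.W.K L] {𝔞 : LieAct.{u, 0, w} (baseW T.W L)}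
    (hQ : ∀ {Z : 𝒱.Obj} {j : ℕ} {c : T.W.H Z}, Q.P Z j c → ∀ a, 𝔞.op a Z (em T.W L c) = 0)
    (h : ∀ A : Module.End T.W.K (T.W.H X), KillsAll Q.sys X A → KillsAll R.sys X A)
    {m j : ℕ} {c : T.W.H (pw X m)} (hc : R.P (pw X m) j c) (a : 𝔞.ι) :
    𝔞.op a (pw X m) (em T.W L c) = 0 := by
  obtain ⟨n, v, d, hd⟩ := exists_homog_basis T.W X
  obtain ⟨F, rfl⟩ := PP_surj v c
  have h1 : F ∈ Cs R.sys v (m + 1) := mem_Cs_succ.2 (ClassPred.sp_of (Q := R) hc)
  have hM := mat_mem_Ann (v := v) hQ a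
  have h7 := kill_of_ann_map hM (F := F) fun A hA => ann_mono h hA (m + 1) F h1
  rw [𝔞.op_eq, em_PPL]
  refine (derOp_PP (W := baseW T.W L) (vL L v) (𝔞.op a X) (mpL L _)).trans ?_
  refine (congrArg (PP (vL L v) (Det.prj X m)) h7).trans (PP_zero _)

end Pool.Agent.Q67.TG
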