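import Mathlib

/-!
# Transcendence degree and algebraically independent generators
-/

set_option autoImplicit false

namespace Pool.Agent.Q67.TP

open Cardinal

section gen

variable {K : Type} [Field K] [Algebra K ℂ]

/-- A transcendence basis among the generators. -/
theorem exists_indep_gen (S : Set ℂ) : ∃ t : Set ℂ, t ⊆ S ∧ AlgebraicIndepOn K id t ∧
    #t = Algebra.trdeg K (IntermediateField.adjoin K S) := by
  set E := IntermediateField.adjoin K S with hE
  set s : Set E := {x | (x : ℂ) ∈ S} with hs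
  have himg : (E.val '' s : Set ℂ) = S := by
    ext z
    constructor
    · rintro ⟨x, hx, rfl⟩; exact hx
    · intro hz
      exact ⟨⟨z, IntermediateField.subset_adjoin K S hz⟩, hz, rfl⟩
  have htop : IntermediateField.adjoin K s = ⊤ := by
    have h1 : (IntermediateField.adjoin K s).map E.val = E := by
      rw [IntermediateField.adjoin_map, himg]
    have h2 : (⊤ : IntermediateField K E).map E.val = E := by
      rw [← AlgHom.fieldRange_eq_map, IntermediateField.fieldRange_val]
    exact IntermediateField.map_injective E.val (h1.trans h2.symm)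
  have halg : Algebra.IsAlgebraic (Algebra.adjoin K s) E := by
    refine ⟨fun x => ?_⟩
    rw [← IntermediateField.isAlgebraic_adjoin_iff]
    have hx : x ∈ IntermediateField.adjoin K s := by rw [htop]; trivial
    exact isAlgebraic_algebraMap (⟨x, hx⟩ : IntermediateField.adjoin K s)
  obtain ⟨t, ht, hb⟩ := exists_isTranscendenceBasis_subset (R := K) s
  refine ⟨E.val '' t, ?_, ?_, ?_⟩
  · rintro _ ⟨x, hx, rfl⟩
    exact ht hx
  · have h1 : AlgebraicIndependent K fun x : t => (x : E) := hb.1
    have h2 := h1.map' (f := E.val) E.val.injective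
    have h3 := h2.coe_range
    have h4 : Set.range (E.val ∘ fun x : t => (x : E)) = E.val '' t := by
      rw [Set.range_comp, Subtype.range_coe]
    have h5 : AlgebraicIndepOn K id (Set.range (E.val ∘ fun x : t => (x : E))) := h3
    rwa [h4] at h5
  · refine (Cardinal.mk_image_eq (f := fun x : E => (x : ℂ)) Subtype.val_injective).trans ?_
    exact hb.cardinalMk_eq_trdeg

end gen

theorem exists_indep (S : Set ℂ) : ∃ t : Set ℂ, t ⊆ S ∧ AlgebraicIndepOn ℚ id t ∧
    #t = Algebra.trdeg ℚ (IntermediateField.adjoin ℚ S) := by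
  convert exists_indep_gen (K := ℚ) S
  · rfl
  · exact Subsingleton.elim _ _

/-- A bound for the transcendence degree. -/
theorem trdeg_le_of {S : Set ℂ} {N : ℕ} (h : ∀ (r : ℕ) (x : Fin r → ℂ), (∀ i, x i ∈ S) →
    AlgebraicIndependent ℚ x → r ≤ N) :
    Algebra.trdeg ℚ (IntermediateField.adjoin ℚ S) ≤ N ∧
      (Algebra.trdeg ℚ (IntermediateField.adjoin ℚ S) = N →
        ∃ x : Fin N → ℂ, (∀ i, x i ∈ S) ∧ AlgebraicIndependent ℚ x) := by
  obtain ⟨t, ht, hi, hc⟩ := exists_indep S
  have hfam : ∀ u : Finset ℂ, (u : Set ℂ) ⊆ t → ∃ x : Fin u.card → ℂ, (∀ i, x i ∈ S) ∧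
      AlgebraicIndependent ℚ x := by
    intro u hu
    refine ⟨fun i => (u.equivFin.symm i : ℂ), fun i => ht (hu (u.equivFin.symm i).2), ?_⟩
    have h1 : AlgebraicIndependent ℚ fun z : (u : Set ℂ) => (z : ℂ) := hi.mono hu
    exact h1.comp u.equivFin.symm u.equivFin.symm.injective
  have hfin : t.Finite := by
    by_contra hinf
    obtain ⟨u, hu, huc⟩ := Set.Infinite.exists_subset_card_eq hinf (N + 1)
    obtain ⟨x, hx, hxi⟩ := hfam u hu
    have := h _ x hx hxi
    omega
  obtain ⟨x, hx, hxi⟩ := hfam hfin.toFinset (by simp)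
  have h1 := h _ x hx hxi
  have h2 : #t = (hfin.toFinset.card : Cardinal) := by
    rw [← Cardinal.mk_coe_finset]
    simp
  rw [← hc, h2]
  refine ⟨by exact_mod_cast h1, fun h3 => ?_⟩
  have h4 : hfin.toFinset.card = N := by exact_mod_cast h3
  subst h4
  exact ⟨x, hx, hxi⟩

end Pool.Agent.Q67.TP
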