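import Pool.Agent.Q67.TP.Lie
import Pool.Agent.Q67.TP.Rat
import Pool.Agent.Q67.TP.Tr

/-!
# Transcendence degree of the periods and operators which kill classes
-/

set_option autoImplicit false
set_option linter.unusedSectionVars false

open CategoryTheory AlgebraicGeometry

open scoped TensorProduct

universe u v

namespace Pool.Agent.Q67.TP

open Module Pool.Agent.Y133.Per
open Pool.Agent.H914 Pool.Agent.H914.VarClass Pool.Agent.H914.VarClass.Obj
  Pool.Agent.H914.WeilCohomology
open Pool.Agent.Q67.TG Pool.Agent.Y121.AH Pool.Agent.Q67.TK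
open Pool.Agent.Y133.Half (ClassPred Sys)
open scoped Matrix

variable {k : Type u} [Field k] {𝒱 : VarClass k} {ops : CycleOps 𝒱}

section per

variable {W : WeilCohomology.{u, 0} ops} [Algebra W.K ℂ] {F : Subfield ℂ} {X Y Z : 𝒱.Obj}

/-- The periods: the values of the rational functionals on the de Rham cohomology. -/
def periods (D : DeRham W F) (X : 𝒱.Obj) : Set ℂ :=
  {z | ∃ φ : W.H X →ₗ[W.K] W.K, ∃ a ∈ D.dR X, baseTr φ a = z}

variable {D : DeRham W F} (hF : ∀ z : ℂ, z ∈ F ↔ IsAlgebraic ℚ z)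
  (hK : ∀ δ : Derivation ℚ ℂ ℂ, KillsK W.K δ)

/-- Algebraically independent periods give linearly independent operators. -/
lemma conn_indep {r : ℕ} {x : Fin r → ℂ} (hx : ∀ i, x i ∈ periods D X)
    {δ : Fin r → Derivation ℚ ℂ ℂ} (hδ : ∀ i j, δ i (x j) = if i = j then 1 else 0) :
    LinearIndependent ℂ fun i => conn D hF (hK (δ i)) X := by
  rw [Fintype.linearIndependent_iff]
  intro c hc j
  obtain ⟨φ, a, ha, hφ⟩ := hx j
  have h1 := congrArg (fun A : Module.End ℂ (Base W.K (W.H X)) => baseTr φ (A a)) hc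
  simp only [LinearMap.sum_apply, LinearMap.smul_apply, LinearMap.zero_apply, map_sum, map_zero,
    map_smul] at h1
  rw [Finset.sum_eq_single j] at h1
  · rw [conn_dR D hF (hK (δ j)) ha, map_neg, nab_tr, hφ, hδ, if_pos rfl, smul_eq_mul] at h1
    have h2 : c j * -1 = 0 := h1
    rw [mul_neg, mul_one, neg_eq_zero] at h2
    exact h2
  · intro i _ hij
    rw [conn_dR D hF (hK (δ i)) ha, map_neg, nab_tr, hφ, hδ, if_neg hij, neg_zero, smul_zero]
  · intro h
    exact absurd (Finset.mem_univ j) h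

variable (D) in
/-- the span of the operators -/
noncomputable def opSpan (X : 𝒱.Obj) : Submodule ℂ (Module.End ℂ (Base W.K (W.H X))) :=
  Submodule.span ℂ (Set.range fun δ => opD D hF hK δ X)

lemma le_opSpan {r : ℕ} {x : Fin r → ℂ} (hx : ∀ i, x i ∈ periods D X)
    (hind : AlgebraicIndependent ℚ x) : r ≤ finrank ℂ (opSpan D hF hK X) + 1 := by
  have h0 : ∀ i : Fin r, ∃ δ : Derivation ℚ ℂ ℂ, ∀ j, δ (x j) = if i = j then 1 else 0 :=
    fun i => Pool.Agent.H135R2.VS.exists_der hind _
  choose δ hδ using h0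
  have h1 := conn_indep hF hK hx hδ
  have h2 : Set.range (fun i => conn D hF (hK (δ i)) X) ⊆
      ((opSpan D hF hK X ⊔ Submodule.span ℂ {halfDeg W X} :
        Submodule ℂ (Module.End ℂ (Base W.K (W.H X)))) : Set _) := by
    rintro _ ⟨i, rfl⟩
    have h3 : conn D hF (hK (δ i)) X = opD D hF hK (δ i) X + (-lam (δ i)) • halfDeg W X := by
      rw [opD, add_assoc, ← add_smul, add_neg_cancel, zero_smul, add_zero]
    change conn D hF (hK (δ i)) X ∈ _
    rw [h3]
    exact Submodule.add_mem_sup (Submodule.subset_span ⟨δ i, rfl⟩)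
      (Submodule.smul_mem _ _ (Submodule.mem_span_singleton_self _))
  have h3 : r ≤ finrank ℂ (opSpan D hF hK X ⊔ Submodule.span ℂ {halfDeg W X} :
        Submodule ℂ (Module.End ℂ (Base W.K (W.H X)))) := by
    have h4 := Submodule.finrank_mono (Submodule.span_le.2 h2)
    rw [finrank_span_eq_card h1, Fintype.card_fin] at h4
    exact h4
  have h4 := Submodule.finrank_add_le_finrank_add_finrank (opSpan D hF hK X)
    (Submodule.span ℂ {halfDeg W X})
  have h5 : finrank ℂ (Submodule.span ℂ ({halfDeg W X} : Set (Module.End ℂ (Base W.K (W.H X)))))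
      ≤ 1 := by
    have := finrank_span_le_card (R := ℂ) ({halfDeg W X} : Set (Module.End ℂ (Base W.K (W.H X))))
    simpa using this
  omega

end per

section lie

variable {T : HodgeTheory ops} {F : Subfield ℂ} {X Y Z : 𝒱.Obj} {D : DeRham T.W F}

lemma killsK (T : HodgeTheory ops) (δ : Derivation ℚ ℂ ℂ) : KillsK T.W.K δ := by
  intro r
  obtain ⟨q, hq⟩ := T.rat r
  rw [← hq, map_ratCast]
  exact δ.map_algebraMap q

variable (hF : ∀ z : ℂ, z ∈ F ↔ IsAlgebraic ℚ z) (hG : Graded D)

/-- the action of the derivations -/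
noncomputable abbrev 𝔡 : LieAct.{u, 0, 0} (baseW T.W ℂ) := lieD hF (killsK T) hG

lemma drb_killed {j : ℕ} {c : T.W.H Z} (hc : IsDRB D Z j c) (a : (𝔡 hF hG).ι) :
    (𝔡 hF hG).op a Z (em T.W ℂ c) = 0 := opD_drb (δ := a) hF (killsK T) hc

lemma drb_of_killed {j : ℕ} {c : T.W.H Z} (hc : c ∈ T.W.gr Z (2 * j))
    (h : ∀ a, (𝔡 hF hG).op a Z (em T.W ℂ c) = 0) : IsDRB D Z j c :=
  drb_of_opD hF (killsK T) hc h

variable {n : ℕ} (v : Module.Basis (Fin n) T.W.K (T.W.H X))

/-- an operator on the extended cohomology -/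
noncomputable def toE (A : Module.End ℂ (Base T.W.K (T.W.H X))) :
    Module.End (baseW T.W ℂ).K ((baseW T.W ℂ).H X) := A

/-- the matrix of an operator -/
noncomputable def mB (A : Module.End ℂ (Base T.W.K (T.W.H X))) : Matrix (Fin n) (Fin n) ℂ :=
  mt (vL ℂ v) (toE A)

lemma mB_zero : mB v (0 : Module.End ℂ (Base T.W.K (T.W.H X))) = 0 :=
  map_zero (LinearMap.toMatrix (vL ℂ v) (vL ℂ v))

lemma mB_add (A A' : Module.End ℂ (Base T.W.K (T.W.H X))) :
    mB v (A + A') = mB v A + mB v A' :=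
  map_add (LinearMap.toMatrix (vL ℂ v) (vL ℂ v)) (toE A) (toE A')

lemma mB_smul (c : ℂ) (A : Module.End ℂ (Base T.W.K (T.W.H X))) :
    mB v (c • A) = c • mB v A :=
  map_smul (LinearMap.toMatrix (vL ℂ v) (vL ℂ v)) (show (baseW T.W ℂ).K from c) (toE A)

/-- the matrix of an operator as a function on the pairs of indices -/
noncomputable def Phi : Module.End ℂ (Base T.W.K (T.W.H X)) →ₗ[ℂ] (Fin n × Fin n → ℂ) where
  toFun A p := mB v A p.1 p.2
  map_add' A A' := by
    funext p
    rw [mB_add]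
    rfl
  map_smul' c A := by
    funext p
    rw [mB_smul]
    rfl

lemma Phi_inj : Function.Injective (Phi v) := by
  intro A A' h
  have h1 : mB v A = mB v A' := Matrix.ext fun i j => congrFun h (i, j)
  exact mt_inj (v := vL ℂ v) (φ := toE A) (ψ := toE A') h1

/-- a matrix as a function on the pairs of indices -/
def unc (K : Type) [Field K] (n : ℕ) :
    Matrix (Fin n) (Fin n) K ≃ₗ[K] (Fin n × Fin n → K) :=
  (LinearEquiv.curry K K (Fin n) (Fin n)).symm

lemma unc_apply {K : Type} [Field K] (M : Matrix (Fin n) (Fin n) K) (p : Fin n × Fin n) :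
    unc K n M p = M p.1 p.2 := rfl

variable {Q R : ClassPred T.W}

lemma finrank_mapI {E G : Type} [AddCommGroup E] [Module ℂ E] [AddCommGroup G] [Module ℂ G]
    {f : E →ₗ[ℂ] G} (hf : Function.Injective f) (U : Submodule ℂ E) :
    finrank ℂ (U.map f) = finrank ℂ U :=
  (LinearEquiv.finrank_eq (Submodule.equivMapOfInjective f hf U)).symm

/-- the space of the matrices which kill the classes of the system -/
noncomputable def annV (Q : ClassPred T.W) : Submodule T.W.K (Fin n × Fin n → T.W.K) :=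
  (Ann (Cs Q.sys v)).map (unc T.W.K n).toLinearMap

lemma finrank_annV : finrank T.W.K (annV v Q) = finrank T.W.K (Ann (Cs Q.sys v)) :=
  LinearEquiv.finrank_map_eq (unc T.W.K n) _

variable (hQ : ∀ {Z : 𝒱.Obj} {j : ℕ} {c : T.W.H Z}, Q.P Z j c → IsDRB D Z j c)

include hG hQ in
lemma opSpan_le : (opSpan D hF (killsK T) X).map (Phi v) ≤ upS (annV v Q) := by
  rw [opSpan, Submodule.map_span, Submodule.span_le]
  rintro _ ⟨_, ⟨δ, rfl⟩, rfl⟩
  have hM := mat_mem_Ann (v := v) (𝔞 := 𝔡 hF hG) (Q := Q)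
    (fun hc a => drb_killed hF hG (hQ hc) a) δ
  refine mem_mpS_of (K := T.W.K) (L := ℂ) fun l => ?_
  exact ⟨_, ann_map hM l, rfl⟩

include hF hG hQ in
/-- **The transcendence degree is bounded by the dimension of the Lie algebra.** -/
theorem trdeg_le_ann {r : ℕ} {x : Fin r → ℂ} (hx : ∀ i, x i ∈ periods D X)
    (hind : AlgebraicIndependent ℚ x) : r ≤ finrank T.W.K (Ann (Cs Q.sys v)) + 1 := by
  have h1 := le_opSpan hF (killsK T) hx hind
  have h2 := Submodule.finrank_mono (opSpan_le hF hG v hQ)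
  rw [finrank_upS, finrank_annV, finrank_mapI (Phi_inj v)] at h2
  omega

include hF hG hQ in
/-- **If the transcendence degree is the dimension of the Lie algebra of the operators which kill
the classes in `Q`, these operators kill the de Rham-Betti classes.** -/
theorem kill_of_trdeg {r : ℕ} {x : Fin r → ℂ} (hx : ∀ i, x i ∈ periods D X)
    (hind : AlgebraicIndependent ℚ x) (hr : finrank T.W.K (Ann (Cs Q.sys v)) + 1 ≤ r)
    (hR : ∀ {Z : 𝒱.Obj} {j : ℕ} {c : T.W.H Z}, R.P Z j c → IsDRB D Z j c)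
    {A : Module.End T.W.K (T.W.H X)} (hA : KillsAll Q.sys X A) : KillsAll R.sys X A := by
  have h1 := le_opSpan hF (killsK T) hx hind
  have h2 : (opSpan D hF (killsK T) X).map (Phi v) = upS (annV v Q) := by
    refine Submodule.eq_of_le_of_finrank_le (opSpan_le hF hG v hQ) ?_
    rw [finrank_upS, finrank_annV, finrank_mapI (Phi_inj v)]
    omega
  rw [killsAll_iff (v := v)] at hA ⊢
  intro l G hG'
  have h3 : up (unc T.W.K n (mt v A)) ∈ (opSpan D hF (killsK T) X).map (Phi v) := by
    rw [h2]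
    exact up_mem ⟨_, hA, rfl⟩
  obtain ⟨A', hA', h4⟩ := h3
  have h5 : ∀ B ∈ opSpan D hF (killsK T) X, (dM l (mB v B)) *ᵥ up G = 0 := by
    intro B hB
    unfold opSpan at hB
    induction hB using Submodule.span_induction with
    | mem B hB =>
      obtain ⟨δ, rfl⟩ := hB
      exact mat_mem_Ann (v := v) (𝔞 := 𝔡 hF hG) (Q := R)
        (fun hc a => drb_killed hF hG (hR hc) a) δ l _ (mp_mem (L := ℂ) hG')
    | zero => rw [mB_zero, dM_zero, Matrix.zero_mulVec]
    | add x y _ _ hx hy => rw [mB_add, dM_add, Matrix.add_mulVec, hx, hy, add_zero]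
    | smul c x _ hx => rw [mB_smul, dM_smul, Matrix.smul_mulVec, hx, smul_zero]
  have h6 := h5 A' hA'
  have h7 : mB v A' = upM (mt v A) := Matrix.ext fun i j => congrFun h4 (i, j)
  rw [h7] at h6
  have h8 : mp ℂ ((dM l (mt v A)) *ᵥ G) = 0 := by
    rw [mp_dM]
    exact h6
  funext I
  have h9 := congrFun h8 I
  exact (map_eq_zero (algebraMap T.W.K ℂ)).1 h9

/-- The dimension of the Lie algebra. -/
lemma finrank_ann (S : Sys T.W) :
    Set.finrank T.W.K {A : Module.End T.W.K (T.W.H X) | KillsAll S X A} =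
      finrank T.W.K (Ann (Cs S v)) := by
  have h1 : {A : Module.End T.W.K (T.W.H X) | KillsAll S X A} =
      (((Ann (Cs S v)).comap (LinearMap.toMatrix v v).toLinearMap :
        Submodule T.W.K (Module.End T.W.K (T.W.H X))) : Set _) := by
    ext A
    exact killsAll_iff (v := v)
  rw [h1, Set.finrank, Submodule.span_eq]
  have h2 : ((Ann (Cs S v)).comap (LinearMap.toMatrix v v).toLinearMap :
        Submodule T.W.K (Module.End T.W.K (T.W.H X))) =
      (Ann (Cs S v)).map (LinearMap.toMatrix v v).symm.toLinearMap :=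
    Submodule.comap_equiv_eq_map_symm _ _
  rw [h2]
  exact LinearEquiv.finrank_map_eq _ _

end lie

end Pool.Agent.Q67.TP
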