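import Pool.Agent.Y121.AHS.Ext

/-!
# Rational forms of complex vector spaces, operators and periods: definitions
-/

namespace Pool.Agent.Q67.TP.S

open Pool.Agent.Y121.AHS

/-- The quotients `t n / s n` converge to `N`, an element of `ℕ ∪ {∞}`. -/
def HasIndex (t s : ℕ → ℕ) (N : ℕ∞) : Prop :=
  Filter.Tendsto (fun n => (t n : ENNReal) / s n) Filter.atTop (nhds (N : ENNReal))

section set

variable {G H : Type}

/-- The map sends elements of `R` to elements of `R'`. -/
def Maps (f : G → H) (R : Set G) (R' : Set H) : Prop := ∀ x ∈ R, f x ∈ R'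

/-- The set is stable under the operation. -/
def Stable (m : H → H → H) (R : Set H) : Prop := ∀ x ∈ R, ∀ y ∈ R, m x y ∈ R

/-- The values of `t` on the elements of `S` lie in `c F`. -/
def ValuesIn (F : Subfield ℂ) (c : ℂ) (t : H → ℂ) (S : Set H) : Prop :=
  ∀ a ∈ S, ∃ r ∈ F, t a = c * r

end set

section form

/-- The number `2 π i`. -/
noncomputable def twoPiI : ℂ := 2 * Real.pi * Complex.I

variable {G : Type} [AddCommGroup G]

/-- Every element of `S` is a sum of elements of `S` of degrees less than `N`. -/
def IsGraded (deg : ℕ → G → Prop) (N : ℕ) (S : Set G) : Prop :=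
  ∀ a ∈ S, ∃ b : ℕ → G, (∀ i, b i ∈ S ∧ deg i (b i)) ∧ a = ∑ i ∈ Finset.range N, b i

variable [Module ℂ G]

/-- `S` is a subspace over the field `F` which spans the complex vector space. -/
structure IsForm (F : Subfield ℂ) (S : Set G) : Prop where
  zero : 0 ∈ S
  add : ∀ a ∈ S, ∀ b ∈ S, a + b ∈ S
  smul : ∀ r ∈ F, ∀ a ∈ S, r • a ∈ S
  span : Submodule.span ℂ S = ⊤

/-- The map `C` is the Weil operator: it is additive and multiplies the elements of type `(p, q)`
by `i ^ (p - q)`. -/
def IsWeil (pq : ℤ → ℤ → Submodule ℂ G) (C : G → G) : Prop :=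
  (∀ x y, C (x + y) = C x + C y) ∧ ∀ p q, ∀ x ∈ pq p q, C x = Complex.I ^ (p - q) • x

/-- The element `∑ c i e(a i)` with complex coefficients `c i`. -/
noncomputable def comb {H : Type} (e : H → G) {r : ℕ} (c : Fin r → ℂ) (a : Fin r → H) : G :=
  ∑ i, c i • e (a i)

/-- The number `t (C x' · u x)` is positive for every `x = ∑ c i e(a i) ≠ 0` with complex
coefficients `c i`, where `x' = ∑ (conj (c i)) e(a i)` is the complex conjugate of `x` and
`u x = ∑ c i e(u (a i))`. -/
def IsPositive {H : Type} (e : H → G) (m : G → G → G) (t : G → ℂ) (C : G → G) (u : H → H) :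
    Prop :=
  ∀ (r : ℕ) (c : Fin r → ℂ) (a : Fin r → H), comb e c a ≠ 0 →
    ∃ s : ℝ, 0 < s ∧ t (m (C (comb e (fun i => star (c i)) a)) (comb e c fun i => u (a i))) = s

end form

section alg

variable {K A B : Type} [Field K] [Ring A] [Algebra K A] [Ring B] [Algebra K B]

/-- The images under `f` of the elements `z` with the property `P j` for some `j`. -/
def imagesOf {Z : Type*} [AddCommGroup Z] (f : Z →+ A) (P : ℕ → Z → Prop) : Set A :=
  {x | ∃ j z, P j z ∧ f z = x}

/-- The product in `A`. -/
def mulOf (a b : A) : A := a * b

/-- The value of the functional `t`. -/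
def valT (t : A →ₗ[K] K) (a : A) : K := t a

/-- The value of the homomorphism `f`. -/
def valM (f : A →ₐ[K] B) (a : A) : B := f a

/-- The value of the linear map `f`. -/
def valL (f : A →ₗ[K] B) (a : A) : B := f a

/-- The element `a` belongs to the subspace `U`. -/
def InSub (U : Submodule K A) (a : A) : Prop := a ∈ U

/-- The additive group of `A`. -/
@[reducible] noncomputable def addOf (A : Type) [Ring A] : AddCommGroup A := inferInstance

/-- The vector space `A`. -/
@[reducible] noncomputable def modOf (K A : Type) [Field K] [Ring A] [Algebra K A] : Module K A :=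
  inferInstance

/-- The values of the functionals on `A` on the elements of `S`. -/
def valuesOn [Algebra K ℂ] (S : Set (Ext K ℂ A)) : Set ℂ :=
  {z | ∃ φ : A →ₗ[K] K, ∃ a ∈ S, extForm K ℂ φ a = z}

/-- The transcendence degree over the rational numbers of the field generated by `S`. -/
noncomputable def trdegOf (S : Set ℂ) : Cardinal :=
  Algebra.trdeg ℚ (IntermediateField.adjoin ℚ S)

end alg

/-- The linear operators on `H`. -/
abbrev Op (L H : Type) [Field L] [AddCommGroup H] [Module L H] : Type := Module.End L H

section op

variable {L H G E : Type} [Field L] [AddCommGroup H] [Module L H] [AddCommGroup G] [Module L G]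
  [AddCommGroup E] [Module L E]

variable (L) in
/-- The dimension of the span of `R`. -/
noncomputable def spanDim (R : Set H) : ℕ := Set.finrank L R

/-- The dimension of the space spanned by the operators in `P`. -/
noncomputable def opDim (P : Set (Op L H)) : ℕ := Set.finrank L P

/-- The operator `A` has the property `P` and commutes with all operators with the property `P`. -/
def CentralIn (P : Op L H → Prop) (A : Op L H) : Prop := P A ∧ ∀ φ, P φ → A * φ = φ * A

/-- There is no nonzero operator `A` with the property `P` which is skew-symmetric with respect to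
the pairing `t (x · y)`. -/
def NoSkew (m : H → H → H) (t : H → L) (P : Op L H → Prop) : Prop :=
  ∀ A, P A → (∀ x y, t (m (A x) y) = -t (m x (A y))) → A = 0

/-- The operator `φ` is `a ↦ i z a` for a linear combination `z` of elements of `S`. -/
def GivenBy (i : G → H → H) (S : Set G) (φ : Op L H) : Prop :=
  ∃ z ∈ Submodule.span L S, ∀ a, φ a = i z a

/-- The Leibniz rule for the product `a × b` of elements of `G` and `H`:
`D' (a × b) = D a × b + a × A b`. -/
def Leibniz (c : G → H → E) (D : Op L G) (A : Op L H) (D' : Op L E) : Prop :=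
  ∀ a b, D' (c a b) = c (D a) b + c a (A b)

/-- The operator kills the elements of `R`. -/
def Kill (R : Set H) (D : Op L H) : Prop := ∀ c ∈ R, D c = 0

end op

end Pool.Agent.Q67.TP.S
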