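import Pool.Agent.Y121.AHS.Defs
import Pool.Agent.Y133.Half.PwDefs
import Pool.Agent.Q67.TP.GenDefs

/-!
# Hodge classes, de Rham-Betti classes and periods: definitions

`Pool.Agent.Y121.AHS.HodgeTheory` is a Weil cohomology with rational coefficients together with a
Hodge decomposition of its cohomology with complex coefficients. `HL T.W ℂ X` is the cohomology of
`X` with complex coefficients, with the product `mulL`, the pull-back `mapL` and the trace `trL`.
-/

open CategoryTheory AlgebraicGeometry

universe u

namespace Pool.Agent.Q67.TP.S

open Pool.Agent.H914 Pool.Agent.H914.VarClass Pool.Agent.H914.VarClass.Obj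
  Pool.Agent.H914.WeilCohomology
open Pool.Agent.Y133.Half (pw)
open Pool.Agent.Y121.AHS hiding Maps

variable {k : Type u} [Field k] {𝒱 : VarClass k} {ops : CycleOps 𝒱}

section theory

variable (T : HodgeTheory ops) (X : 𝒱.Obj)

/-- The cohomology of `X` with complex coefficients. -/
def CH : Type := HL T.W ℂ X

noncomputable instance instAddCH : AddCommGroup (CH T X) := instAddHL T.W ℂ X

noncomputable instance instModCH : Module ℂ (CH T X) := instModHL T.W ℂ X

/-- The coefficients of the rational cohomology (all elements of this field are rational). -/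
def Co : Type := T.W.K

noncomputable instance instFieldCo : Field (Co T) := (inferInstance : Field T.W.K)

/-- The rational cohomology of `X`. -/
def RH : Type := T.W.H X

noncomputable instance instAddRH : AddCommGroup (RH T X) :=
  addOf (T.W.H X)

noncomputable instance instModRH : Module (Co T) (RH T X) :=
  modOf T.W.K (T.W.H X)

/-- The operators on the rational cohomology of `X`. -/
abbrev ROp : Type := Op (Co T) (RH T X)

/-- Sets of rational classes on all varieties. -/
abbrev Classes : Type (u + 1) := ∀ X : 𝒱.Obj, Set (RH T X)

/-- The Hodge classes. -/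
def hodge : Classes T := fun X => {c | ∃ j, IsHodge T X j c}

/-- The classes of algebraic cycles. -/
def alg : Classes T := fun X => @imagesOf (T.W.H X) _ _ _ (T.W.cl X) X.IsCyc

variable {T X} {Y : 𝒱.Obj}

/-- The element `(2 π i) ^ j c`. -/
noncomputable def tw (j : ℕ) (c : RH T X) : CH T X := twL twoPiI j (emL T.W ℂ c)

/-- The class `c` is of degree `i`. -/
def RDeg (i : ℕ) (c : RH T X) : Prop := InSub (T.W.gr X i) c

/-- The classes `c` of degree `2 j` such that `(2 π i) ^ j c` lies in `D`. -/
def bettiIn (D : Set (CH T X)) : Set (RH T X) := {c | ∃ j, RDeg (2 * j) c ∧ tw j c ∈ D}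

variable (T) in
/-- `D X` is a model for the algebraic de Rham cohomology of `X` over `F`: a graded subspace over
`F` of the cohomology of `X` with complex coefficients which spans this space, is stable under
products and pull-backs and contains the classes `(2 π i) ^ j cl(z)` of the algebraic cycles `z` of
codimension `j`, and on which the values of the trace lie in `(2 π i) ^ dim X F`. -/
structure IsDeRham (F : Subfield ℂ) (D : ∀ X : 𝒱.Obj, Set (CH T X)) : Prop where
  form : ∀ X, IsForm F (D X)
  graded : ∀ X, @IsGraded (CH T X) (instAddCH T X) IsDeg (2 * X.dim + 1) (D X)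
  mul : ∀ X, Stable mulL (D X)
  cyc : ∀ X j, ∀ z : X.Cycles, X.IsCyc j z → tw j (T.W.cl X z) ∈ D X
  tr : ∀ X, ValuesIn F (twoPiI ^ X.dim) trL (D X)
  map : ∀ (X Y : 𝒱.Obj) (f : X ⟶ Y), Maps (mapL f) (D Y) (D X)

end theory

/-- Hodge theories together with the algebraic de Rham cohomology: `F` is the field of the
algebraic numbers in the field of the complex numbers, and `D X` is the algebraic de Rham
cohomology of `X` over `F`, inside the cohomology of `X` with complex coefficients. -/
structure Theory (ops : CycleOps 𝒱) where
  T : HodgeTheory ops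
  F : Subfield ℂ
  algebraic : ∀ z : ℂ, z ∈ F ↔ IsAlgebraic ℚ z
  D : ∀ X : 𝒱.Obj, Set (CH T X)
  deRham : IsDeRham T F D

variable (S : Theory ops)

/-- The de Rham-Betti classes: the classes `c` of degree `2 j` such that `(2 π i) ^ j c` lies in the
algebraic de Rham cohomology. -/
def drb : Classes S.T := fun X => bettiIn (S.D X)

/-- The periods of `X`: the values of the rational functionals on the cohomology of `X` (the
rational homology classes) on the algebraic de Rham cohomology classes. -/
def periods (X : 𝒱.Obj) : Set ℂ := valuesOn (S.D X)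

variable {T : HodgeTheory ops} {X Y : 𝒱.Obj}

/-- The product of two classes. -/
noncomputable def mu (a b : RH T X) : RH T X := @mulOf (T.W.H X) _ a b

/-- The pull-back. -/
noncomputable def pull (f : X ⟶ Y) (x : RH T Y) : RH T X :=
  @valM T.W.K (T.W.H Y) (T.W.H X) _ _ _ _ _ (T.W.map f) x

/-- The push-forward. -/
noncomputable def push (f : X ⟶ Y) (x : RH T X) : RH T Y :=
  @valL T.W.K (T.W.H X) (T.W.H Y) _ _ _ _ _ (T.W.push f) x

/-- The trace. -/
noncomputable def trace (x : RH T X) : Co T := @valT T.W.K (T.W.H X) _ _ _ (T.W.tr X) x

/-- The classes which belong to `R` and to `R'`. -/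
def meet (R R' : Classes T) : Classes T := fun X => R X ∩ R' X

/-- The classes in `R` on all powers of `X` belong to `R'`. -/
def Sub (R R' : Classes T) (X : 𝒱.Obj) : Prop := ∀ n, R (pw X n) ⊆ R' (pw X n)

/-- The dimension of the space spanned by the classes in `R` on the product of `n + 1` copies of
`X`. -/
noncomputable def dimOn (R : Classes T) (X : 𝒱.Obj) (n : ℕ) : ℕ := spanDim (Co T) (R (pw X n))

/-- The quotients of the dimension of the space spanned by `R` on the product of `n + 1` copies of
`X` by the dimension of the space spanned by `C` converge to `N`. -/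
def IndexIs (R C : Classes T) (X : 𝒱.Obj) (N : ℕ∞) : Prop := HasIndex (dimOn R X) (dimOn C X) N

/-- The image `pr₂_* (z · pr₁^* c)` of the class `c` on `X` under the correspondence `z`. -/
noncomputable def image (z : RH T (X.prod Y)) (c : RH T X) : RH T Y :=
  push (snd X Y) (mu z (pull (fst X Y) c))

/-- The operator `φ` is a correspondence given by elements of `R` on `X × X`. -/
def IsOp (R : Classes T) (X : 𝒱.Obj) (φ : ROp T X) : Prop := GivenBy image (R (X.prod X)) φ

/-- The operator `A` lies in the centre of the algebra of the operators given by `R`. -/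
def Central (R : Classes T) (X : 𝒱.Obj) (A : ROp T X) : Prop := CentralIn (IsOp R X) A

/-- No nonzero element of the centre of the algebra of the operators given by `R` is
skew-symmetric. -/
def NoCentralSkew (R : Classes T) (X : 𝒱.Obj) : Prop := NoSkew mu trace (Central R X)

/-- The operator `u` is given by elements of `R` and is a polarisation of the cohomology of `X`. -/
def PolarisedBy (R : Classes T) (X : 𝒱.Obj) (u : ROp T X) : Prop :=
  IsOp R X u ∧ ∀ C, @IsWeil (CH T X) _ (instModCH T X) (T.pq X) C →
    @IsPositive (CH T X) _ (instModCH T X) (RH T X) (emL T.W ℂ) mulL trL C u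

/-- The external product of two classes. -/
noncomputable def cross (a : RH T X) (b : RH T Y) : RH T (X.prod Y) :=
  mu (pull (fst X Y) a) (pull (snd X Y) b)

/-- The operators `E m` on the cohomology of the product of `m + 1` copies of `X` are the
derivations given by the operator `A`: `E 0 = A` and `E (m + 1) (a × b) = E m a × b + a × A b`. -/
def IsDer (A : ROp T X) (E : ∀ m, ROp T (pw X m)) : Prop :=
  E 0 = A ∧ ∀ m, @Leibniz (Co T) (RH T X) (RH T (pw X m)) (RH T ((pw X m).prod X)) _ _ _ _ _
    (instAddRH T _) (instModRH T _) cross (E m) A (E (m + 1))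

/-- The derivation given by the operator `A` kills the elements of `R` on the product of `m + 1`
copies of `X`. -/
def Kills (R : Classes T) (X : 𝒱.Obj) (A : ROp T X) (m : ℕ) : Prop :=
  ∀ E, IsDer A E → Kill (R (pw X m)) (E m)

/-- The Lie algebra of the operators on the cohomology of `X` which kill the classes in `R` on all
powers of `X`. -/
def lie (R : Classes T) (X : 𝒱.Obj) : Set (ROp T X) := {A | ∀ m, Kills R X A m}

/-- The dimension of the Lie algebra of the operators which kill the classes in `R`. -/
noncomputable def lieDim (R : Classes T) (X : 𝒱.Obj) : ℕ := opDim (lie R X)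

/-- The zero-one law for the index `N` of the classes in `R` over the classes which are in `R` and
in `R'`, on the powers of `X`. -/
structure ZeroOne (R R' : Classes T) (X : 𝒱.Obj) (N : ℕ∞) : Prop where
  index : IndexIs R (meet R R') X N
  zeroOne : N = 1 ∨ N = ⊤
  one : N = 1 ↔ Sub R R' X
  infinitesimal : N = 1 ↔ lie (meet R R') X ⊆ lie R X

/-- The fourth power of `X` decides whether all classes in `R` on all powers of `X` belong
to `R'`. -/
structure Fourth (R R' : Classes T) (X : 𝒱.Obj) : Prop where
  criterion : Sub R R' X ↔ (∀ A ∈ lie (meet R R') X, Kills R X A 3) ∧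
    ∀ A ∈ lie (meet R R') X, Central R X A → A ∈ lie R X
  enough : R (pw X 3) ⊆ R' (pw X 3) → NoCentralSkew (meet R R') X → Sub R R' X

end Pool.Agent.Q67.TP.S
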