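import Pool.Agent.Q67.TP.Core
import Pool.Agent.Q67.TP.Closed
import Pool.Agent.Q67.TP.Defs
import Pool.Agent.Q67.TG.FConv
import Pool.Agent.Q67.TL.FConv

/-!
# Hodge classes, de Rham-Betti classes and periods: comparison of the definitions
-/

set_option autoImplicit false
set_option linter.unusedSectionVars false

open CategoryTheory AlgebraicGeometry TensorProduct Filter Topology

universe u v w

namespace Pool.Agent.Q67.TP.S

open Pool.Agent.H914 Pool.Agent.H914.VarClass Pool.Agent.H914.VarClass.Obj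
  Pool.Agent.H914.WeilCohomology
open Pool.Agent.Y133.Half hiding prj extOp_xp tateDim
open Pool.Agent.Y133.Per
open Pool.Agent.Q67.Det Pool.Agent.Q67.TK
open Pool.Agent.Q67.TG
open Pool.Agent.W458.MF Pool.Agent.W536.RR Pool.Agent.H281R3.HT
open Pool.Agent.Y121 Pool.Agent.Y121.AHS
open Pool.Agent.Q67.TP

variable {k : Type u} [Field k] {𝒱 : VarClass k} {ops : CycleOps 𝒱} {T : HodgeTheory ops}
  {S : Theory ops} {X Y Z : 𝒱.Obj}

/-! ### The de Rham structure -/

/-- a complex class in the library -/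
def tb (b : CH T X) : Base (toH T).W.K ((toH T).W.H X) := b

/-- a complex class -/
def bt (b : Base (toH T).W.K ((toH T).W.H X)) : CH T X := b

lemma tw_eq (j : ℕ) (c : RH T X) :
    tb (tw j c) = (twist j (show (toH T).W.H X from c) : Base (toH T).W.K ((toH T).W.H X)) := by
  have h1 : (tm (twoPiI ^ j) (show (toH T).W.H X from c) : Base (toH T).W.K ((toH T).W.H X)) =
      (twoPiI ^ j) • tm (1 : ℂ) (show (toH T).W.H X from c) := by rw [smul_tm, mul_one]
  exact h1.symm

lemma mem_of_tb {D : Set (CH T X)} {b : CH T X} {b' : Base (toH T).W.K ((toH T).W.H X)}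
    (hb : b ∈ D) (h : tb b = b') : bt b' ∈ D := by
  subst h
  exact hb

lemma isForm_sum {H : Type} [AddCommGroup H] [Module ℂ H] {F : Subfield ℂ} {S : Set H}
    (h : IsForm F S) {ι : Type} (s : Finset ι) (f : ι → H) (hf : ∀ i, f i ∈ S) :
    ∑ i ∈ s, f i ∈ S :=
  Finset.sum_induction _ (fun x => x ∈ S) (fun a b ha hb => h.add a ha b hb) h.zero
    fun i _ => hf i

/-- the de Rham structure in the library -/
noncomputable def DD (S : Theory ops) : DeRham (toH S.T).W S.F where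
  dR X := S.D X
  form X :=
    { zero := (S.deRham.form X).zero
      add := (S.deRham.form X).add
      smul := (S.deRham.form X).smul
      scal := fun r => by
        obtain ⟨q, hq⟩ := S.T.rat r
        have h1 : algebraMap (toH S.T).W.K ℂ r = (q : ℂ) := by
          have h2 : algebraMap S.T.W.K ℂ (q : S.T.W.K) = (q : ℂ) := map_ratCast _ _
          rw [hq] at h2
          exact h2
        rw [h1]
        exact SubfieldClass.ratCast_mem S.F q
      span := (S.deRham.form X).span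
      mul := S.deRham.mul X
      cyc := by
        rintro j _ ⟨z, hz, rfl⟩
        have h1 := S.deRham.cyc X j z hz
        have h2 := tw_eq (T := S.T) j (show RH S.T X from S.T.W.cl X z)
        exact mem_of_tb h1 h2
      tr := S.deRham.tr X }
  map {X Y} f a ha := by
    have h1 := S.deRham.map X Y f a ha
    have h2 := map_eq S.T.W ℂ f a
    exact h2 ▸ h1

lemma isDeg_grB {i : ℕ} {b : CH T X} (h : IsDeg i b) : tb b ∈ grB (toH T).W X i := h

lemma graded_S (S : Theory ops) : Graded (DD S) := by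
  intro X i a ha
  obtain ⟨b', hb', h'⟩ := S.deRham.graded X a ha
  obtain ⟨b, hb, hg, h⟩ : ∃ b : ℕ → Base (toH S.T).W.K ((toH S.T).W.H X),
      (∀ i, b i ∈ (DD S).dR X) ∧ (∀ i, b i ∈ grB (toH S.T).W X i) ∧
        a = ∑ i ∈ Finset.range (2 * X.dim + 1), b i :=
    ⟨fun i => tb (b' i), fun i => (hb' i).1, fun i => isDeg_grB (hb' i).2, h'⟩
  have h0 : ∀ j, cpt (toH S.T).W X i (b j) = if j = i then b j else 0 := by
    intro j
    split_ifs with h
    · subst h
      exact cpt_same (hg j)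
    · exact cpt_ne (hg j) h
  have h1 : cpt (toH S.T).W X i (∑ j ∈ Finset.range (2 * X.dim + 1), b j) =
      if i ∈ Finset.range (2 * X.dim + 1) then b i else 0 := by
    rw [map_sum, Finset.sum_congr rfl fun j _ => h0 j, Finset.sum_ite_eq']
  rw [h, h1]
  split_ifs
  · exact hb i
  · exact ((DD S).form X).zero

/-- the action of the derivations -/
noncomputable abbrev aa (S : Theory ops) : LieAct.{u, 0, 0} (baseW (toH S.T).W ℂ) :=
  𝔡 (D := DD S) S.algebraic (graded_S S)

/-- the classes which are Hodge classes and de Rham-Betti classes -/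
noncomputable abbrev Bp (S : Theory ops) : ClassPred (toH S.T).W := bothP (aa S)

lemma Bp_iff {j : ℕ} {c : (toH S.T).W.H Z} : (Bp S).P Z j c ↔
    (AH.hodgePred (toH S.T)).P Z j c ∧ IsDRB (DD S) Z j c := by
  constructor
  · intro h
    exact ⟨h.1, drb_of_killed S.algebraic (graded_S S) h.1.1 h.2⟩
  · intro h
    exact ⟨h.1, drb_killed S.algebraic (graded_S S) h.2⟩

/-- The classes in `R` are the classes with the property `Q`. -/
def Ex (R : Classes S.T) (Q : ClassPred (toH S.T).W) : Prop :=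
  ∀ (Z : 𝒱.Obj) (c : RH S.T Z), c ∈ R Z ↔ ∃ j, Q.P Z j (show (toH S.T).W.H Z from c)

lemma P_of_ex {Q : ClassPred (toH S.T).W} {j : ℕ} {c : (toH S.T).W.H Z} (h : ∃ j, Q.P Z j c)
    (hg : c ∈ (toH S.T).W.gr Z (2 * j)) : Q.P Z j c := by
  obtain ⟨i, hi⟩ := h
  have h1 := ClassPred.sp_proj (Q := Q) (ClassPred.sp_of hi) j
  rwa [proj_same _ hg] at h1

lemma ex_hodge : Ex (hodge S.T) (AH.hodgePred (toH S.T)) := fun _ _ => Iff.rfl

lemma ex_drb : Ex (drb S) (drbPred (DD S)) := by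
  intro Z c
  have key : ∀ j, (tw j c ∈ S.D Z) ↔
      (twist j (show (toH S.T).W.H Z from c) : Base (toH S.T).W.K ((toH S.T).W.H Z)) ∈
        (DD S).dR Z := by
    intro j
    have h1 := tw_eq (T := S.T) j c
    rw [← h1]
    exact Iff.rfl
  constructor
  · rintro ⟨j, h1, h2⟩
    exact ⟨j, h1, (key j).1 h2⟩
  · rintro ⟨j, h1, h2⟩
    exact ⟨j, h1, (key j).2 h2⟩

lemma ex_meet {R R' : Classes S.T} {Q Q' Q'' : ClassPred (toH S.T).W} (h : Ex R Q) (h' : Ex R' Q')
    (h'' : ∀ {Z : 𝒱.Obj} {j : ℕ} {c : (toH S.T).W.H Z}, Q''.P Z j c ↔ Q.P Z j c ∧ Q'.P Z j c) :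
    Ex (meet R R') Q'' := by
  intro Z c
  constructor
  · rintro ⟨h1, h2⟩
    obtain ⟨j, hj⟩ := (h Z c).1 h1
    exact ⟨j, h''.2 ⟨hj, P_of_ex ((h' Z c).1 h2) (Q.gr hj)⟩⟩
  · rintro ⟨j, hj⟩
    exact ⟨(h Z c).2 ⟨j, (h''.1 hj).1⟩, (h' Z c).2 ⟨j, (h''.1 hj).2⟩⟩

lemma ex_both : Ex (meet (hodge S.T) (drb S)) (Bp S) := ex_meet ex_hodge ex_drb Bp_iff

lemma ex_both' : Ex (meet (drb S) (hodge S.T)) (Bp S) :=
  ex_meet ex_drb ex_hodge (Bp_iff.trans And.comm)

/-! ### The conversion -/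

variable (T) in
/-- the rational theory -/
noncomputable abbrev VV : WeilCohomology.{u, 0} ops := (toH T).W

/-- A class in the library. -/
def cc (x : RH T X) : (VV T).H X := x

/-- a class -/
def dc (x : (VV T).H X) : RH T X := x

/-- An operator in the library. -/
noncomputable def oo (φ : ROp T X) : Module.End (VV T).K ((VV T).H X) := φ

/-- An operator. -/
noncomputable def uu (φ : Module.End (VV T).K ((VV T).H X)) : ROp T X := φ

lemma image_eq {z : RH T (Y.prod Z)} {c : RH T Y} :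
    image z c = dc ((VV T).corr (cc z) (cc c)) := rfl

lemma cross_eq (a : RH T Y) (b : RH T X) :
    cc (cross a b) = Det.cross (VV T) (cc a) (cc b) := rfl

section rep

variable {R R' C : Classes T} {Q Q' : ClassPred (toH T).W}

/-- The classes in `R` span the spaces given by `Q`. -/
structure Rp (R : Classes T) (Q : ClassPred (toH T).W) : Prop where
  of : ∀ {Z : 𝒱.Obj} {c : RH T Z}, c ∈ R Z → ∃ j, Q.P Z j (cc c)
  sp : ∀ {Z : 𝒱.Obj} {j : ℕ} {c : (toH T).W.H Z}, Q.P Z j c →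
    dc c ∈ Submodule.span (Co T) (R Z)

lemma Ex.rp {R : Classes S.T} {Q : ClassPred (toH S.T).W} (h : Ex R Q) : Rp R Q :=
  ⟨fun {Z c} hc => (h Z c).1 hc, fun {Z j c} hc => Submodule.subset_span ((h Z c).2 ⟨j, hc⟩)⟩

lemma Rp.span_iff (h : Rp R Q) {c : RH T Z} :
    c ∈ Submodule.span (Co T) (R Z) ↔ cc c ∈ Q.sys.C Z := by
  constructor
  · intro hc
    induction hc using Submodule.span_induction with
    | mem x hx =>
      obtain ⟨j, hj⟩ := h.of hx
      exact ClassPred.sp_of (Q := Q) hj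
    | zero => exact Submodule.zero_mem _
    | add x y _ _ hx hy => exact Submodule.add_mem _ hx hy
    | smul r x _ hx => exact Submodule.smul_mem _ _ hx
  · intro hc
    refine ClassPred.sp_ind (Q := Q) (q := fun c => dc c ∈ Submodule.span (Co T) (R Z)) ?_ ?_ ?_ hc
    · intro j x hx; exact h.sp hx
    · exact Submodule.zero_mem _
    · intro a b ha hb; exact Submodule.add_mem _ ha hb

lemma Rp.span_eq (h : Rp R Q) (Z : 𝒱.Obj) :
    (show Submodule (VV T).K ((VV T).H Z) from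
      (Submodule.span (Co T) (R Z) : Submodule (Co T) (RH T Z))) = Q.sys.C Z :=
  Submodule.ext fun _ => h.span_iff

lemma Rp.dim_eq (h : Rp R Q) (X : 𝒱.Obj) (n : ℕ) :
    dimOn R X n = dimBy (VV T) Q.P (pw X n) := by
  rw [ClassPred.dimBy_eq, ← h.span_eq]
  rfl

lemma Rp.op_iff (h : Rp R Q) {φ : ROp T X} : IsOp R X φ ↔ oo φ ∈ Q.sys.Op X X := by
  rw [Sys.mem_Op]
  constructor
  · rintro ⟨z, hz, hφ⟩
    refine ⟨cc z, h.span_iff.1 hz, LinearMap.ext fun a => ?_⟩
    have h1 := (hφ (dc a)).trans (image_eq (z := z) (c := dc a))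
    exact h1.symm
  · rintro ⟨z, hz, hφ⟩
    refine ⟨dc z, h.span_iff.2 hz, fun a => ?_⟩
    have h1 : φ a = dc ((VV T).corr z (cc a)) := by
      rw [hφ]
      rfl
    exact h1.trans (image_eq (z := dc z) (c := a)).symm

lemma Rp.central_iff (h : Rp R Q) {A : ROp T X} : Central R X A ↔
    oo A ∈ Q.sys.Op X X ∧ ∀ φ ∈ Q.sys.Op X X, oo A * φ = φ * oo A := by
  constructor
  · rintro ⟨h1, h2⟩
    exact ⟨h.op_iff.1 h1, fun φ hφ => h2 (uu φ) (h.op_iff.2 hφ)⟩
  · rintro ⟨h1, h2⟩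
    exact ⟨h.op_iff.2 h1, fun φ hφ => h2 (oo φ) (h.op_iff.1 hφ)⟩

/-- The derivations given by an operator. -/
lemma isDer_rec {V : WeilCohomology.{u, 0} ops} {A : Module.End V.K (V.H X)}
    {D : ∀ m, Module.End V.K (V.H (pw X m))} (h0 : ∀ x : V.H X, (D 0 : Module.End V.K (V.H X)) x =
      A x) (h1 : ∀ m (a : V.H (pw X m)) (b : V.H X), D (m + 1) (Det.cross V a b) =
      Det.cross V (D m a) b + Det.cross V a (A b)) (m : ℕ) : D m = derOp A m := by
  refine IsDer.eq (W := V) (A := A) ?_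
  intro x
  induction m with
  | zero =>
    rw [Fin.sum_univ_one, ten_zero, ten_zero, Function.update_self]
    exact h0 (x 0)
  | succ m ih =>
    have h2 : D (m + 1) (ten V X (m + 1) x) =
        Det.cross V (D m (ten V X m (Fin.init x))) (x (Fin.last (m + 1))) +
        Det.cross V (ten V X m (Fin.init x)) (A (x (Fin.last (m + 1)))) := h1 m _ _
    rw [h2, ih]
    refine Eq.trans ?_ (Fin.sum_univ_castSucc (n := m + 1) _).symm
    refine congrArg₂ (· + ·) ?_ ?_
    · have h3 : ∀ y : Fin (m + 1) → V.H (pw X m),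
          Det.cross V (∑ i, y i) (x (Fin.last (m + 1))) =
          ∑ i, Det.cross V (y i) (x (Fin.last (m + 1))) := by
        intro y
        simp only [Det.cross, map_sum, Finset.sum_mul]
      rw [h3]
      refine Finset.sum_congr rfl fun i _ => ?_
      rw [ten_succ, init_upd_cast, Function.update_of_ne (Fin.castSucc_lt_last i).ne']
      rfl
    · rw [ten_succ, init_upd_last, Function.update_self]
      rfl

lemma isDer_eq {A : ROp T X} {D : ∀ m, ROp T (pw X m)} (hD : IsDer A D) (m : ℕ) :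
    oo (D m) = derOp (oo A) m :=
  isDer_rec (V := VV T) (D := fun m => oo (D m)) (A := oo A)
    (fun x => congrArg (fun φ : ROp T X => φ x) hD.1) (fun m a b => hD.2 m a b) m

lemma derOp_zero' {V : WeilCohomology.{u, 0} ops} {A : Module.End V.K (V.H X)} (x : V.H X) :
    (derOp A 0 : Module.End V.K (V.H X)) x = A x := by
  have h1 := derOp_ten A (m := 0) (fun _ => x)
  rw [Fin.sum_univ_one, ten_zero, ten_zero, Function.update_self] at h1
  exact h1

lemma isDer_derOp (A : ROp T X) : IsDer A fun m => uu (derOp (oo A) m) :=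
  ⟨LinearMap.ext fun x => derOp_zero' (V := VV T) (A := oo A) x,
    fun m a b => derOp_cross (V := VV T) (oo A) m a b⟩

lemma Rp.kills_iff (h : Rp R Q) {A : ROp T X} {m : ℕ} :
    Kills R X A m ↔ ∀ c ∈ Q.sys.C (pw X m), derOp (oo A) m c = 0 := by
  constructor
  · intro hA c hc
    have h0 := hA _ (isDer_derOp A)
    have h2 : dc c ∈ Submodule.span (Co T) (R (pw X m)) := h.span_iff.2 hc
    have h3 : Submodule.span (Co T) (R (pw X m)) ≤
        LinearMap.ker (uu (derOp (oo A) m)) := Submodule.span_le.2 fun x hx => h0 x hx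
    exact h3 h2
  · intro hA D hD c hc
    have h1 := isDer_eq hD m
    have h2 := hA (cc c) (h.span_iff.1 (Submodule.subset_span hc))
    rw [← h1] at h2
    exact h2

lemma Rp.lie_iff (h : Rp R Q) {A : ROp T X} : A ∈ lie R X ↔ KillsAll Q.sys X (oo A) :=
  forall_congr' fun _ => h.kills_iff

lemma Rp.lieDim_eq (h : Rp R Q) {n : ℕ} (v : Module.Basis (Fin n) (VV T).K ((VV T).H X)) :
    lieDim R X = Module.finrank (VV T).K (Ann (Cs Q.sys v)) := by
  rw [← finrank_ann v]
  have h1 : lie R X = {A : ROp T X | KillsAll Q.sys X (oo A)} := Set.ext fun A => h.lie_iff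
  rw [lieDim, h1]
  rfl

lemma index_of (h : Rp R Q') (hC : Rp C Q) {N : ℕ∞}
    (hN : HasIndex (fun n => dimBy (toH T).W Q'.P (pw X n))
      (fun n => dimBy (toH T).W Q.P (pw X n)) N) : IndexIs R C X N := by
  have hdR : dimOn R X = fun n => dimBy (toH T).W Q'.P (pw X n) := funext fun n => h.dim_eq X n
  have hdC : dimOn C X = fun n => dimBy (toH T).W Q.P (pw X n) :=
    funext fun n => hC.dim_eq X n
  unfold IndexIs
  rw [hdR, hdC]
  exact hN

lemma lie_sub_iff (h : Rp R Q') (hC : Rp C Q) : lie C X ⊆ lie R X ↔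
    ∀ A : Module.End (toH T).W.K ((toH T).W.H X), KillsAll Q.sys X A →
      KillsAll Q'.sys X A := by
  constructor
  · intro h1 A hA
    exact h.lie_iff.1 (h1 (a := uu A) (hC.lie_iff.2 hA))
  · intro h1 A hA
    exact h.lie_iff.2 (h1 (oo A) (hC.lie_iff.1 hA))

end rep

/-- Classes killed by the operators which kill a closed system belong to the system. -/
theorem le_of_closed {T : AH.HodgeTheory ops} {Q R : ClassPred T.W} {X : 𝒱.Obj}
    (hcl : Closed Q X)
    (h : ∀ A : Module.End T.W.K (T.W.H X), KillsAll Q.sys X A → KillsAll R.sys X A)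
    {m j : ℕ} {c : T.W.H (pw X m)} (hc : R.P (pw X m) j c) : Q.P (pw X m) j c := by
  obtain ⟨n, v, d, hd⟩ := exists_homog_basis T.W X
  obtain ⟨F, rfl⟩ := PP_surj v c
  have h1 : F ∈ Cs R.sys v (m + 1) := mem_Cs_succ.2 (ClassPred.sp_of (Q := R) hc)
  have h2 : F ∈ Cs Q.sys v (m + 1) :=
    hcl n v (m + 1) F fun A hA => ann_mono h hA (m + 1) F h1
  have h3 := ClassPred.sp_proj (Q := Q) (mem_Cs_succ.1 h2) j
  rwa [proj_same _ (R.gr hc)] at h3

/-- **The zero-one law for a system over a closed system.** -/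
theorem zo_closed {T : AH.HodgeTheory ops} {Q R : ClassPred T.W} {X : 𝒱.Obj}
    (hQR : ∀ {Z : 𝒱.Obj} {j : ℕ} {c : T.W.H Z}, Q.P Z j c → R.P Z j c)
    (hcl : Closed Q X) (P : PolData T Q.sys X) [Nontrivial (T.W.H X)] :
    ∃ N : ℕ∞, HasIndex (fun n => dimBy T.W R.P (pw X n)) (fun n => dimBy T.W Q.P (pw X n)) N ∧
      (N ≠ ⊤ → N = 1) ∧ (N = 1 ↔ ∀ n j c, R.P (pw X n) j c → Q.P (pw X n) j c) ∧
      (N = 1 ↔ ∀ A : Module.End T.W.K (T.W.H X), KillsAll Q.sys X A → KillsAll R.sys X A) := by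
  obtain ⟨N, -, h2, h3, -, -, h6⟩ := masterR hQR P
  have h7 : N ≠ ⊤ → N = 1 := fun h => h3.2 fun n j c hc => le_of_closed hcl (h6.1 h) hc
  refine ⟨N, h2, h7, h3, ⟨fun h => h6.1 ?_, fun h => h7 (h6.2 h)⟩⟩
  rw [h]
  exact ENat.one_ne_top

section main

variable {R R' : Classes S.T} {Q : ClassPred (toH S.T).W}

lemma sub_iff (hR : Ex R Q) (hM : Ex (meet R R') (Bp S)) : Sub R R' X ↔
    ∀ n j c, Q.P (pw X n) j c → (Bp S).P (pw X n) j c := by
  constructor
  · intro h n j c hc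
    have h1 : (show RH S.T (pw X n) from c) ∈ R (pw X n) := (hR _ _).2 ⟨j, hc⟩
    exact P_of_ex (Q := Bp S) ((hM _ _).1 ⟨h1, h n h1⟩) (Q.gr hc)
  · intro h n c hc
    obtain ⟨j, hj⟩ := (hR _ _).1 hc
    exact ((hM _ _).2 ⟨j, h n j _ hj⟩).2

theorem zeroOne_of (hR : Ex R Q) (hM : Ex (meet R R') (Bp S))
    (hBQ : ∀ {Z : 𝒱.Obj} {j : ℕ} {c : (toH S.T).W.H Z}, (Bp S).P Z j c → Q.P Z j c)
    (P : PolData (toH S.T) (Bp S).sys X) [Nontrivial ((toH S.T).W.H X)] :
    ∃ N, ZeroOne R R' X N := by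
  obtain ⟨N, h1, h2, h3, h4⟩ := zo_closed hBQ (closed_both (aa S) X) P
  refine ⟨N, index_of hR.rp hM.rp h1, ?_, h3.trans (sub_iff hR hM).symm,
    h4.trans (lie_sub_iff hR.rp hM.rp).symm⟩
  by_cases h5 : N = ⊤
  · exact Or.inr h5
  · exact Or.inl (h2 h5)

/-- The fourth power of `X` for the Hodge classes. -/
theorem fourth_hodge (P : PolData (toH S.T) (Bp S).sys X) [Nontrivial ((toH S.T).W.H X)] :
    Fourth (hodge S.T) (drb S) X := by
  obtain ⟨N, h1, h2, h3, h4⟩ := zo_closed (T := toH S.T) (Q := Bp S)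
    (R := AH.hodgePred (toH S.T)) (fun h => both_hodge h) (closed_both (aa S) X) P
  have hH := (ex_hodge (S := S)).rp
  have hB := (ex_both (S := S)).rp
  have h5 : Sub (hodge S.T) (drb S) X ↔ ∀ A : Module.End (toH S.T).W.K ((toH S.T).W.H X),
      KillsAll (Bp S).sys X A → KillsAll (AH.hodgePred (toH S.T)).sys X A :=
    (sub_iff ex_hodge ex_both).trans (h3.symm.trans h4)
  refine ⟨h5.trans ⟨fun h => ⟨fun A hA => hH.kills_iff.2 (h A (hB.lie_iff.1 hA) 3),
    fun A hA _ => hH.lie_iff.2 (h A (hB.lie_iff.1 hA))⟩, ?_⟩, fun h hs => h5.2 ?_⟩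
  · rintro ⟨h6, h7⟩ A hA
    have h8 : ∀ A, KillsAll (Bp S).sys X A → uu A ∈ lie (meet (hodge S.T) (drb S)) X :=
      fun A hA => (hB.lie_iff (A := uu A)).2 hA
    exact kill_of_four_R P (fun h => both_hodge h) (fun h => h) (closed_hodge X)
      (fun A hA => (hH.kills_iff (A := uu A)).1 (h6 (uu A) (h8 A hA)))
      (fun A hA h1 h2 => (hH.lie_iff (A := uu A)).1
        (h7 (uu A) (h8 A hA) ((hH.central_iff (A := uu A)).2 ⟨h1, h2⟩))) hA
  · intro A hA
    refine four_enough P (fun h => both_hodge h) (fun h => h) (closed_hodge X) ?_ ?_ hA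
    · intro j c hc
      have h1 : (show RH S.T (pw X 3) from c) ∈ hodge S.T (pw X 3) := ⟨j, hc⟩
      exact P_of_ex ((ex_both _ _).1 ⟨h1, h h1⟩) hc.1
    · intro A hA1 hA2 hA3
      exact hs (uu A) ((hB.central_iff (A := uu A)).2 ⟨hA1, hA2⟩) hA3

/-- The polarisation data. -/
noncomputable def polB {u : ROp S.T X} (h : PolarisedBy (meet (hodge S.T) (drb S)) X u) :
    PolData (toH S.T) (Bp S).sys X where
  le _ := ClassPred.sys_le (fun h => both_hodge h) _
  uu := oo u
  mem := (ex_both (S := S)).rp.op_iff.1 h.1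
  odd := odd_both X
  pol := pol_of (T := S.T) (X := X) fun C hC r c a => h.2 C hC r c a

variable {C : Classes S.T}

/-- **The bound for the transcendence degree.** -/
theorem trdeg_le (hC : Rp C Q) (hQ : ∀ {Z : 𝒱.Obj} {j : ℕ} {c : (toH S.T).W.H Z}, Q.P Z j c →
      IsDRB (DD S) Z j c) : trdegOf (periods S X) ≤ (lieDim C X + 1 : ℕ) := by
  obtain ⟨n, v, d, hd⟩ := exists_homog_basis (toH S.T).W X
  rw [hC.lieDim_eq v]
  exact (trdeg_le_of fun r x hx hind =>
    trdeg_le_ann (D := DD S) S.algebraic (graded_S S) v hQ hx hind).1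

/-- **Equality.** -/
theorem lie_of_trdeg (hC : Rp C Q) (hQ : ∀ {Z : 𝒱.Obj} {j : ℕ} {c : (toH S.T).W.H Z}, Q.P Z j c →
      IsDRB (DD S) Z j c) (h : trdegOf (periods S X) = (lieDim C X + 1 : ℕ)) :
    lie C X ⊆ lie (drb S) X := by
  obtain ⟨n, v, d, hd⟩ := exists_homog_basis (toH S.T).W X
  rw [hC.lieDim_eq v] at h
  obtain ⟨x, hx, hind⟩ := (trdeg_le_of fun r x hx hind =>
    trdeg_le_ann (D := DD S) S.algebraic (graded_S S) v hQ hx hind).2 h
  refine (lie_sub_iff (ex_drb (S := S)).rp hC).2 fun A hA => ?_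
  exact kill_of_trdeg (D := DD S) S.algebraic (graded_S S) v hQ hx hind le_rfl (fun h => h) hA

end main

end Pool.Agent.Q67.TP.S
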