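import Pool.Agent.Q67.TP.Final
import Pool.Agent.Q67.TP.LDefs

/-!
# Systems of classes and de Rham-Betti classes: comparison of the definitions
-/

set_option autoImplicit false
set_option linter.unusedSectionVars false

open CategoryTheory AlgebraicGeometry TensorProduct Filter Topology

universe u v w

namespace Pool.Agent.Q67.TP.S

open Pool.Agent.H914 Pool.Agent.H914.VarClass Pool.Agent.H914.VarClass.Obj
  Pool.Agent.H914.WeilCohomology
open Pool.Agent.Y133.Half hiding prj extOp_xp tateDim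
open Pool.Agent.Y133.Per
open Pool.Agent.Q67.Det Pool.Agent.Q67.TK
open Pool.Agent.Q67.TG
open Pool.Agent.W458.MF Pool.Agent.W536.RR Pool.Agent.H281R3.HT
open Pool.Agent.Y121 Pool.Agent.Y121.AHS
open Pool.Agent.Q67.TP

variable {k : Type u} [Field k] {𝒱 : VarClass k} {ops : CycleOps 𝒱} {T : HodgeTheory ops}
  {S : Theory ops} {X Y Z : 𝒱.Obj}

section sys

variable {C : Classes S.T} (hC : IsSystem S C)

include hC

lemma sys_mul {a b : (VV S.T).H X} (ha : dc a ∈ Submodule.span (Co S.T) (C X))
    (hb : dc b ∈ Submodule.span (Co S.T) (C X)) :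
    dc (a * b) ∈ Submodule.span (Co S.T) (C X) := by
  have key : ∀ a ∈ Submodule.span (Co S.T) (C X), ∀ b ∈ Submodule.span (Co S.T) (C X),
      dc (cc a * cc b) ∈ Submodule.span (Co S.T) (C X) := by
    intro a ha b hb
    induction ha using Submodule.span_induction with
    | mem a ha =>
      induction hb using Submodule.span_induction with
      | mem b hb => exact Submodule.subset_span ((hC.1 X).2.2 _ ha _ hb)
      | zero =>
        have h : dc (cc a * cc (0 : RH S.T X)) = (0 : RH S.T X) := mul_zero (cc a)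
        rw [h]; exact Submodule.zero_mem _
      | add x y _ _ hx hy =>
        have h : dc (cc a * cc (x + y)) = dc (cc a * cc x) + dc (cc a * cc y) :=
          mul_add (cc a) (cc x) (cc y)
        rw [h]; exact Submodule.add_mem _ hx hy
      | smul r x _ hx =>
        have h : dc (cc a * cc (r • x)) = r • dc (cc a * cc x) :=
          mul_smul_comm (show (VV S.T).K from r) (cc a) (cc x)
        rw [h]; exact Submodule.smul_mem _ _ hx
    | zero =>
      have h : dc (cc (0 : RH S.T X) * cc b) = (0 : RH S.T X) := zero_mul (cc b)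
      rw [h]; exact Submodule.zero_mem _
    | add x y _ _ hx hy =>
      have h : dc (cc (x + y) * cc b) = dc (cc x * cc b) + dc (cc y * cc b) :=
        add_mul (cc x) (cc y) (cc b)
      rw [h]; exact Submodule.add_mem _ hx hy
    | smul r x _ hx =>
      have h : dc (cc (r • x) * cc b) = r • dc (cc x * cc b) :=
        smul_mul_assoc (show (VV S.T).K from r) (cc x) (cc b)
      rw [h]; exact Submodule.smul_mem _ _ hx
  exact key _ ha _ hb

lemma sys_map (f : X ⟶ Y) {a : (VV S.T).H Y} (ha : dc a ∈ Submodule.span (Co S.T) (C Y)) :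
    dc ((VV S.T).map f a) ∈ Submodule.span (Co S.T) (C X) := by
  have key : ∀ a ∈ Submodule.span (Co S.T) (C Y),
      dc ((VV S.T).map f (cc a)) ∈ Submodule.span (Co S.T) (C X) := by
    intro a ha
    induction ha using Submodule.span_induction with
    | mem a ha => exact Submodule.subset_span ((hC.2 X Y f).1 _ ha)
    | zero =>
      have h : dc ((VV S.T).map f (cc (0 : RH S.T Y))) = (0 : RH S.T X) :=
        map_zero ((VV S.T).map f)
      rw [h]; exact Submodule.zero_mem _
    | add x y _ _ hx hy =>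
      have h : dc ((VV S.T).map f (cc (x + y))) =
          dc ((VV S.T).map f (cc x)) + dc ((VV S.T).map f (cc y)) :=
        map_add ((VV S.T).map f) (cc x) (cc y)
      rw [h]; exact Submodule.add_mem _ hx hy
    | smul r x _ hx =>
      have h : dc ((VV S.T).map f (cc (r • x))) = r • dc ((VV S.T).map f (cc x)) :=
        map_smul ((VV S.T).map f) (show (VV S.T).K from r) (cc x)
      rw [h]; exact Submodule.smul_mem _ _ hx
  exact key _ ha

lemma sys_push (f : X ⟶ Y) {a : (VV S.T).H X} (ha : dc a ∈ Submodule.span (Co S.T) (C X)) :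
    dc ((VV S.T).push f a) ∈ Submodule.span (Co S.T) (C Y) := by
  have key : ∀ a ∈ Submodule.span (Co S.T) (C X),
      dc ((VV S.T).push f (cc a)) ∈ Submodule.span (Co S.T) (C Y) := by
    intro a ha
    induction ha using Submodule.span_induction with
    | mem a ha => exact Submodule.subset_span ((hC.2 X Y f).2 _ ha)
    | zero =>
      have h : dc ((VV S.T).push f (cc (0 : RH S.T X))) = (0 : RH S.T Y) :=
        map_zero ((VV S.T).push f)
      rw [h]; exact Submodule.zero_mem _
    | add x y _ _ hx hy =>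
      have h : dc ((VV S.T).push f (cc (x + y))) =
          dc ((VV S.T).push f (cc x)) + dc ((VV S.T).push f (cc y)) :=
        map_add ((VV S.T).push f) (cc x) (cc y)
      rw [h]; exact Submodule.add_mem _ hx hy
    | smul r x _ hx =>
      have h : dc ((VV S.T).push f (cc (r • x))) = r • dc ((VV S.T).push f (cc x)) :=
        map_smul ((VV S.T).push f) (show (VV S.T).K from r) (cc x)
      rw [h]; exact Submodule.smul_mem _ _ hx
  exact key _ ha

/-- The system as a system in the library. -/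
noncomputable def sysOf : ClassPred (VV S.T) where
  P X j c := dc c ∈ Submodule.span (Co S.T) (C X) ∧ c ∈ (VV S.T).gr X (2 * j)
  gr h := h.2
  zero := ⟨Submodule.zero_mem _, Submodule.zero_mem _⟩
  add ha hb := ⟨Submodule.add_mem _ ha.1 hb.1, Submodule.add_mem _ ha.2 hb.2⟩
  smul r _ h := ⟨Submodule.smul_mem _ r h.1, Submodule.smul_mem _ r h.2⟩
  cl {X j z} hz := ⟨Submodule.subset_span ((hC.1 X).1 ⟨j, z, hz, rfl⟩), S.T.W.cl_mem hz⟩
  mul ha hb := ⟨sys_mul hC ha.1 hb.1, by
    rw [mul_add]; exact (VV S.T).mul_mem ha.2 hb.2⟩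
  map f _ _ h := ⟨sys_map hC f h.1, (VV S.T).map_mem f h.2⟩
  push {X Y} f {j l} hl {a} h := ⟨sys_push hC f h.1, AH.push_gr f hl h.2⟩

lemma sys_both {Z : 𝒱.Obj} {j : ℕ} {c : (VV S.T).H Z} (hc : (sysOf hC).P Z j c) :
    (Bp S).P Z j c := by
  have h1 : c ∈ (Bp S).sys.C Z :=
    (ex_both (S := S)).rp.span_iff.1
      (Submodule.span_mono (fun x hx => (hC.1 Z).2.1 hx) hc.1)
  have h2 := ClassPred.sp_proj (Q := Bp S) h1 j
  rwa [proj_same _ hc.2] at h2

lemma rp_sys : Rp C (sysOf hC) where
  of {Z c} hc := by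
    obtain ⟨j, hj⟩ := (ex_both (S := S) Z c).1 ((hC.1 Z).2.1 hc)
    exact ⟨j, Submodule.subset_span hc, (Bp S).gr hj⟩
  sp hc := hc.1

end sys

section law

variable {R C : Classes T} {Q Q' : ClassPred (VV T)}

lemma in_iff (hR : Rp R Q') (hC : Rp C Q) :
    In R C Z ↔ ∀ j c, Q'.P Z j c → Q.P Z j c := by
  constructor
  · intro h j c hc
    have h1 : dc c ∈ Submodule.span (Co T) (C Z) :=
      (Submodule.span_le.2 fun x hx => h x hx : Submodule.span (Co T) (R Z) ≤ _) (hR.sp hc)
    have h2 := ClassPred.sp_proj (Q := Q) (hC.span_iff.1 h1) j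
    rwa [cc, dc, proj_same _ (Q'.gr hc)] at h2
  · intro h c hc
    obtain ⟨j, hj⟩ := hR.of hc
    exact hC.sp (h j _ hj)

/-- The generators. -/
lemma generated_of (hR : ∀ (Z : 𝒱.Obj) (c : RH T Z), c ∈ R Z ↔ ∃ j, Q'.P Z j (cc c))
    (hC : Rp C Q) {N : ℕ∞} (hN : GeneratedOver (VV T) Q.P Q'.P X N) : Generated R C X N := by
  obtain ⟨r, c, hr, hc, hG⟩ := hN
  refine ⟨r, fun i => (c i).1, fun i => dc (c i).2, hr, fun i => ?_, fun n x hx => ?_⟩
  · exact (hR _ _).2 (hc i)
  obtain ⟨j, hj⟩ := (hR _ _).1 hx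
  have h1 := hG n j _ hj
  have key : ∀ y : (VV T).H (pw X n), y ∈ genOver (VV T) Q.P X c n →
      dc y ∈ Submodule.span (Co T) (gens C (fun i => dc (c i).2) (pw X n)) := by
    intro y hy
    unfold genOver at hy
    induction hy using Submodule.span_induction with
    | mem y hy =>
      rcases hy with ⟨j, hy⟩ | hy
      · exact Submodule.span_mono (fun z hz => Or.inl hz) (hC.sp hy)
      · obtain ⟨i, hi⟩ := Set.mem_iUnion.1 hy
        obtain ⟨j, z, hz, hzy⟩ := hi
        have h2 := hC.sp hz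
        have h3 : dc y = image (dc z) (dc (c i).2) := by
          rw [image_eq, ← hzy]
          rfl
        rw [h3]
        clear h3 hzy hz
        generalize dc z = z at h2
        induction h2 using Submodule.span_induction with
        | mem z hz =>
          exact Submodule.subset_span (Or.inr (Set.mem_iUnion.2 ⟨i, z, hz, rfl⟩))
        | zero =>
          rw [image_eq]
          have h5 : (VV T).corr (cc (0 : RH T ((pw X (c i).1).prod (pw X n)))) = 0 :=
            corr_zero _
          rw [h5]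
          exact Submodule.zero_mem _
        | add a b _ _ ha hb =>
          rw [image_eq] at ha hb ⊢
          have h5 : (VV T).corr (cc (a + b)) = (VV T).corr (cc a) + (VV T).corr (cc b) :=
            corr_add _ _ _
          rw [h5]
          exact Submodule.add_mem _ ha hb
        | smul l a _ ha =>
          rw [image_eq] at ha ⊢
          have h5 : (VV T).corr (cc (l • a)) =
            (show (VV T).K from l) • (VV T).corr (cc a) := corr_smul _ _ _
          rw [h5]
          exact Submodule.smul_mem _ _ ha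
    | zero => exact Submodule.zero_mem _
    | add x y _ _ hx hy => exact Submodule.add_mem _ hx hy
    | smul r x _ hx => exact Submodule.smul_mem _ _ hx
  exact key _ h1

/-- **The law.** -/
theorem law_of (hR : ∀ (Z : 𝒱.Obj) (c : RH T Z), c ∈ R Z ↔ ∃ j, Q'.P Z j (cc c)) (hC : Rp C Q)
    (hQ : ∀ {Z : 𝒱.Obj} {j : ℕ} {c : (VV T).H Z}, Q.P Z j c → Q'.P Z j c)
    (P : PolData (toH T) Q.sys X) [Nontrivial ((VV T).H X)] : ∃ N, Law R C X N := by
  have hR' : Rp R Q' :=
    ⟨fun {Z c} hc => (hR Z c).1 hc, fun {Z j c} hc => Submodule.subset_span ((hR Z c).2 ⟨j, hc⟩)⟩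
  obtain ⟨N, h1, h2, h3, h4, h5, h6⟩ := masterR hQ P
  have e1 : (fun n => dimBy (VV T) Q'.P (pw X n)) = dimOn R X :=
    funext fun n => (hR'.dim_eq X n).symm
  have e2 : (fun n => dimBy (VV T) Q.P (pw X n)) = dimOn C X :=
    funext fun n => (hC.dim_eq X n).symm
  refine ⟨N, h1, index_of hR' hC h2, h3.trans (forall_congr' fun n => (in_iff hR' hC).symm),
    fun h => ?_, fun h => generated_of hR hC (h5 h), h6.trans (lie_sub_iff hR' hC).symm⟩
  have h7 := h4 h
  rw [e1, e2] at h7
  exact h7

/-- **The fourth power.** -/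
theorem four_of (hR : ∀ (Z : 𝒱.Obj) (c : RH T Z), c ∈ R Z ↔ ∃ j, Q'.P Z j (cc c)) (hC : Rp C Q)
    (hQ : ∀ {Z : 𝒱.Obj} {j : ℕ} {c : (VV T).H Z}, Q.P Z j c → Q'.P Z j c)
    (hH : ∀ {Z : 𝒱.Obj} {j : ℕ} {c : (VV T).H Z}, Q'.P Z j c → (AH.hodgePred (toH T)).P Z j c)
    (hcl : Closed Q' X) (P : PolData (toH T) Q.sys X) [Nontrivial ((VV T).H X)] {N : ℕ∞}
    (hL : Law R C X N) : FourFor R C X N := by
  have hR' : Rp R Q' :=
    ⟨fun {Z c} hc => (hR Z c).1 hc, fun {Z j c} hc => Submodule.subset_span ((hR Z c).2 ⟨j, hc⟩)⟩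
  have h5 : N ≠ ⊤ ↔ ∀ A : Module.End (toH T).W.K ((toH T).W.H X), KillsAll Q.sys X A →
      KillsAll Q'.sys X A := hL.infinitesimal.trans (lie_sub_iff hR' hC)
  have h8 : ∀ A, KillsAll Q.sys X A → uu A ∈ lie C X :=
    fun A hA => (hC.lie_iff (A := uu A)).2 hA
  refine ⟨⟨fun h => ⟨fun A hA => hR'.kills_iff.2 (h5.1 h _ (hC.lie_iff.1 hA) 3),
    fun A hA _ => hR'.lie_iff.2 (h5.1 h _ (hC.lie_iff.1 hA))⟩, ?_⟩, fun h hs => h5.2 ?_⟩
  · rintro ⟨h6, h7⟩
    refine h5.2 fun A hA => ?_
    exact kill_of_four_R P hQ hH hcl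
      (fun A hA => (hR'.kills_iff (A := uu A)).1 (h6 (uu A) (h8 A hA)))
      (fun A hA h1 h2 => (hR'.lie_iff (A := uu A)).1
        (h7 (uu A) (h8 A hA) ((hR'.central_iff (A := uu A)).2 ⟨h1, h2⟩))) hA
  · intro A hA
    refine four_enough P hQ hH hcl (fun j c hc => (in_iff hR' hC).1 h j c hc) ?_ hA
    intro A hA1 hA2 hA3
    exact hs (uu A) ((hC.central_iff (A := uu A)).2 ⟨hA1, hA2⟩) hA3

/-- The odd projector. -/
lemma odd_of (hC : Rp C Q) (h : OddIn C X) : oddP (VV T) X ∈ Q.sys.Op X X := by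
  obtain ⟨φ, h1, h2⟩ := h
  have h3 := hC.op_iff.1 h1
  have h4 : oo φ = oddP (VV T) X := by
    refine LinearMap.ext fun x => ?_
    refine gr_induction ((VV T).isInternal X) (p := fun x => oo φ x = oddP (VV T) X x) ?_ ?_ x
    · intro i x hx
      rw [oddP_apply (PH.of hx)]
      exact h2 i x hx
    · intro x y hx hy
      rw [map_add, map_add, hx, hy]
  rw [← h4]
  exact h3

end law

/-- The polarisation data. -/
noncomputable def polC {C : Classes S.T} (hC : IsSystem S C) {u : ROp S.T X}
    (h : PolarisedBy C X u) (ho : OddIn C X) : PolData (toH S.T) (sysOf hC).sys X where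
  le _ := ClassPred.sys_le (fun h => both_hodge (sys_both hC h)) _
  uu := oo u
  mem := (rp_sys hC).op_iff.1 h.1
  odd := odd_of (rp_sys hC) ho
  pol := pol_of (T := S.T) (X := X) fun C hC r c a => h.2 C hC r c a

end Pool.Agent.Q67.TP.S
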