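import Pool.Agent.Q67.TP.Act

/-!
# The Lie algebra of the derivations of the complex numbers
-/

set_option autoImplicit false
set_option linter.unusedSectionVars false

open CategoryTheory AlgebraicGeometry

open scoped TensorProduct

universe u v

namespace Pool.Agent.Q67.TP

open Module Pool.Agent.Y133.Per
open Pool.Agent.H914 Pool.Agent.H914.VarClass Pool.Agent.H914.VarClass.Obj
  Pool.Agent.H914.WeilCohomology
open Pool.Agent.Q67.TG Pool.Agent.Y121.AH

variable {k : Type u} [Field k] {𝒱 : VarClass k} {ops : CycleOps 𝒱}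
  {W : WeilCohomology.{u, 0} ops} [Algebra W.K ℂ] {F : Subfield ℂ} {X Y Z : 𝒱.Obj}

lemma grB_mul {i j : ℕ} {v w : Base W.K (W.H X)} (hv : v ∈ grB W X i) (hw : w ∈ grB W X j) :
    v * w ∈ grB W X (i + j) := (baseW W ℂ).mul_mem hv hw

lemma grB_map (f : X ⟶ Y) {i : ℕ} {v : Base W.K (W.H Y)} (hv : v ∈ grB W Y i) :
    baseMap (W.map f) v ∈ grB W X i := (baseW W ℂ).map_mem f hv

lemma grB_tr {i : ℕ} {v : Base W.K (W.H X)} (hv : v ∈ grB W X i) (hi : i ≠ 2 * X.dim) :
    baseTr (W.tr X) v = 0 := (baseW W ℂ).tr_eq_zero hv hi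

variable {D : DeRham W F}

/-- Induction on homogeneous elements. -/
lemma dR_grB_ind (hG : Graded D) {i : ℕ} {p : Base W.K (W.H X) → Prop} (h0 : p 0)
    (h1 : ∀ (r : ℂ), ∀ u ∈ D.dR X, u ∈ grB W X i → p (r • u))
    (h2 : ∀ a b, p a → p b → p (a + b)) {v : Base W.K (W.H X)} (hv : v ∈ grB W X i) : p v := by
  have h3 : p (cpt W X i v) := by
    refine dR_ind (D := D) (p := fun v => p (cpt W X i v)) ?_ ?_ ?_ v
    · rw [map_zero]; exact h0
    · intro r u hu
      rw [map_smul]
      exact h1 r _ (hG X i u hu) (cpt_mem i u)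
    · intro a b ha hb
      rw [map_add]
      exact h2 _ _ ha hb
  rwa [cpt_same hv] at h3

lemma sum_cpt (v : Base W.K (W.H X)) :
    ∑ i ∈ Finset.range (2 * X.dim + 1), cpt W X i v = v := by
  have h4 := LinearMap.congr_fun (sum_proj ((baseW W ℂ).isInternal X) (N := 2 * X.dim + 1)
      fun i hi => (baseW W ℂ).gr_eq_bot X i (by omega)) v
  exact (LinearMap.sum_apply (Finset.range (2 * X.dim + 1))
    (fun i => cpt W X i) v).symm.trans h4

/-- Induction. -/
lemma hom_ind (hG : Graded D) {p : Base W.K (W.H X) → Prop} (h0 : p 0)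
    (h1 : ∀ (i : ℕ) (r : ℂ), ∀ u ∈ D.dR X, u ∈ grB W X i → p (r • u))
    (h2 : ∀ a b, p a → p b → p (a + b)) (v : Base W.K (W.H X)) : p v := by
  rw [← sum_cpt v]
  exact Finset.sum_induction _ p h2 h0 fun i _ =>
    dR_grB_ind hG h0 (h1 i) h2 (cpt_mem i v)

/-- the logarithmic derivative of `2 π i` -/
noncomputable def lam (δ : Derivation ℚ ℂ ℂ) : ℂ := δ twoPiI / twoPiI

lemma der_pow (δ : Derivation ℚ ℂ ℂ) (j : ℕ) :
    δ (twoPiI ^ j) = (j : ℂ) * lam δ * twoPiI ^ j := by
  rw [Derivation.leibniz_pow, lam]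
  cases j with
  | zero => simp
  | succ j =>
    rw [Nat.add_sub_cancel, smul_eq_mul, nsmul_eq_mul, pow_succ]
    field_simp [twoPiI_ne]

section act

variable (D) (hF : ∀ z : ℂ, z ∈ F ↔ IsAlgebraic ℚ z)
  (hK : ∀ δ : Derivation ℚ ℂ ℂ, KillsK W.K δ)

/-- The operator given by a derivation, with Tate twists. -/
noncomputable def opD (δ : Derivation ℚ ℂ ℂ) (X : 𝒱.Obj) : Module.End ℂ (Base W.K (W.H X)) :=
  conn D hF (hK δ) X + lam δ • halfDeg W X

variable {D} {δ : Derivation ℚ ℂ ℂ}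

lemma opD_dR {i : ℕ} {u : Base W.K (W.H X)} (hu : u ∈ D.dR X) (hi : u ∈ grB W X i) :
    opD D hF hK δ X u = -nab δ (hK δ) (W.H X) u + (lam δ * ((i : ℂ) / 2)) • u := by
  rw [opD, LinearMap.add_apply, LinearMap.smul_apply, conn_dR D hF (hK δ) hu,
    halfDeg_apply hi, smul_smul]

variable (hG : Graded D)

include hG

lemma opD_gr {i : ℕ} {v : Base W.K (W.H X)} (hv : v ∈ grB W X i) :
    opD D hF hK δ X v ∈ grB W X i := by
  refine dR_grB_ind hG (p := fun v => opD D hF hK δ X v ∈ grB W X i) ?_ ?_ ?_ hv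
  · rw [map_zero]; exact Submodule.zero_mem _
  · intro r u hu hi
    rw [map_smul, opD_dR hF hK hu hi]
    exact Submodule.smul_mem _ _ (Submodule.add_mem _ (Submodule.neg_mem _ (nab_grB hi))
      (Submodule.smul_mem _ _ hi))
  · intro a b ha hb
    rw [map_add]
    exact Submodule.add_mem _ ha hb

lemma opD_mul (x y : Base W.K (W.H X)) :
    opD D hF hK δ X (x * y) = opD D hF hK δ X x * y + x * opD D hF hK δ X y := by
  refine hom_ind hG (p := fun x => opD D hF hK δ X (x * y) =
    opD D hF hK δ X x * y + x * opD D hF hK δ X y) ?_ ?_ ?_ x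
  · rw [zero_mul, map_zero, zero_mul, zero_mul, add_zero]
  · intro i r u hu hui
    refine hom_ind hG (p := fun y => opD D hF hK δ X (r • u * y) =
      opD D hF hK δ X (r • u) * y + r • u * opD D hF hK δ X y) ?_ ?_ ?_ y
    · rw [mul_zero, map_zero, mul_zero, mul_zero, add_zero]
    · intro j s w hw hwj
      rw [smul_mul_smul_comm, map_smul, map_smul, map_smul,
        opD_dR hF hK ((D.form X).mul _ hu _ hw) (grB_mul hui hwj), opD_dR hF hK hu hui,
        opD_dR hF hK hw hwj, nab_mul, smul_mul_smul_comm, smul_mul_smul_comm, ← smul_add]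
      congr 1
      have e1 : (lam δ * (((i + j : ℕ) : ℂ) / 2)) • (u * w) =
          (lam δ * ((i : ℂ) / 2)) • u * w + u * (lam δ * ((j : ℂ) / 2)) • w := by
        rw [smul_mul_assoc, mul_smul_comm, ← add_smul]
        congr 1
        push_cast
        ring
      rw [e1, add_mul, mul_add, neg_mul, mul_neg]
      abel
    · intro a b ha hb
      rw [mul_add, map_add, ha, hb, mul_add, map_add, mul_add]
      abel
  · intro a b ha hb
    rw [add_mul, map_add, ha, hb, map_add, add_mul, add_mul]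
    abel

lemma opD_map (f : X ⟶ Y) (y : Base W.K (W.H Y)) :
    opD D hF hK δ X (baseMap (W.map f) y) = baseMap (W.map f) (opD D hF hK δ Y y) := by
  refine hom_ind hG (p := fun y => opD D hF hK δ X (baseMap (W.map f) y) =
    baseMap (W.map f) (opD D hF hK δ Y y)) ?_ ?_ ?_ y
  · rw [map_zero, map_zero, map_zero, map_zero]
  · intro i r u hu hi
    rw [map_smul, map_smul, map_smul, map_smul, opD_dR hF hK hu hi,
      opD_dR hF hK (D.map f _ hu) (grB_map f hi), map_add, map_neg, map_smul, nab_map]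
  · intro a b ha hb
    rw [map_add, map_add, ha, hb, map_add, map_add]

lemma opD_tr (x : Base W.K (W.H X)) : baseTr (W.tr X) (opD D hF hK δ X x) = 0 := by
  refine hom_ind hG (p := fun x => baseTr (W.tr X) (opD D hF hK δ X x) = 0) ?_ ?_ ?_ x
  · rw [map_zero, map_zero]
  · intro i r u hu hi
    by_cases h2 : i = 2 * X.dim
    · rw [map_smul, map_smul, opD_dR hF hK hu hi, map_add, map_neg, map_smul, nab_tr]
      obtain ⟨f, hf, h3⟩ := (D.form X).tr u hu
      have h4 : δ f = 0 := der_algebraic δ ((hF f).1 hf)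
      rw [h3, Derivation.leibniz, h4, smul_zero, zero_add, der_pow, h2]
      simp only [smul_eq_mul]
      push_cast
      ring
    · rw [map_smul, map_smul, grB_tr (opD_gr hF hK hG hi) h2, smul_zero]
  · intro a b ha hb
    rw [map_add, map_add, ha, hb, add_zero]

omit hG in
/-- The de Rham-Betti classes are killed. -/
lemma opD_drb {j : ℕ} {c : W.H X} (hc : IsDRB D X j c) :
    opD D hF hK δ X (tm 1 c) = 0 := by
  have h1 : opD D hF hK δ X (twist j c) = 0 := by
    have h2 : (twist j c : Base W.K (W.H X)) ∈ grB W X (2 * j) := tm_grB _ hc.1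
    rw [opD_dR hF hK hc.2 h2, twist, nab_tm, der_pow, smul_tm]
    have h3 : lam δ * (((2 * j : ℕ) : ℂ) / 2) * twoPiI ^ j = (j : ℂ) * lam δ * twoPiI ^ j := by
      push_cast
      ring
    rw [h3, neg_add_cancel]
  have h4 : (twist j c : Base W.K (W.H X)) = twoPiI ^ j • tm (1 : ℂ) c := by
    rw [twist, smul_tm, mul_one]
  rw [h4, map_smul] at h1
  exact (smul_eq_zero.1 h1).resolve_left (pow_ne_zero _ twoPiI_ne)

omit hG in
/-- Rational classes which are killed are de Rham-Betti classes. -/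
lemma drb_of_opD {j : ℕ} {c : W.H X} (hc : c ∈ W.gr X (2 * j))
    (h : ∀ δ, opD D hF hK δ X (tm 1 c) = 0) : IsDRB D X j c := by
  refine ⟨hc, mem_dR_of_conn hF hK fun δ => ?_⟩
  have h2 : (twist j c : Base W.K (W.H X)) ∈ grB W X (2 * j) := tm_grB _ hc
  have h4 : (twist j c : Base W.K (W.H X)) = twoPiI ^ j • tm (1 : ℂ) c := by
    rw [twist, smul_tm, mul_one]
  have h5 : opD D hF hK δ X (twist j c) = 0 := by
    rw [h4, map_smul, h δ, smul_zero]
  rw [opD, LinearMap.add_apply, LinearMap.smul_apply, halfDeg_apply h2, smul_smul] at h5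
  have h6 := eq_neg_of_add_eq_zero_left h5
  rw [h6, twist, nab_tm, der_pow, smul_tm]
  congr 2
  push_cast
  ring

end act

/-- **The infinitesimal action of the derivations of the complex numbers.** -/
noncomputable def lieD (hF : ∀ z : ℂ, z ∈ F ↔ IsAlgebraic ℚ z)
    (hK : ∀ δ : Derivation ℚ ℂ ℂ, KillsK W.K δ) (hG : Graded D) : LieAct.{u, 0, 0} (baseW W ℂ) where
  ι := Derivation ℚ ℂ ℂ
  op δ X := opD D hF hK δ X
  gr _ {_ _ _} hx := opD_gr hF hK hG hx
  mul _ {_} x y := opD_mul hF hK hG x y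
  map _ {_ _} f y := opD_map hF hK hG f y
  tr _ {_} x := opD_tr hF hK hG x
  cl _ {_ _ _} hz := opD_drb hF hK (IsDRB.cl hz)

end Pool.Agent.Q67.TP
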