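import Pool.Agent.Q67.TP.Defs

/-!
# Semisimple actions of the Lie algebra of a system of classes: definitions
-/

open CategoryTheory AlgebraicGeometry

universe u

namespace Pool.Agent.Q67.TP.S

open Pool.Agent.H914 Pool.Agent.H914.VarClass Pool.Agent.H914.VarClass.Obj
  Pool.Agent.H914.WeilCohomology
open Pool.Agent.Y133.Half (pw)
open Pool.Agent.Y121.AHS hiding Maps

/-- Every subspace which is stable under the operators in `P` has a complement which is stable
under these operators. -/
def Complemented {L H : Type} [Field L] [AddCommGroup H] [Module L H] (P : Set (Op L H)) : Prop :=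
  ∀ U : Submodule L H, (∀ φ ∈ P, ∀ x ∈ U, φ x ∈ U) →
    ∃ U', IsCompl U U' ∧ ∀ φ ∈ P, ∀ x ∈ U', φ x ∈ U'

variable {k : Type u} [Field k] {𝒱 : VarClass k} {ops : CycleOps 𝒱} {T : HodgeTheory ops}

/-- The Lie algebra of the operators on the cohomology of `X` which kill the classes in `R` on all
powers of `X` acts semisimply on the cohomology of `X × X` (by derivations). -/
def ActsSemisimply (R : Classes T) (X : 𝒱.Obj) : Prop :=
  Complemented {φ : ROp T (pw X 1) | ∃ A ∈ lie R X, ∃ E, IsDer A E ∧ E 1 = φ}

end Pool.Agent.Q67.TP.S
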