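import Pool.Agent.Q67.TP.Red
import Pool.Agent.Q67.TP.RDefs
import Pool.Agent.Q67.TP.LFinal
import Pool.Agent.Q67.TP.Final

/-!
# Semisimple actions of the Lie algebra of the de Rham-Betti classes
-/

set_option autoImplicit false
set_option linter.unusedSectionVars false
set_option maxHeartbeats 400000

open CategoryTheory AlgebraicGeometry TensorProduct Filter Topology

universe u v w

namespace Pool.Agent.Q67.TP.S

open Pool.Agent.H914 Pool.Agent.H914.VarClass Pool.Agent.H914.VarClass.Obj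
  Pool.Agent.H914.WeilCohomology
open Pool.Agent.Y133.Half hiding prj extOp_xp tateDim
open Pool.Agent.Y133.Per
open Pool.Agent.Q67.Det Pool.Agent.Q67.TK
open Pool.Agent.Q67.TG
open Pool.Agent.W458.MF Pool.Agent.W536.RR Pool.Agent.H281R3.HT
open Pool.Agent.Y121 Pool.Agent.Y121.AHS
open Pool.Agent.Q67.TP

variable {k : Type u} [Field k] {𝒱 : VarClass k} {ops : CycleOps 𝒱}
  {X Y Z : 𝒱.Obj}

section gen

variable {T : HodgeTheory ops} {R C : Classes T} {Q Q' : ClassPred (VV T)}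

lemma semi_of (hR : Rp R Q') (h : ActsSemisimply R X) : SemiR (T := toH T) Q' X := by
  intro U hU
  obtain ⟨U', h1, h2⟩ := h U (by
    rintro φ ⟨A, hA, E, hE, rfl⟩ x hx
    have h3 := hU ⟨oo A, hR.lie_iff.1 hA⟩ x hx
    have h4 := isDer_eq hE 1
    have h5 : (oo (E 1)) x = derOp (oo A) 1 x := by rw [h4]
    have h6 : (derOp (oo A) 1 : Module.End (VV T).K ((VV T).H (pw X 1))) x ∈ U := h3
    rw [← h5] at h6
    exact h6)
  refine ⟨U', h1, fun A x hx => ?_⟩
  have h3 : uu A.1 ∈ lie R X := (hR.lie_iff (A := uu A.1)).2 A.2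
  exact h2 (uu (derOp A.1 1)) ⟨uu A.1, h3, _, isDer_derOp (uu A.1), rfl⟩ x hx

/-- **The fourth power.** -/
theorem four_of_semi (hR : ∀ (Z : 𝒱.Obj) (c : RH T Z), c ∈ R Z ↔ ∃ j, Q'.P Z j (cc c))
    (hC : Rp C Q) (hQ : ∀ {Z : 𝒱.Obj} {j : ℕ} {c : (VV T).H Z}, Q.P Z j c → Q'.P Z j c)
    (hcl : EvClosed (T := toH T) Q' X) (P : PolData (toH T) Q.sys X) [Nontrivial ((VV T).H X)]
    (hs : ActsSemisimply R X) {N : ℕ∞} (hL : Law R C X N) : FourFor R C X N := by
  have hR' : Rp R Q' :=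
    ⟨fun {Z c} hc => (hR Z c).1 hc, fun {Z j c} hc => Submodule.subset_span ((hR Z c).2 ⟨j, hc⟩)⟩
  have hs' := semi_of hR' hs
  have h5 : N ≠ ⊤ ↔ ∀ A : Module.End (toH T).W.K ((toH T).W.H X), KillsAll Q.sys X A →
      KillsAll Q'.sys X A := hL.infinitesimal.trans (lie_sub_iff hR' hC)
  have h8 : ∀ A, KillsAll Q.sys X A → uu A ∈ lie C X :=
    fun A hA => (hC.lie_iff (A := uu A)).2 hA
  refine ⟨⟨fun h => ⟨fun A hA => hR'.kills_iff.2 (h5.1 h _ (hC.lie_iff.1 hA) 3),
    fun A hA _ => hR'.lie_iff.2 (h5.1 h _ (hC.lie_iff.1 hA))⟩, ?_⟩, fun h hs => h5.2 ?_⟩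
  · rintro ⟨h6, h7⟩
    refine h5.2 fun A hA => ?_
    exact kill_of_four_S P hQ hcl hs'
      (fun A hA => (hR'.kills_iff (A := uu A)).1 (h6 (uu A) (h8 A hA)))
      (fun A hA h1 h2 => (hR'.lie_iff (A := uu A)).1
        (h7 (uu A) (h8 A hA) ((hR'.central_iff (A := uu A)).2 ⟨h1, h2⟩))) hA
  · intro A hA
    refine four_enoughS P hQ hcl hs' (fun j c hc => (in_iff hR' hC).1 h j c hc) ?_ hA
    intro A hA1 hA2 hA3
    exact hs (uu A) ((hC.central_iff (A := uu A)).2 ⟨hA1, hA2⟩) hA3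

end gen

variable {S : Theory ops}

/-- The de Rham-Betti classes are a closed system in even degrees. -/
lemma evClosed_drb (X : 𝒱.Obj) : EvClosed (T := toH S.T) (drbPred (DD S)) X := by
  refine evClosed_kill (aa S) (fun {Z j c} => ?_) X
  constructor
  · intro h
    exact ⟨h.1, drb_killed S.algebraic (graded_S S) h⟩
  · rintro ⟨h1, h2⟩
    exact drb_of_killed S.algebraic (graded_S S) h1 h2

/-- **The law for the de Rham-Betti classes and the fourth power.** -/
theorem law_semi (S : Theory ops) (X : 𝒱.Obj) [Nontrivial (RH S.T X)] (C : Classes S.T)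
    (hC : IsSystem S C) (u : ROp S.T X) (hu : PolarisedBy C X u) (ho : OddIn C X)
    (hs : ActsSemisimply (drb S) X) :
    ∃ N : ℕ∞, Law (drb S) C X N ∧ FourFor (drb S) C X N := by
  have hnt : Nontrivial ((VV S.T).H X) := ‹Nontrivial (RH S.T X)›
  obtain ⟨N, hN⟩ := law_of (X := X) (ex_drb (S := S)) (rp_sys hC) (fun h => sys_drb hC h)
    (polC hC hu ho)
  exact ⟨N, hN, four_of_semi (ex_drb (S := S)) (rp_sys hC) (fun h => sys_drb hC h)
    (evClosed_drb X) (polC hC hu ho) hs hN⟩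

/-- **The fourth power for the de Rham-Betti classes.** -/
theorem fourth_drb (S : Theory ops) (X : 𝒱.Obj) [Nontrivial (RH S.T X)] (u : ROp S.T X)
    (hu : PolarisedBy (meet (hodge S.T) (drb S)) X u) (hs : ActsSemisimply (drb S) X) :
    Fourth (drb S) (hodge S.T) X := by
  have hnt : Nontrivial ((VV S.T).H X) := ‹Nontrivial (RH S.T X)›
  have hR := (ex_drb (S := S)).rp
  have hB := (ex_both' (S := S)).rp
  have P := polB hu
  have hs' : SemiR (T := toH S.T) (drbPred (DD S)) X := semi_of hR hs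
  have hQ : ∀ {Z : 𝒱.Obj} {j : ℕ} {c : (VV S.T).H Z}, (Bp S).P Z j c →
      (drbPred (DD S)).P Z j c := fun h => both_drb h
  have h5 : Sub (drb S) (hodge S.T) X ↔ ∀ A : Module.End (toH S.T).W.K ((toH S.T).W.H X),
      KillsAll (Bp S).sys X A → KillsAll (drbPred (DD S)).sys X A := by
    obtain ⟨N, h1, h2, h3, h4⟩ := zo_closed (T := toH S.T) (Q := Bp S)
      (R := drbPred (DD S)) hQ (closed_both (aa S) X) P
    exact (sub_iff ex_drb ex_both').trans (h3.symm.trans h4)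
  refine ⟨h5.trans ⟨fun h => ⟨fun A hA => hR.kills_iff.2 (h _ (hB.lie_iff.1 hA) 3),
    fun A hA _ => hR.lie_iff.2 (h _ (hB.lie_iff.1 hA))⟩, ?_⟩, fun h hs => h5.2 ?_⟩
  · rintro ⟨h6, h7⟩ A hA
    have h8 : ∀ A, KillsAll (Bp S).sys X A → uu A ∈ lie (meet (drb S) (hodge S.T)) X :=
      fun A hA => (hB.lie_iff (A := uu A)).2 hA
    exact kill_of_four_S P hQ (evClosed_drb X) hs'
      (fun A hA => (hR.kills_iff (A := uu A)).1 (h6 (uu A) (h8 A hA)))
      (fun A hA h1 h2 => (hR.lie_iff (A := uu A)).1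
        (h7 (uu A) (h8 A hA) ((hR.central_iff (A := uu A)).2 ⟨h1, h2⟩))) hA
  · intro A hA
    refine four_enoughS P hQ (evClosed_drb X) hs' ?_ ?_ hA
    · intro j c hc
      have h1 : (show RH S.T (pw X 3) from c) ∈ drb S (pw X 3) := (ex_drb _ _).2 ⟨j, hc⟩
      exact P_of_ex ((ex_both' _ _).1 ⟨h1, h h1⟩) hc.1
    · intro A hA1 hA2 hA3
      exact hs (uu A) ((hB.central_iff (A := uu A)).2 ⟨hA1, hA2⟩) hA3

/-- **Hodge classes, de Rham-Betti classes and the transcendence degree of the periods.** -/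
theorem semisimple_periods (S : Theory ops) (X : 𝒱.Obj) [Nontrivial (RH S.T X)] (u : ROp S.T X)
    (hu : PolarisedBy (meet (hodge S.T) (drb S)) X u) (hs : ActsSemisimply (drb S) X) :
    Fourth (drb S) (hodge S.T) X ∧
      (hodge S.T (pw X 3) = drb S (pw X 3) → NoCentralSkew (meet (hodge S.T) (drb S)) X →
        (∀ n, hodge S.T (pw X n) = drb S (pw X n)) ∧ lie (hodge S.T) X = lie (drb S) X ∧
          trdegOf (periods S X) ≤ (lieDim (hodge S.T) X + 1 : ℕ)) := by
  have hF := fourth_drb S X u hu hs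
  have hF' := (fourth_periods S X u hu).1
  have hm : meet (hodge S.T) (drb S) = meet (drb S) (hodge S.T) :=
    funext fun Z => Set.inter_comm _ _
  refine ⟨hF, fun h h1 => ?_⟩
  have e1 := hF'.enough h.le h1
  rw [hm] at h1
  have e2 := hF.enough h.ge h1
  have e3 : ∀ n, hodge S.T (pw X n) = drb S (pw X n) := fun n => Set.Subset.antisymm (e1 n) (e2 n)
  have e4 : lie (hodge S.T) X = lie (drb S) X := by
    ext A
    refine forall_congr' fun m => forall_congr' fun E => forall_congr' fun hE => ?_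
    rw [e3 m]
  refine ⟨e3, e4, ?_⟩
  have hle := trdeg_le (X := X) (ex_drb (S := S)).rp (fun {Z j c} (h : (drbPred (DD S)).P Z j c) => h)
  rw [lieDim, ← e4] at hle
  exact hle

end Pool.Agent.Q67.TP.S
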