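import Pool.Agent.Q67.TP.Core
import Pool.Agent.Q67.TP.Closed

/-!
# The law for systems of classes with extended coefficients
-/

set_option autoImplicit false
set_option linter.unusedSectionVars false

open CategoryTheory AlgebraicGeometry

open scoped TensorProduct

universe u v w

namespace Pool.Agent.Q67.TP

open Pool.Agent.Y133.Per
open Pool.Agent.H914 Pool.Agent.H914.VarClass Pool.Agent.H914.VarClass.Obj
  Pool.Agent.H914.WeilCohomology
open Pool.Agent.Y133.Half hiding prj extOp_xp tateDim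
open Pool.Agent.Q67.Det Pool.Agent.Q67.TK
open Pool.Agent.Q67.TG Pool.Agent.Y121.AH
open scoped Matrix

variable {k : Type u} [Field k] {𝒱 : VarClass k} {ops : CycleOps 𝒱}

section tensors

variable {K L B : Type} [Field K] [Field L] [Algebra K L] [Fintype B] [DecidableEq B]

/-- A matrix which kills the tensors kills the extended spaces. -/
lemma ann_ext {𝒜 : ∀ n, Submodule K ((Fin n → B) → K)} {A : Matrix B B K} (hA : A ∈ Ann 𝒜) :
    A.map (algebraMap K L) ∈ Ann fun n => mpS L (𝒜 n) := by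
  intro n F hF
  unfold mpS at hF
  induction hF using Submodule.span_induction with
  | mem F hF =>
    obtain ⟨G, hG, rfl⟩ := hF
    rw [← mp_dM]
    have h1 : (dM n A).mulVec G = 0 := hA n G hG
    rw [h1]
    funext I
    exact map_zero _
  | zero => exact Matrix.mulVec_zero _
  | add x y _ _ hx hy => rw [Matrix.mulVec_add, hx, hy, add_zero]
  | smul r x _ hx => rw [Matrix.mulVec_smul, hx, smul_zero]

end tensors

section master

variable {T : HodgeTheory ops} {L : Type} [Field L] [Algebra T.W.K L] [Algebra L ℂ]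
  {X Y Z : 𝒱.Obj} {Q : ClassPred T.W} {R : ClassPred (baseW T.W L)}

/-- the tensors of the classes in `R` -/
noncomputable def CsG (R : ClassPred (baseW T.W L)) {n : ℕ}
    (v : Module.Basis (Fin n) T.W.K (T.W.H X)) (l : ℕ) : Submodule L ((Fin l → Fin n) → L) :=
  Cs R.sys (vL L v) l

/-- The criterion in coordinates. -/
lemma kill_coordG {n : ℕ} (v : Module.Basis (Fin n) T.W.K (T.W.H X))
    (hinf : ∀ A : Module.End (baseW T.W L).K ((baseW T.W L).H X),
      KillsW (bcPred L Q).sys X A → KillsW R.sys X A)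
    {M : Matrix (Fin n) (Fin n) L} (hM : M ∈ Ann fun l => mpS L (Cs Q.sys v l)) :
    M ∈ Ann (CsG R v) := by
  have := tower_inst T L
  have h1 : M ∈ Ann (CsL L Q.sys v) := by
    have h2 : (fun l => mpS L (Cs Q.sys v l)) = CsL L Q.sys v :=
      funext fun l => (Cs_base l).symm
    rw [← h2]
    exact hM
  have h3 : KillsW (bcPred L Q).sys X (Matrix.toLin (vL L v) (vL L v) M) := by
    rw [bcPred_sys]
    exact (ann_iff (V := baseW T.W L) M).1 h1
  exact (ann_iff (V := baseW T.W L) M).2 (hinf _ h3)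

/-- the killing operators in coordinates -/
lemma kill_coordG' {n : ℕ} (v : Module.Basis (Fin n) T.W.K (T.W.H X))
    (h : ∀ M : Matrix (Fin n) (Fin n) L, M ∈ Ann (fun l => mpS L (Cs Q.sys v l)) →
      M ∈ Ann (CsG R v))
    {A : Module.End (baseW T.W L).K ((baseW T.W L).H X)} (hA : KillsW (bcPred L Q).sys X A) :
    KillsW R.sys X A := by
  have h1 := h _ (ann_of_killsW (v := v) hA)
  exact (mem_Ann_Cs (W := baseW T.W L) (v := vL L v)).1 h1

open scoped ComplexOrder in
/-- **The bound.** -/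
theorem bound_G (P : PolData T Q.sys X)
    (hinf : ∀ A : Module.End (baseW T.W L).K ((baseW T.W L).H X),
      KillsW (bcPred L Q).sys X A → KillsW R.sys X A) :
    ∃ c : ℝ, 0 < c ∧ ∀ m, c * dimBy (baseW T.W L) R.P (pw X (2 * m + 1)) ≤
      dimBy (baseW T.W L) (bcPred L Q).P (pw X (2 * m + 1)) := by
  have := charZero_K T
  have := tower_inst T L
  obtain ⟨n, v, d, hd⟩ := exists_homog_basis T.W X
  obtain ⟨c, hc, h⟩ := (P.rsys hd).boundC (C := cM v) (κ := (qM v P.uu)⁻¹) (real_K T) P.q_kap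
    (posDef_of_pol P.pol) (fun m F hF => cM_fix v (P.Cs_le m hF)) (kap_mem hd P.mem P.q_kap)
    (fun l => upS (CsG R v l)) (by
      intro M hM l F hF
      have hM' : Kills (Cs Q.sys v) M := hM
      have hann : ∀ l : ℂ →ₗ[L] L, dnM l M ∈ Ann (CsG R v) := fun l =>
        kill_coordG v hinf (hM'.dn l)
      refine Submodule.span_induction (p := fun F _ => (dM l M).mulVec F = 0) ?_ ?_ ?_ ?_ hF
      · rintro _ ⟨G, hG, rfl⟩
        exact kill_of_Ann hann hG
      · exact Matrix.mulVec_zero _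
      · intro x y _ _ hx hy; rw [Matrix.mulVec_add, hx, hy, add_zero]
      · intro a x _ hx; rw [Matrix.mulVec_smul, hx, smul_zero])
  refine ⟨c, hc, fun m => ?_⟩
  have h1 := h (m + 1)
  have e1 : Module.finrank ℂ (upS (CsG R v (2 * (m + 1)))) =
      dimBy (baseW T.W L) R.P (pw X (2 * m + 1)) := by
    rw [finrank_upS]
    exact finrank_Cs (v := vL L v) (S := R.sys) (m := 2 * m + 1)
  have e2 : Module.finrank T.W.K ((P.rsys hd).C (2 * (m + 1))) =
      dimBy (baseW T.W L) (bcPred L Q).P (pw X (2 * m + 1)) := by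
    rw [bcPred_dim]
    exact finrank_Cs (v := v) (S := Q.sys) (m := 2 * m + 1)
  rw [e1, e2] at h1
  exact h1

/-- **The law for the index of `R` over `Q`.** -/
theorem masterG (hQR : ∀ {Z : 𝒱.Obj} {j : ℕ} {c : (baseW T.W L).H Z}, (bcPred L Q).P Z j c →
      R.P Z j c) (P : PolData T Q.sys X) [Nontrivial (T.W.H X)] :
    ∃ N : ℕ∞, 1 ≤ N ∧
      HasIndex (fun n => dimBy (baseW T.W L) R.P (pw X n))
        (fun n => dimBy T.W Q.P (pw X n)) N ∧
      (N = 1 ↔ ∀ n j c, R.P (pw X n) j c → (bcPred L Q).P (pw X n) j c) ∧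
      (N ≠ 1 → AtMostHalf (fun n => dimBy T.W Q.P (pw X n))
        (fun n => dimBy (baseW T.W L) R.P (pw X n))) ∧
      (N ≠ ⊤ → GeneratedOver (baseW T.W L) (bcPred L Q).P R.P X N) ∧
      (N ≠ ⊤ ↔ ∀ A : Module.End (baseW T.W L).K ((baseW T.W L).H X),
        KillsW (bcPred L Q).sys X A → KillsW R.sys X A) := by
  have := charZero_K T
  have hL0 := charZero_L T L
  have hnt : Nontrivial ((baseW T.W L).H X) := Pool.Agent.Y129.nontrivial_base L
  have hnd : ∀ n, (bcPred L Q).sys.Nondeg (pw X n) := by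
    intro n
    rw [bcPred_sys]
    exact (P.nondeg_pw n).base L
  obtain ⟨N, M, h1, -, hN, -, -, hN1, -, hhalf, -, hgen, -⟩ :=
    (bcPred L Q).tower R hQR X hnd
  have hd : (fun n => dimBy (baseW T.W L) (bcPred L Q).P (pw X n)) =
      fun n => dimBy T.W Q.P (pw X n) := funext fun n => bcPred_dim _
  have hinf : N ≠ ⊤ ↔ ∀ A : Module.End (baseW T.W L).K ((baseW T.W L).H X),
      KillsW (bcPred L Q).sys X A → KillsW R.sys X A := by
    constructor
    · intro h A hA
      have h2 : NDat (baseW T.W L) (bcPred L Q).sys X := by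
        rw [bcPred_sys]
        exact P.ndat.base
      exact kill_of_generated' h2 (hgen h) hA
    · intro h
      obtain ⟨c, hc, hb⟩ := bound_G P h
      exact ne_top_of_bound hN (fun n => (bcPred L Q).sys.finrank_pos_pw n) hc hb
  rw [hd] at hN hhalf
  exact ⟨N, h1, hN, hN1, hhalf, hgen, hinf⟩

/-- A tensor whose components lie in a system. -/
lemma bc_of_comp {n : ℕ} {v : Module.Basis (Fin n) T.W.K (T.W.H X)} {m j : ℕ}
    {c : (baseW T.W L).H (pw X m)} (hg : c ∈ (baseW T.W L).gr (pw X m) (2 * j))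
    (h : ∀ F : (Fin (m + 1) → Fin n) → L, PP (W := baseW T.W L) (vL L v) (Det.prj X m) F = c →
      ∀ l : L →ₗ[T.W.K] T.W.K, (fun I => l (F I)) ∈ Cs Q.sys v (m + 1)) :
    (bcPred L Q).P (pw X m) j c := by
  have := tower_inst T L
  obtain ⟨F, hF⟩ := PP_surj (W := baseW T.W L) (vL L v) c
  have h1 : (show (Fin (m + 1) → Fin n) → L from F) ∈ mpS L (Cs Q.sys v (m + 1)) :=
    mem_mpS_of fun l => h F hF l
  rw [← Cs_base (m + 1), mem_CsL, mem_Cs_succ] at h1
  have h2 : c ∈ (bcPred L Q).sys.C (pw X m) := by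
    rw [bcPred_sys, ← hF]
    exact h1
  have h3 := ClassPred.sp_proj (Q := bcPred L Q) h2 j
  rwa [proj_same _ hg] at h3

/-- Classes killed by the operators which kill a closed system are combinations of classes in the
system. -/
theorem le_of_closedG {Q' : ClassPred T.W} (hcl : Closed Q' X)
    (hQ : ∀ {Z : 𝒱.Obj} {j : ℕ} {c : T.W.H Z}, Q.P Z j c → Q'.P Z j c)
    (h : ∀ A : Module.End (baseW T.W L).K ((baseW T.W L).H X),
      KillsW (bcPred L Q).sys X A → KillsW R.sys X A)
    {m j : ℕ} {c : (baseW T.W L).H (pw X m)} (hc : R.P (pw X m) j c) :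
    (bcPred L Q').P (pw X m) j c := by
  obtain ⟨n, v, d, hd⟩ := exists_homog_basis T.W X
  refine bc_of_comp (v := v) (R.gr hc) fun F hF l => ?_
  refine hcl n v (m + 1) _ fun A hA => ?_
  have h1 : A ∈ Ann (Cs Q.sys v) := by
    intro r G hG
    exact hA r G fun Z f => ClassPred.sys_le hQ _ (hG Z f)
  have h2 : A.map (algebraMap T.W.K L) ∈ Ann (fun l => mpS L (Cs Q.sys v l)) := ann_ext h1
  have h3 := kill_coordG v h h2
  have h4 : (show (Fin (m + 1) → Fin n) → L from F) ∈ CsG R v (m + 1) := by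
    refine mem_Cs_succ.2 ?_
    rw [hF]
    exact ClassPred.sp_of (Q := R) hc
  have h5 := h3 (m + 1) _ h4
  rw [fn_dM]
  funext I
  rw [h5]
  exact map_zero l

end master

end Pool.Agent.Q67.TP
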