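import Pool.Agent.Q67.TP.Closed

/-!
# The criterion on the fourth power for systems with a semisimple Lie algebra action
-/

set_option autoImplicit false
set_option linter.unusedSectionVars false

open CategoryTheory AlgebraicGeometry TensorProduct Filter Topology

open scoped ENNReal

universe u v w

namespace Pool.Agent.Q67.TK

variable {K : Type*} [Field K]

lemma mp_self {S : Type*} (F : S → K) : mp K F = F := rfl

lemma mpS_self {S : Type*} (V : Submodule K (S → K)) : mpS K V = V := by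
  unfold mpS
  have h : mp K '' (V : Set (S → K)) = V := by
    ext F
    constructor
    · rintro ⟨G, hG, rfl⟩; exact hG
    · intro hF; exact ⟨F, hF, rfl⟩
  rw [h, Submodule.span_eq]

end Pool.Agent.Q67.TK

namespace Pool.Agent.Q67.TG

open Pool.Agent.H914 Pool.Agent.H914.VarClass Pool.Agent.H914.VarClass.Obj
  Pool.Agent.H914.WeilCohomology
open Pool.Agent.Y133.Half hiding prj extOp_xp
open Pool.Agent.Q67.Det Pool.Agent.Q67.TK
open Pool.Agent.Y121.AH
open scoped Matrix

variable {k : Type u} [Field k] {𝒱 : VarClass k} {ops : CycleOps 𝒱}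
variable {T : HodgeTheory ops} {X Y Z : 𝒱.Obj} {Q R : ClassPred T.W}

/-- The system contains the classes of even degree on the powers of `X` which are killed by all the
operators which kill the system. -/
def EvClosed (R : ClassPred T.W) (X : 𝒱.Obj) : Prop :=
  ∀ (n : ℕ) (v : Module.Basis (Fin n) T.W.K (T.W.H X)) (m : ℕ)
    (F : (Fin (m + 1) → Fin n) → T.W.K),
    (∀ A ∈ Ann (Cs R.sys v), (dM (m + 1) A) *ᵥ F = 0) →
      PP v (Det.prj X m) F ∈ PH T.W (pw X m) 0 → F ∈ Cs R.sys v (m + 1)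

lemma mem_of_kill {L : Type} [Field L] [Algebra T.W.K L] {𝔞 : LieAct.{u, 0, w} (baseW T.W L)}
    (hR : ∀ {Z : 𝒱.Obj} {j : ℕ} {c : T.W.H Z}, R.P Z j c ↔
      c ∈ T.W.gr Z (2 * j) ∧ ∀ a, 𝔞.op a Z (em T.W L c) = 0) {Z : 𝒱.Obj} {c : T.W.H Z}
    (hev : c ∈ PH T.W Z 0) (hk : ∀ a, 𝔞.op a Z (em T.W L c) = 0) : c ∈ R.sys.C Z := by
  have h4 := congrArg (fun f : Module.End T.W.K (T.W.H Z) => f c)
    (sum_proj (T.W.isInternal Z) (N := 2 * Z.dim + 1) fun i hi => T.W.gr_eq_bot Z i (by omega))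
  simp only [LinearMap.sum_apply, Module.End.one_apply] at h4
  rw [← h4]
  have hpr : ∀ i, em T.W L (proj (T.W.isInternal Z) i c) =
      proj ((baseW T.W L).isInternal Z) i (em T.W L c) := by
    intro i
    refine gr_induction (T.W.isInternal Z) (p := fun x => em T.W L (proj (T.W.isInternal Z) i x) =
      proj ((baseW T.W L).isInternal Z) i (em T.W L x)) ?_ ?_ c
    · intro j c hc
      by_cases hij : j = i
      · subst hij
        rw [proj_same _ hc, proj_same _ (em_gr hc)]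
      · rw [proj_ne _ hc hij, proj_ne _ (em_gr hc) hij, em_zero]
    · intro x y hx hy
      rw [map_add, em_add, em_add, map_add, hx, hy]
  refine Submodule.sum_mem _ fun i _ => ?_
  rcases Nat.mod_two_eq_zero_or_one i with hi | hi
  · obtain ⟨j, rfl⟩ : ∃ j, i = 2 * j := ⟨i / 2, by omega⟩
    refine ClassPred.sp_of (Q := R) (j := j) (hR.2 ⟨proj_mem _ _ _, fun a => ?_⟩)
    rw [hpr, 𝔞.proj_op, hk, map_zero]
  · have h5 : proj (T.W.isInternal Z) i c = 0 := by
      refine PH.ind (p := fun x => proj (T.W.isInternal Z) i x = 0) ?_ ?_ ?_ hev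
      · intro j hj x hx
        exact proj_ne _ hx (by omega)
      · exact map_zero _
      · intro x y hx hy; rw [map_add, hx, hy, add_zero]
    rw [h5]
    exact Submodule.zero_mem _

lemma evClosed_kill {L : Type} [Field L] [Algebra T.W.K L] (𝔞 : LieAct.{u, 0, w} (baseW T.W L))
    (hR : ∀ {Z : 𝒱.Obj} {j : ℕ} {c : T.W.H Z}, R.P Z j c ↔
      c ∈ T.W.gr Z (2 * j) ∧ ∀ a, 𝔞.op a Z (em T.W L c) = 0) (X : 𝒱.Obj) : EvClosed R X := by
  intro n v m F h hev
  have hk : ∀ a, 𝔞.op a (pw X m) (em T.W L (PP v (Det.prj X m) F)) = 0 := by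
    intro a
    have hM := mat_mem_Ann (v := v) (𝔞 := 𝔞) (Q := R) (fun h a => (hR.1 h).2 a) a
    have h7 := kill_of_ann_map hM (F := F) h
    rw [𝔞.op_eq, em_PPL]
    refine (derOp_PP (W := baseW T.W L) (vL L v) (𝔞.op a X) (mpL L _)).trans ?_
    exact (congrArg (PP (vL L v) (Det.prj X m)) h7).trans (PP_zero _)
  exact mem_Cs_succ.2 (mem_of_kill hR hev hk)

/-- The tensors of the classes of a closed system. -/
lemma Cs_evClosed (hcl : EvClosed R X) {n : ℕ} {v : Module.Basis (Fin n) T.W.K (T.W.H X)}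
    {d : Fin n → ℕ} (hd : ∀ b, v b ∈ T.W.gr X (d b)) (l : ℕ) :
    Cs R.sys v l = RT {M | M ∈ Ann (Cs R.sys v)} d l := by
  have := charZero_K T
  ext F
  cases l with
  | zero =>
    constructor
    · intro _
      refine ⟨fun M _ => ?_, fun I _ => by simp⟩
      funext I
      simp [dM_mulVec]
    · intro _; exact mem_Cs_zero _
  | succ m =>
    constructor
    · intro hF
      refine ⟨fun M hM => hM (m + 1) F hF, ?_⟩
      exact (LieAct.PP_even_iff (V := T.W) hd).1 (R.sys.even (mem_Cs_succ.1 hF))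
    · rintro ⟨h1, h2⟩
      exact hcl n v m F (fun A hA => h1 A hA) ((LieAct.PP_even_iff (V := T.W) hd).2 h2)

/-- The Lie algebra of the operators which kill the system acts semisimply on the cohomology of
`X × X`. -/
def SemiR (R : ClassPred T.W) (X : 𝒱.Obj) : Prop :=
  ∀ U : Submodule T.W.K (T.W.H (pw X 1)),
    (∀ A : {A : Module.End T.W.K (T.W.H X) // KillsAll R.sys X A}, ∀ x ∈ U, derOp A.1 1 x ∈ U) →
    ∃ U', IsCompl U U' ∧ ∀ A : {A : Module.End T.W.K (T.W.H X) // KillsAll R.sys X A},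
      ∀ x ∈ U', derOp A.1 1 x ∈ U'

lemma SemiR.coord (h : SemiR R X) {n : ℕ} (v : Module.Basis (Fin n) T.W.K (T.W.H X))
    (U : Submodule T.W.K ((Fin 2 → Fin n) → T.W.K))
    (hU : ∀ M ∈ {M | M ∈ Ann (Cs R.sys v)}, ∀ F ∈ U, (dM 2 M).mulVec F ∈ U) :
    ∃ U', IsCompl U U' ∧ ∀ M ∈ {M | M ∈ Ann (Cs R.sys v)}, ∀ F ∈ U', (dM 2 M).mulVec F ∈ U' := by
  have hop : ∀ (A : {A : Module.End T.W.K (T.W.H X) // KillsAll R.sys X A})
      (F : (Fin 2 → Fin n) → T.W.K), derOp A.1 1 (PPe v 1 F) =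
        PPe v 1 ((dM 2 (mt v A.1)).mulVec F) := fun A F => derOp_PP v A.1 F
  have hA : ∀ A : {A : Module.End T.W.K (T.W.H X) // KillsAll R.sys X A},
      mt v A.1 ∈ Ann (Cs R.sys v) := fun A => (killsAll_iff (v := v)).1 A.2
  obtain ⟨U', hc, hs⟩ := semi_transport (N := T.W.H (pw X 1)) (PPe v 1)
    (f := fun (A : {A : Module.End T.W.K (T.W.H X) // KillsAll R.sys X A})
      (F : (Fin 2 → Fin n) → T.W.K) => (dM 2 (mt v A.1)).mulVec F)
    (g := fun A x => derOp A.1 1 x) hop h U (fun A x hx => hU _ (hA A) x hx)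
  refine ⟨U', hc, fun M hM F hF => ?_⟩
  have h1 : mt v (Matrix.toLin v v M) = M := LinearMap.toMatrix_toLin v v M
  have h2 : KillsAll R.sys X (Matrix.toLin v v M) := by
    rw [killsAll_iff (v := v), h1]
    exact hM
  have h3 := hs ⟨_, h2⟩ F hF
  rw [← h1]
  exact h3

open scoped ComplexOrder in
/-- **The criterion on the fourth power.** -/
theorem kill_of_four_S (P : PolData T Q.sys X)
    (hQR : ∀ {Z : 𝒱.Obj} {j : ℕ} {c : T.W.H Z}, Q.P Z j c → R.P Z j c)
    (hcl : EvClosed R X) (hss : SemiR R X)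
    (h4 : ∀ A : Module.End T.W.K (T.W.H X), KillsAll Q.sys X A →
      ∀ c ∈ R.sys.C (pw X 3), derOp A 3 c = 0)
    (hZ : ∀ A : Module.End T.W.K (T.W.H X), KillsAll Q.sys X A →
      A ∈ R.sys.Op X X → (∀ φ ∈ R.sys.Op X X, A * φ = φ * A) → KillsAll R.sys X A)
    {A : Module.End T.W.K (T.W.H X)} (hA : KillsAll Q.sys X A) : KillsAll R.sys X A := by
  have := charZero_K T
  obtain ⟨n, v, d, hd⟩ := exists_homog_basis T.W X
  have hpos := posDef_of_pol (v := v) P.pol
  have hMu : IsUnit ((cM v)ᵀ * upM (qM v P.uu)).det :=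
    (Matrix.isUnit_iff_isUnit_det _).1 hpos.isUnit
  have hCu : IsUnit (cM v).det := by
    rw [Matrix.det_mul, Matrix.det_transpose] at hMu
    exact isUnit_of_mul_isUnit_left hMu
  have htoLin : ∀ M : Matrix (Fin n) (Fin n) T.W.K, mt v (Matrix.toLin v v M) = M := fun M =>
    LinearMap.toMatrix_toLin v v M
  have hAnn : ∀ (S : Sys T.W) (M : Matrix (Fin n) (Fin n) T.W.K), M ∈ Ann (Cs S v) ↔
      KillsAll S X (Matrix.toLin v v M) := by
    intro S M
    rw [killsAll_iff (v := v), htoLin]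
  have hleQR : ∀ Z, Q.sys.C Z ≤ R.sys.C Z := fun Z => ClassPred.sys_le hQR Z
  have hself : (fun l => mpS T.W.K (Cs Q.sys v l)) = Cs Q.sys v := funext fun l => mpS_self _
  have hRT : Cs R.sys v = RT {M | M ∈ Ann (Cs R.sys v)} d := funext fun l => Cs_evClosed hcl hd l
  have hmap : ((qM v P.uu)⁻¹).map (algebraMap T.W.K T.W.K) = (qM v P.uu)⁻¹ := by
    ext i j
    rfl
  have h := larsenT (L := T.W.K) (C := cM v) (C' := (cM v)⁻¹) (q := qM v P.uu)
    (κ := (qM v P.uu)⁻¹) (𝒜 := Cs Q.sys v) (real_K T) (Matrix.nonsing_inv_mul _ hCu)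
    (fun l F hF => cM_fix v (P.Cs_le l hF)) P.q_kap (kap_mem hd P.mem P.q_kap) hpos
    (Sg := {M | M ∈ Ann (Cs R.sys v)}) (p := d)
    (by
      rw [hself]
      intro M hM l F hF
      exact hM l F fun Z f => hleQR Z (hF Z f))
    (by
      intro l
      rw [mpS_self, ← hRT]
      exact fun F hF Z f => hleQR Z (hF Z f))
    (by
      rw [hself]
      intro M hM
      have h1 := (hAnn Q.sys M).1 hM
      have h2 := P.ndat.evM hd (A := Matrix.toLin v v M) h1
      rw [htoLin] at h2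
      exact h2)
    (fun U hU => hss.coord v U hU)
    (by
      rw [hself, ← hRT]
      intro M hM F hF
      have h1 := (mem_four (v := v) (S := R.sys) (m := 3)
        (A := Matrix.toLin v v M)).2 (h4 _ ((hAnn Q.sys M).1 hM))
      rw [htoLin] at h1
      exact h1 F hF)
    (by
      rw [hself, hmap, ← hRT]
      intro Y hY hYz hYc
      rw [hAnn]
      refine hZ _ ((hAnn Q.sys Y).1 hY) ?_ ?_
      · rw [← P.op_iff hleQR hd, htoLin]; exact hYz
      · intro φ hφ
        rw [← P.op_iff hleQR hd] at hφ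
        apply mt_inj (v := v)
        rw [mt_mul, mt_mul, htoLin]
        exact hYc _ hφ)
  rw [hself, ← hRT] at h
  exact (killsAll_iff (v := v)).2 (h ((killsAll_iff (v := v)).1 hA))

/-- The fourth power suffices. -/
theorem four_enoughS (P : PolData T Q.sys X)
    (hQR : ∀ {Z : 𝒱.Obj} {j : ℕ} {c : T.W.H Z}, Q.P Z j c → R.P Z j c)
    (hcl : EvClosed R X) (hss : SemiR R X) (h3 : ∀ j c, R.P (pw X 3) j c → Q.P (pw X 3) j c)
    (hsk : ∀ A ∈ Q.sys.Op X X, (∀ φ ∈ Q.sys.Op X X, A * φ = φ * A) →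
      (∀ x y, T.W.tr X (A x * y) = -T.W.tr X (x * A y)) → A = 0)
    {A : Module.End T.W.K (T.W.H X)} (hA : KillsAll Q.sys X A) : KillsAll R.sys X A := by
  have := charZero_K T
  have hdown : ∀ {j : ℕ} {c : T.W.H (X.prod X)}, R.P (X.prod X) j c → Q.P (X.prod X) j c := by
    intro j c hc
    have h1 := Q.map (seFour X) (h3 j _ (R.map (prFour X) hc))
    rwa [← T.W.map_comp, se_pr, T.W.map_id] at h1
  refine kill_of_four_S P hQR hcl hss (fun A hA c hc => ?_) (fun A hA h1 h2 m c hc => ?_) hA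
  · refine hA 3 c ?_
    refine ClassPred.sp_ind (Q := R) (q := fun c => c ∈ Q.sys.C (pw X 3)) ?_ ?_ ?_ hc
    · intro j x hx; exact ClassPred.sp_of (Q := Q) (h3 j x hx)
    · exact Submodule.zero_mem _
    · intro a b ha hb; exact Submodule.add_mem _ ha hb
  · have e1 : A ∈ Q.sys.Op X X := by
      obtain ⟨z, hz, rfl⟩ := Sys.mem_Op.1 h1
      refine Sys.mem_Op.2 ⟨z, ?_, rfl⟩
      refine ClassPred.sp_ind (Q := R) (q := fun c => c ∈ Q.sys.C (X.prod X))
        ?_ ?_ ?_ hz
      · intro j x hx; exact ClassPred.sp_of (Q := Q) (hdown hx)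
      · exact Submodule.zero_mem _
      · intro a b ha hb; exact Submodule.add_mem _ ha hb
    have e2 : ∀ φ ∈ Q.sys.Op X X, A * φ = φ * A := by
      intro φ hφ
      obtain ⟨z, hz, rfl⟩ := Sys.mem_Op.1 hφ
      exact h2 _ (Sys.mem_Op.2 ⟨z, ClassPred.sys_le hQR _ hz, rfl⟩)
    have e3 : A = 0 := hsk A e1 e2 fun x y => PolData.tr_skew P hA x y
    have h10 : (0 : Module.End T.W.K (T.W.H (pw X m))) =
        derOp (0 : Module.End T.W.K (T.W.H X)) m := by
      refine IsDer.eq ?_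
      intro x
      rw [LinearMap.zero_apply]
      refine (Finset.sum_eq_zero fun i _ => ?_).symm
      exact ten_zero_of (i := i) (Function.update_self i _ x)
    rw [e3, ← h10, LinearMap.zero_apply]

end Pool.Agent.Q67.TG
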